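import Pool.Agent.H750.K.Groups

set_option autoImplicit false

/-! # The forms of isotropic vectors in the ideal generated by `2` and the augmentation ideal -/

namespace Pool.Agent.H750

open Matrix Pool.Agent.R791

variable {Γ : Type*} [Group Γ] {ι κ μ ν : Type*}

section base

variable [Fintype ι] [DecidableEq ι] [Fintype κ] [DecidableEq κ]

/-- The form `G` modified by the vector `m`: `G - (G m*) (m G)`. -/
noncomputable def modif (G : Matrix ι ι (MonoidAlgebra ℤ Γ)) (m : Matrix (Fin 1) ι (MonoidAlgebra ℤ Γ)) :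
    Matrix ι ι (MonoidAlgebra ℤ Γ) := G - G * adj m * (m * G)

omit [DecidableEq ι] in
theorem adj_modif {G : Matrix ι ι (MonoidAlgebra ℤ Γ)} (hG : adj G = G)
    (m : Matrix (Fin 1) ι (MonoidAlgebra ℤ Γ)) : adj (modif G m) = modif G m := by
  unfold modif
  rw [adj_sub, adj_mul, adj_mul, adj_mul, adj_adj, hG, Matrix.mul_assoc]

theorem unit_modif {G : Matrix ι ι (MonoidAlgebra ℤ Γ)} (hu : IsUnit G)
    {m : Matrix (Fin 1) ι (MonoidAlgebra ℤ Γ)} (hm : m * G * adj m = 0) : IsUnit (modif G m) := by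
  obtain ⟨U, rfl⟩ := hu
  refine ⟨⟨modif U.val m, (U⁻¹).val + adj m * m, ?_, ?_⟩, rfl⟩
  · unfold modif
    rw [Matrix.sub_mul, Matrix.mul_add, Matrix.mul_add, U.mul_inv]
    have h1 : U.val * adj m * (m * U.val) * (U⁻¹).val = U.val * (adj m * m) := by
      calc U.val * adj m * (m * U.val) * (U⁻¹).val = U.val * (adj m * (m * (U.val * (U⁻¹).val))) := by
            simp only [Matrix.mul_assoc]
        _ = U.val * (adj m * m) := by rw [U.mul_inv, Matrix.mul_one]
    have h2 : U.val * adj m * (m * U.val) * (adj m * m) = 0 := by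
      calc U.val * adj m * (m * U.val) * (adj m * m) = U.val * adj m * ((m * U.val * adj m) * m) := by
            simp only [Matrix.mul_assoc]
        _ = 0 := by rw [hm]; simp
    rw [h1, h2]; abel
  · unfold modif
    rw [Matrix.mul_sub, Matrix.add_mul, Matrix.add_mul, U.inv_mul]
    have h1 : (U⁻¹).val * (U.val * adj m * (m * U.val)) = adj m * m * U.val := by
      calc (U⁻¹).val * (U.val * adj m * (m * U.val)) = ((U⁻¹).val * U.val) * adj m * m * U.val := by
            simp only [Matrix.mul_assoc]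
        _ = adj m * m * U.val := by rw [U.inv_mul, Matrix.one_mul]
    have h2 : adj m * m * (U.val * adj m * (m * U.val)) = 0 := by
      calc adj m * m * (U.val * adj m * (m * U.val)) = adj m * (m * U.val * adj m) * (m * U.val) := by
            simp only [Matrix.mul_assoc]
        _ = 0 := by rw [hm]; simp
    rw [h1, h2]; abel

omit [DecidableEq ι] in
/-- The entries of `m G` are in the ideal generated by two and the augmentation ideal. -/
theorem even_modif {G : Matrix ι ι (MonoidAlgebra ℤ Γ)} (hG : IsEvenForm G)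
    {m : Matrix (Fin 1) ι (MonoidAlgebra ℤ Γ)} (hm : ∀ i, Even (aug (m 0 i))) :
    IsEvenForm (modif G m) := by
  apply isEvenForm_of _ (adj_modif (adj_even G hG) m)
  intro i s hss
  have hJ : Even (aug ((m * G) 0 i)) := by
    rw [Matrix.mul_apply, map_sum]
    refine Finset.even_sum _ fun j _ => ?_
    rw [map_mul]; exact (hm j).mul_right _
  have h1 : modif G m i i = G i i - bar ((m * G) 0 i) * bar (bar ((m * G) 0 i)) := by
    unfold modif
    rw [Matrix.sub_apply, Matrix.mul_apply, Fin.sum_univ_one, bar_bar]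
    congr 2
    have h2 : adj (m * G) = G * adj m := by rw [adj_mul, adj_even G hG]
    rw [← h2, adj_apply]
  rw [h1, MonoidAlgebra.coeff_sub, Finsupp.sub_apply]
  refine (visible_of_even G hG i s hss).sub ?_
  by_cases hs1 : s = 1
  · subst hs1
    have h3 := norm_one (bar ((m * G) 0 i))
    rw [aug_bar] at h3
    have h4 := h3.sub hJ
    rwa [add_sub_cancel_right] at h4
  · exact norm_inv _ s hs1 hss

/-- Base change. -/
theorem modif_iso {G : Matrix ι ι (MonoidAlgebra ℤ Γ)} {G' : Matrix κ κ (MonoidAlgebra ℤ Γ)}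
    (T : Matrix ι κ (MonoidAlgebra ℤ Γ)) (T' : Matrix κ ι (MonoidAlgebra ℤ Γ)) (h1 : T * T' = 1)
    (h2 : T' * T = 1) (h3 : T * G' * adj T = G) (m : Matrix (Fin 1) ι (MonoidAlgebra ℤ Γ)) :
    Isometric (modif G' (m * T)) (modif G m) := by
  refine ⟨T, T', h1, h2, ?_⟩
  have h4 : T * (G' * (adj T * adj m) * (m * T * G')) * adj T = G * adj m * (m * G) := by
    calc T * (G' * (adj T * adj m) * (m * T * G')) * adj T =
        (T * G' * adj T) * adj m * (m * (T * G' * adj T)) := by simp only [Matrix.mul_assoc]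
      _ = G * adj m * (m * G) := by rw [h3]
  unfold modif
  rw [adj_mul, Matrix.mul_sub, Matrix.sub_mul, h3, h4]

/-- Modification by the sum of two orthogonal vectors. -/
theorem modif_add {G : Matrix ι ι (MonoidAlgebra ℤ Γ)} (hG : adj G = G)
    {m₁ m₂ : Matrix (Fin 1) ι (MonoidAlgebra ℤ Γ)} (h11 : m₁ * G * adj m₁ = 0)
    (h12 : m₁ * G * adj m₂ = 0) :
    Isometric (modif G (m₁ + m₂)) (G - G * adj m₁ * (m₁ * G) - G * adj m₂ * (m₂ * G)) := by
  have h21 : m₂ * G * adj m₁ = 0 := by
    have h := congrArg adj h12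
    rw [adj_mul, adj_mul, adj_adj, hG, adj_zero, ← Matrix.mul_assoc] at h
    exact h
  refine ⟨1 + G * adj m₂ * m₁, 1 - G * adj m₂ * m₁, ?_, ?_, ?_⟩
  · have h : G * adj m₂ * m₁ * (G * adj m₂ * m₁) = 0 := by
      calc G * adj m₂ * m₁ * (G * adj m₂ * m₁) = G * adj m₂ * (m₁ * G * adj m₂) * m₁ := by
            simp only [Matrix.mul_assoc]
        _ = 0 := by rw [h12]; simp
    rw [Matrix.add_mul, Matrix.mul_sub, Matrix.mul_sub, h]; simp
  · have h : G * adj m₂ * m₁ * (G * adj m₂ * m₁) = 0 := by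
      calc G * adj m₂ * m₁ * (G * adj m₂ * m₁) = G * adj m₂ * (m₁ * G * adj m₂) * m₁ := by
            simp only [Matrix.mul_assoc]
        _ = 0 := by rw [h12]; simp
    rw [Matrix.sub_mul, Matrix.mul_add, Matrix.mul_add, h]; simp
  · unfold modif
    have ha : adj (1 + G * adj m₂ * m₁) = 1 + adj m₁ * (m₂ * G) := by
      rw [adj_add, adj_one, adj_mul, adj_mul, adj_adj, hG]
    rw [ha, adj_add]
    set P := G * adj m₁ with hP
    set Q := G * adj m₂ with hQ
    have hmP : m₁ * P = 0 := by rw [hP, ← Matrix.mul_assoc]; exact h11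
    have hmQ : m₁ * Q = 0 := by rw [hQ, ← Matrix.mul_assoc]; exact h12
    have hnP : m₂ * P = 0 := by rw [hP, ← Matrix.mul_assoc]; exact h21
    have e1 : G * (adj m₁ + adj m₂) = P + Q := by rw [Matrix.mul_add]
    rw [e1, Matrix.add_mul m₁ m₂ G]
    -- (1 + Q m₁) (G - (P + Q) (m₁ G + m₂ G)) (1 + m₁* (m₂ G))
    have e2 : (1 + Q * m₁) * (G - (P + Q) * (m₁ * G + m₂ * G)) =
        G - (P + Q) * (m₁ * G + m₂ * G) + Q * (m₁ * G) := by
      rw [Matrix.add_mul, Matrix.one_mul, Matrix.mul_sub]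
      have : Q * m₁ * ((P + Q) * (m₁ * G + m₂ * G)) = 0 := by
        rw [Matrix.mul_assoc Q m₁, ← Matrix.mul_assoc m₁, Matrix.mul_add m₁, hmP, hmQ]
        simp
      rw [this, sub_zero, Matrix.mul_assoc Q m₁ G]
    rw [e2, Matrix.mul_add, Matrix.mul_one]
    have e3 : (G - (P + Q) * (m₁ * G + m₂ * G) + Q * (m₁ * G)) * (adj m₁ * (m₂ * G)) =
        P * (m₂ * G) := by
      have f1 : (m₁ * G) * (adj m₁ * (m₂ * G)) = 0 := by
        rw [← Matrix.mul_assoc, h11, Matrix.zero_mul]
      have f2 : (m₂ * G) * (adj m₁ * (m₂ * G)) = 0 := by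
        rw [← Matrix.mul_assoc, h21, Matrix.zero_mul]
      rw [Matrix.add_mul, Matrix.sub_mul, Matrix.mul_assoc (P + Q), Matrix.add_mul (m₁ * G), f1, f2,
        Matrix.mul_assoc Q, f1, ← Matrix.mul_assoc G]
      simp [hP]
    rw [e3, Matrix.add_mul, Matrix.mul_add, Matrix.mul_add]
    abel

end base

end Pool.Agent.H750
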