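import Pool.Agent.H750.K.Kappa

set_option autoImplicit false

/-! # The second homology group and the homomorphism to the L-group -/

namespace Pool.Agent.H750

open Matrix Pool.Agent.R791

variable {Γ : Type*} [Group Γ]

theorem HH2.exists_mk (x : HH2 Γ) : ∃ z hz, x = HH2.mk z hz := by
  induction x using QuotientAddGroup.induction_on with
  | H z => exact ⟨z.1, z.2, rfl⟩

theorem mem_ZZ2 {z : Γ × Γ →₀ ZMod 2} : z ∈ ZZ2 Γ ↔ dd Γ z = 0 := Iff.rfl

theorem dd3_single (x : Γ × Γ × Γ) (n : ZMod 2) : dd3 Γ (Finsupp.single x n) =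
    Finsupp.single (x.2.1, x.2.2) n - Finsupp.single (x.1 * x.2.1, x.2.2) n +
      Finsupp.single (x.1, x.2.1 * x.2.2) n - Finsupp.single (x.1, x.2.1) n := by
  unfold dd3
  rw [Finsupp.liftAddHom_apply_single]; rfl

/-- The sequence of differentials is a complex. -/
theorem dd_dd3 (y : Γ × Γ × Γ →₀ ZMod 2) : dd Γ (dd3 Γ y) = 0 := by
  induction y using Finsupp.induction_linear with
  | zero => simp
  | add a b ha hb => rw [map_add, map_add, ha, hb, add_zero]
  | single x n =>
    rw [dd3_single, map_sub, map_add, map_sub, dd_single, dd_single, dd_single, dd_single]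
    simp only [mul_assoc]
    abel

theorem theta_dd3 (y : Γ × Γ × Γ →₀ ZMod 2) : theta Γ (dd3 Γ y) = 0 := by
  induction y using Finsupp.induction_linear with
  | zero => simp
  | add a b ha hb => rw [map_add, map_add, ha, hb, add_zero]
  | single x n =>
    obtain ⟨k, rfl⟩ := ZMod.intCast_surjective n
    have h1 : dd3 Γ (Finsupp.single x ((k : ℤ) : ZMod 2)) =
        k • (Finsupp.single (x.2.1, x.2.2) (1 : ZMod 2) - Finsupp.single (x.1 * x.2.1, x.2.2) 1 +
          Finsupp.single (x.1, x.2.1 * x.2.2) 1 - Finsupp.single (x.1, x.2.1) 1) := by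
      rw [dd3_single]
      simp only [smul_sub, smul_add, Finsupp.smul_single]
      simp
    rw [h1, map_zsmul, map_sub, map_add, map_sub, theta_single, theta_single, theta_single,
      theta_single]
    have h2 := congrArg (QuotientAddGroup.mk (s := (dtwo Γ).range)) (EE_rel x.1 x.2.1 x.2.2)
    rw [QuotientAddGroup.mk_sub, QuotientAddGroup.mk_add, QuotientAddGroup.mk_sub] at h2
    rw [h2, QuotientAddGroup.mk_zero, smul_zero]

/-- The homomorphism on cycles. -/
noncomputable def kcy (Γ : Type*) [Group Γ] : ↥(ZZ2 Γ) →+ L0 Γ :=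
  AddMonoidHom.mk' (fun z => kchain z.1) (fun z z' => kchain_add (mem_ZZ2.mp z.2) (mem_ZZ2.mp z'.2))

/-- The homomorphism `κ` from `H_2(Γ; ℤ/2)` to `L_0^h(ℤΓ)`. -/
noncomputable def kap (Γ : Type*) [Group Γ] : HH2 Γ →+ L0 Γ :=
  QuotientAddGroup.lift ((BB2 Γ).addSubgroupOf (ZZ2 Γ)) (kcy Γ) (by
    rintro ⟨z, hz⟩ h
    obtain ⟨y, hy⟩ := h
    change dd3 Γ y = z at hy
    have h1 : theta Γ z = 0 := by rw [← hy]; exact theta_dd3 y
    change kchain z = 0
    rw [← cT_zero]
    exact kchain_eq (map_zero _) h1.symm)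

theorem kap_mk (z : Γ × Γ →₀ ZMod 2) (hz : z ∈ ZZ2 Γ) : kap Γ (HH2.mk z hz) = kchain z := rfl

end Pool.Agent.H750
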