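import Pool.Agent.H750.K.Good

set_option autoImplicit false
set_option linter.unusedSectionVars false
set_option linter.unusedSimpArgs false

/-! # Characteristic vectors -/

namespace Pool.Agent.H750

open Matrix Pool.Agent.R791

variable {Γ : Type*} [Group Γ] {ι κ μ ν : Type*}

/-- The augmentation modulo two. -/
noncomputable def ev (Γ : Type*) [Group Γ] : MonoidAlgebra ℤ Γ →+* ZMod 2 :=
  (Int.castRingHom (ZMod 2)).comp (aug : MonoidAlgebra ℤ Γ →ₐ[ℤ] ℤ).toRingHom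

theorem ev_apply (x : MonoidAlgebra ℤ Γ) : ev Γ x = ((aug x : ℤ) : ZMod 2) := rfl

theorem ev_eq_zero {x : MonoidAlgebra ℤ Γ} : ev Γ x = 0 ↔ x ∈ JJ Γ := by
  rw [ev_apply, ZMod.intCast_eq_zero_iff_even]; rfl

theorem ev_bar (x : MonoidAlgebra ℤ Γ) : ev Γ (bar x) = ev Γ x := by
  rw [ev_apply, ev_apply, aug_bar]

theorem adj_map (A : Matrix ι κ (MonoidAlgebra ℤ Γ)) : (adj A).map (ev Γ) = (A.map (ev Γ))ᵀ := by
  ext i j
  rw [Matrix.map_apply, adj_apply, ev_bar]; rfl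

theorem diag_conj [Fintype κ] [DecidableEq κ] (P : Matrix ι κ (ZMod 2)) {G : Matrix κ κ (ZMod 2)}
    (hG : Gᵀ = G) (i : ι) : (P * G * Pᵀ) i i = ∑ j, P i j * G j j := by
  have h1 : (P * G * Pᵀ) i i = ∑ l, ∑ k, P i k * G k l * P i l := by
    rw [Matrix.mul_apply]
    refine Finset.sum_congr rfl fun l _ => ?_
    rw [Matrix.mul_apply, Finset.sum_mul]; rfl
  have h2 : ∀ r : ZMod 2, r + r = 0 := by decide
  have h3 : ∀ x y : ZMod 2, x * y * x = x * y := by decide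
  have hs : ∀ k l, G k l = G l k := fun k l => by
    conv_lhs => rw [← hG]
    rfl
  rw [h1, sum_symm_two h2 (fun l k => P i k * G k l * P i l)]
  · exact Finset.sum_congr rfl fun j _ => h3 _ _
  · intro l k
    rw [hs k l]; ring

section reach

variable [Fintype ι] [DecidableEq ι] [Fintype κ] [DecidableEq κ]

theorem diag_plane {W : Matrix κ κ (MonoidAlgebra ℤ Γ)} (hW : IsEvenForm W) (j : κ ⊕ (Fin 1 ⊕ Fin 1)) :
    (osum W (mm Γ)).map (ev Γ) j j = (osum W (mm Γ)).map (ev Γ) j (Sum.inr (Sum.inl 0)) := by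
  have h2 : ∀ r : ZMod 2, r + r = 0 := by decide
  rw [Matrix.map_apply, Matrix.map_apply]
  rcases j with j | j | j
  · obtain ⟨ψ, rfl⟩ := hW
    change ev Γ ((ψ + adj ψ) j j) = ev Γ 0
    rw [Matrix.add_apply, adj_apply, map_add, ev_bar, h2, map_zero]
  · rw [Subsingleton.elim j 0]
  · rw [Subsingleton.elim j 0]
    change ev Γ ((-1 : Matrix (Fin 1) (Fin 1) (MonoidAlgebra ℤ Γ)) 0 0) =
      ev Γ ((1 : Matrix (Fin 1) (Fin 1) (MonoidAlgebra ℤ Γ)) 0 0)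
    rw [Matrix.neg_apply, Matrix.one_apply_eq, map_neg, map_one]
    decide

/-- The image of `u` is congruent to `u` modulo the ideal. -/
theorem Reach.mem {E : Matrix ι ι (MonoidAlgebra ℤ Γ)} {W : Matrix κ κ (MonoidAlgebra ℤ Γ)}
    (hE : IsEvenForm E) (hW : IsEvenForm W) (hWu : IsUnit W) {a : Matrix (Fin 1) κ (MonoidAlgebra ℤ Γ)}
    {α β : MonoidAlgebra ℤ Γ} (h : Reach E W a α β) :
    (∀ i, a 0 i ∈ JJ Γ) ∧ 1 - α ∈ JJ Γ ∧ β ∈ JJ Γ := by
  obtain ⟨P, Q, hPQ, hQP, hP, hu⟩ := h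
  set Pb : Matrix (ι ⊕ (Fin 1 ⊕ Fin 1)) (κ ⊕ (Fin 1 ⊕ Fin 1)) (ZMod 2) := P.map (ev Γ) with hPb
  set Qb : Matrix (κ ⊕ (Fin 1 ⊕ Fin 1)) (ι ⊕ (Fin 1 ⊕ Fin 1)) (ZMod 2) := Q.map (ev Γ) with hQb
  set G : Matrix (κ ⊕ (Fin 1 ⊕ Fin 1)) (κ ⊕ (Fin 1 ⊕ Fin 1)) (ZMod 2) :=
    (osum W (mm Γ)).map (ev Γ) with hG
  set G' : Matrix (ι ⊕ (Fin 1 ⊕ Fin 1)) (ι ⊕ (Fin 1 ⊕ Fin 1)) (ZMod 2) :=
    (osum E (mm Γ)).map (ev Γ) with hG'
  have hGs : Gᵀ = G := by
    rw [hG, ← adj_map, adj_osum (adj_even W hW) adj_mm]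
  have h1 : Pb * G * Pbᵀ = G' := by
    rw [hPb, hG, hG', ← adj_map, ← Matrix.map_mul, ← Matrix.map_mul, hP]
  have h2 : Qb * Pb = 1 := by
    rw [hPb, hQb, ← Matrix.map_mul, hQP, Matrix.map_one _ (map_zero _) (map_one _)]
  -- the inverse of `G`
  obtain ⟨L, hL⟩ : ∃ L : Matrix (κ ⊕ (Fin 1 ⊕ Fin 1)) (κ ⊕ (Fin 1 ⊕ Fin 1)) (ZMod 2), L * G = 1 := by
    obtain ⟨U, hU⟩ := unit_osum hWu (unit_mm (Γ := Γ))
    refine ⟨(U⁻¹).val.map (ev Γ), ?_⟩
    rw [hG, ← hU, ← Matrix.map_mul, U.inv_mul, Matrix.map_one _ (map_zero _) (map_one _)]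
  set u : κ ⊕ (Fin 1 ⊕ Fin 1) := Sum.inr (Sum.inl 0) with hu_def
  set u' : ι ⊕ (Fin 1 ⊕ Fin 1) := Sum.inr (Sum.inl 0) with hu'_def
  -- the comparison
  have h3 : ∀ i, ∑ j, Pb i j * G j u = ∑ j, (Pb * G) i j * Pb u' j := by
    intro i
    have h4 : ∑ j, Pb i j * G j u = ∑ j, Pb i j * G j j :=
      Finset.sum_congr rfl fun j _ => by rw [hG, diag_plane hW j]
    have h5 : (Pb * G * Pbᵀ) i i = (Pb * G * Pbᵀ) i u' := by
      rw [h1, hG']; exact diag_plane hE i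
    rw [h4, ← diag_conj Pb hGs i, h5, Matrix.mul_apply]
    rfl
  have h6 : ∀ i, ∑ j, (Pb * G) i j * (Pi.single (M := fun _ => ZMod 2) u 1 j - Pb u' j) = 0 := by
    intro i
    have h7 : ∑ j, (Pb * G) i j * Pi.single (M := fun _ => ZMod 2) u 1 j = (Pb * G) i u := by
      rw [Finset.sum_eq_single u]
      · rw [Pi.single_eq_same, mul_one]
      · intro j _ hj; rw [Pi.single_eq_of_ne hj, mul_zero]
      · intro h; exact absurd (Finset.mem_univ _) h
    simp only [mul_sub, Finset.sum_sub_distrib]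
    rw [h7, Matrix.mul_apply, h3 i, sub_self]
  have h8 : ∀ j, Pi.single (M := fun _ => ZMod 2) u 1 j = Pb u' j := by
    have h9 : (Pb * G) *ᵥ (fun j => Pi.single (M := fun _ => ZMod 2) u 1 j - Pb u' j) = 0 := by
      funext i; exact h6 i
    have h10 := congrArg (fun x => (L * Qb) *ᵥ x) h9
    simp only [Matrix.mulVec_mulVec, Matrix.mulVec_zero] at h10
    have h11 : L * Qb * (Pb * G) = 1 := by
      calc L * Qb * (Pb * G) = L * (Qb * Pb) * G := by simp only [Matrix.mul_assoc]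
        _ = 1 := by rw [h2, Matrix.mul_one, hL]
    rw [h11, Matrix.one_mulVec] at h10
    intro j
    exact sub_eq_zero.mp (congrFun h10 j)
  have h12 : ∀ j, Pb u' j = ev Γ (rv a α β 0 j) := by
    intro j
    rw [← hu, hPb, Matrix.map_apply]
    congr 1
    rw [Matrix.mul_apply, Fintype.sum_sum_type, Fintype.sum_sum_type]
    simp [rv, sc, hu'_def]
  have h13 : ∀ j, ev Γ (rv a α β 0 j) = Pi.single (M := fun _ => ZMod 2) u 1 j := fun j => by
    rw [← h12, h8]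
  refine ⟨fun i => ?_, ?_, ?_⟩
  · rw [← ev_eq_zero]
    have h := h13 (Sum.inl i)
    rw [hu_def, Pi.single_eq_of_ne (by simp)] at h
    exact h
  · rw [← ev_eq_zero, map_sub, map_one]
    have h := h13 (Sum.inr (Sum.inl 0))
    rw [hu_def, Pi.single_eq_same] at h
    have h' : ev Γ α = 1 := h
    rw [h', sub_self]
  · rw [← ev_eq_zero]
    have h := h13 (Sum.inr (Sum.inr 0))
    rw [hu_def, Pi.single_eq_of_ne (by simp)] at h
    exact h

/-- The classification of the even forms which become standard after adding the plane. -/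
theorem classify {E : Matrix ι ι (MonoidAlgebra ℤ Γ)} (hE : IsEvenForm E) {n : ℕ}
    (h : Isometric (osum (hyp Γ (Fin n)) (mm Γ)) (osum E (mm Γ))) :
    ∃ (k : ℕ) (f : Fin k → XX Γ), IsoF f ∧ StabH E (famForm f) := by
  obtain ⟨a, α, β, hr⟩ := exists_reach h
  have hm := hr.mem hE even_hyp unit_hyp
  have hg : Good E α β := by
    refine ⟨0, n, a, hr.left ?_⟩
    have h1 := Isometric.submatrix (osum E (hyp Γ (Fin 0))) (Equiv.sumEmpty ι (Fin 0 ⊕ Fin 0)).symm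
    refine Isometric.symm ?_
    convert h1 using 1
    ext1 x y
    rfl
  obtain ⟨k, n', m, hr'⟩ := hg.reduce hm.2.1 hm.2.2
  have hm' := hr'.mem (even_osum hE even_hyp) even_hyp unit_hyp
  obtain ⟨hiso, hmod⟩ := hr'.modif adj_hyp
  set f : Fin n' → XX Γ := fun i => (⟨m 0 (Sum.inl i), hm'.1 _⟩, ⟨m 0 (Sum.inr i), hm'.1 _⟩) with hf
  have hrow : row f = m := by
    ext1 x y
    rw [Subsingleton.elim x 0]
    rcases y with y | y <;> rfl
  refine ⟨n', f, ?_, k, 0, ?_⟩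
  · have h1 := row_sq f
    rw [hrow, hiso] at h1
    exact (congrFun (congrFun h1 0) 0).symm
  · have h2 : Isometric (osum E (hyp Γ (Fin k))) (famForm f) := by
      unfold famForm
      rw [hrow]; exact hmod.symm
    refine h2.trans ?_
    have h1 := Isometric.submatrix (osum (famForm f) (hyp Γ (Fin 0)))
      (Equiv.sumEmpty (Fin n' ⊕ Fin n') (Fin 0 ⊕ Fin 0)).symm
    refine Isometric.symm ?_
    convert h1 using 1
    ext1 x y
    rfl

end reach

end Pool.Agent.H750
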