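import Pool.Agent.H750.K.Kappa

set_option autoImplicit false

/-! # Every isotropic element of the tensor product comes from a cycle -/

namespace Pool.Agent.H750

open Matrix Pool.Agent.R791

variable {Γ : Type*} [Group Γ]

/-- generators of the ideal -/
theorem JJ_induct {P : ↥(JJ Γ) → Prop} (h0 : P 0) (hadd : ∀ x y, P x → P y → P (x + y))
    (hneg : ∀ x, P x → P (-x)) (h1 : ∀ g, P (gm g)) (h2 : P (two Γ)) (x : ↥(JJ Γ)) : P x := by
  have hz : ∀ (n : ℤ) (y : ↥(JJ Γ)), P y → P (n • y) := by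
    intro n y hy
    induction n using Int.induction_on with
    | zero => rwa [zero_smul]
    | succ n ih => rw [add_smul, one_smul]; exact hadd _ _ ih hy
    | pred n ih => rw [sub_smul, one_smul, sub_eq_add_neg]; exact hadd _ _ ih (hneg _ hy)
  -- the part in the augmentation ideal
  have key : ∀ z : MonoidAlgebra ℤ Γ, ∀ h : Even (aug (z - ((aug z : ℤ) : MonoidAlgebra ℤ Γ))),
      P ⟨z - ((aug z : ℤ) : MonoidAlgebra ℤ Γ), h⟩ := by
    intro z
    induction z using MonoidAlgebra.induction_linear with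
    | zero =>
      intro h
      convert h0 using 1
      apply Subtype.ext
      change (0 : MonoidAlgebra ℤ Γ) - ((aug 0 : ℤ) : MonoidAlgebra ℤ Γ) = 0
      simp
    | add a b ha hb =>
      intro h
      have ha' : Even (aug (a - ((aug a : ℤ) : MonoidAlgebra ℤ Γ))) := by
        rw [map_sub, aug_intCast, sub_self]; exact Even.zero
      have hb' : Even (aug (b - ((aug b : ℤ) : MonoidAlgebra ℤ Γ))) := by
        rw [map_sub, aug_intCast, sub_self]; exact Even.zero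
      convert hadd _ _ (ha ha') (hb hb') using 1
      apply Subtype.ext
      change a + b - ((aug (a + b) : ℤ) : MonoidAlgebra ℤ Γ) = (a - ((aug a : ℤ) : MonoidAlgebra ℤ Γ)) +
        (b - ((aug b : ℤ) : MonoidAlgebra ℤ Γ))
      rw [map_add]; push_cast; abel
    | single g r =>
      intro h
      convert hz r _ (h1 g) using 1
      apply Subtype.ext
      change MonoidAlgebra.single g r - ((aug (MonoidAlgebra.single g r) : ℤ) : MonoidAlgebra ℤ Γ) =
        r • (MonoidAlgebra.single g 1 - 1)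
      rw [aug_single, smul_sub]
      congr 1
      · simp
      · simp
  obtain ⟨k, hk⟩ := x.2
  have hx' : Even (aug ((x : MonoidAlgebra ℤ Γ) - ((aug (x : MonoidAlgebra ℤ Γ) : ℤ) : MonoidAlgebra ℤ Γ))) := by
    rw [map_sub, aug_intCast, sub_self]; exact Even.zero
  have h3 := hadd _ _ (key x hx') (hz k _ h2)
  convert h3 using 1
  apply Subtype.ext
  change (x : MonoidAlgebra ℤ Γ) = ((x : MonoidAlgebra ℤ Γ) - ((aug (x : MonoidAlgebra ℤ Γ) : ℤ) : MonoidAlgebra ℤ Γ)) +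
    k • (1 + 1)
  rw [hk, smul_add, zsmul_one]
  push_cast
  abel

theorem exists_thetaZ (x : TT Γ) : ∃ (n : Γ × Γ →₀ ℤ) (y : ↥(JJ Γ)), x = thetaZ Γ n + tb (two Γ) y := by
  induction x using TT.induct with
  | h0 => exact ⟨0, 0, by rw [map_zero, tb_zero_right, add_zero]⟩
  | hadd a b ha hb =>
    obtain ⟨n, y, rfl⟩ := ha
    obtain ⟨n', y', rfl⟩ := hb
    exact ⟨n + n', y + y', by rw [map_add, tb_add_right]; abel⟩
  | h1 p q =>
    have hneg : ∀ a b : ↥(JJ Γ), (∃ (n : Γ × Γ →₀ ℤ) (y : ↥(JJ Γ)), tb a b = thetaZ Γ n + tb (two Γ) y) →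
        ∃ (n : Γ × Γ →₀ ℤ) (y : ↥(JJ Γ)), tb (-a) b = thetaZ Γ n + tb (two Γ) y := by
      rintro a b ⟨n, y, h⟩
      exact ⟨-n, -y, by rw [tb_neg_left, h, map_neg, tb_neg_right]; abel⟩
    have hadd : ∀ a a' b : ↥(JJ Γ), (∃ (n : Γ × Γ →₀ ℤ) (y : ↥(JJ Γ)), tb a b = thetaZ Γ n + tb (two Γ) y) →
        (∃ (n : Γ × Γ →₀ ℤ) (y : ↥(JJ Γ)), tb a' b = thetaZ Γ n + tb (two Γ) y) →
        ∃ (n : Γ × Γ →₀ ℤ) (y : ↥(JJ Γ)), tb (a + a') b = thetaZ Γ n + tb (two Γ) y := by
      rintro a a' b ⟨n, y, h⟩ ⟨n', y', h'⟩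
      exact ⟨n + n', y + y', by rw [tb_add_left, h, h', map_add, tb_add_right]; abel⟩
    refine JJ_induct (P := fun p => ∃ (n : Γ × Γ →₀ ℤ) (y : ↥(JJ Γ)), tb p q = thetaZ Γ n + tb (two Γ) y)
      ⟨0, 0, by rw [map_zero, tb_zero_right, add_zero, tb_zero_left]⟩ (fun x y hx hy => hadd x y q hx hy)
      (fun x hx => hneg x q hx) ?_ ⟨0, q, by rw [map_zero, zero_add]⟩ p
    intro g
    refine JJ_induct (P := fun q => ∃ (n : Γ × Γ →₀ ℤ) (y : ↥(JJ Γ)), tb (gm g) q = thetaZ Γ n + tb (two Γ) y)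
      ⟨0, 0, by rw [map_zero, tb_zero_right, zero_add, tb_zero_right]⟩
      (fun x y hx hy => ?_) (fun x hx => ?_) ?_ ⟨0, gm g, by rw [map_zero, zero_add, tb_swap]⟩ q
    · rw [tb_swap] at hx hy ⊢
      exact hadd x y _ hx hy
    · rw [tb_swap] at hx ⊢
      exact hneg x _ hx
    · intro h
      refine ⟨Finsupp.single (g, h⁻¹) 1, 0, ?_⟩
      rw [thetaZ_single, one_smul, tb_zero_right, add_zero]
      unfold EE
      simp only [inv_inv]

/-- The sum of the elements `(g - 1) ⊗ (g + 1)`. -/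
noncomputable def tauZ (Γ : Type*) [Group Γ] : (Γ →₀ ℤ) →+ TT Γ :=
  Finsupp.liftAddHom fun g => zmultiplesHom _ (tb (gm g) (gp g))

theorem tauZ_single (g : Γ) (n : ℤ) : tauZ Γ (Finsupp.single g n) = n • tb (gm g) (gp g) := by
  unfold tauZ
  rw [Finsupp.liftAddHom_apply_single]; rfl

theorem sT_tauZ (t : Γ →₀ ℤ) : sT Γ (tauZ Γ t) = 0 := by
  induction t using Finsupp.induction_linear with
  | zero => simp
  | add a b ha hb => rw [map_add, map_add, ha, hb, add_zero]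
  | single g n => rw [tauZ_single, map_zsmul, sT_tau, smul_zero]

theorem cT_zsmul {x : TT Γ} (hx : sT Γ x = 0) (n : ℤ) : cT (n • x) = n • cT x :=
  map_zsmul (cK Γ) n (⟨x, hx⟩ : (sT Γ).ker)

theorem cT_tauZ (t : Γ →₀ ℤ) : cT (tauZ Γ t) = 0 := by
  induction t using Finsupp.induction_linear with
  | zero => rw [map_zero, cT_zero]
  | add a b ha hb => rw [map_add, cT_add (sT_tauZ a) (sT_tauZ b), ha, hb, add_zero]
  | single g n => rw [tauZ_single, cT_zsmul (sT_tau g), cT_tau, smul_zero]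

/-- the chain `∑ t_g (g, g⁻¹)` -/
noncomputable def diagZ (Γ : Type*) [Group Γ] : (Γ →₀ ℤ) →+ (Γ × Γ →₀ ℤ) :=
  Finsupp.liftAddHom fun g => Finsupp.singleAddHom (g, g⁻¹)

theorem diagZ_single (g : Γ) (n : ℤ) : diagZ Γ (Finsupp.single g n) = Finsupp.single (g, g⁻¹) n := by
  unfold diagZ
  rw [Finsupp.liftAddHom_apply_single]; rfl

/-- the element `∑ t_g (g - 1)` -/
noncomputable def redu (t : MonoidAlgebra ℤ Γ) : ↥(JJ Γ) :=
  ⟨t - ((aug t : ℤ) : MonoidAlgebra ℤ Γ), by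
    rw [mem_JJ, map_sub, aug_intCast, sub_self]; exact Even.zero⟩

theorem redu_add (s t : MonoidAlgebra ℤ Γ) : redu (s + t) = redu s + redu t := Subtype.ext (by
  change s + t - ((aug (s + t) : ℤ) : MonoidAlgebra ℤ Γ) = (s - ((aug s : ℤ) : MonoidAlgebra ℤ Γ)) +
        (t - ((aug t : ℤ) : MonoidAlgebra ℤ Γ))
  rw [map_add]; push_cast; abel)

theorem redu_single (g : Γ) (r : ℤ) : redu (MonoidAlgebra.single g r) = r • gm g := Subtype.ext (by
  change MonoidAlgebra.single g r - ((aug (MonoidAlgebra.single g r) : ℤ) : MonoidAlgebra ℤ Γ) =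
        r • (MonoidAlgebra.single g 1 - 1)
  rw [aug_single, smul_sub]
  congr 1
  · simp
  · simp)

theorem thetaZ_diagZ (t : Γ →₀ ℤ) :
    thetaZ Γ (diagZ Γ t) = tauZ Γ t - tb (two Γ) (redu (MonoidAlgebra.ofCoeff t)) := by
  induction t using Finsupp.induction_linear with
  | zero =>
    have h : redu (MonoidAlgebra.ofCoeff (0 : Γ →₀ ℤ)) = 0 := Subtype.ext (by
      change MonoidAlgebra.ofCoeff (0 : Γ →₀ ℤ) - ((aug (MonoidAlgebra.ofCoeff (0 : Γ →₀ ℤ)) : ℤ) : MonoidAlgebra ℤ Γ) = 0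
      simp)
    rw [map_zero, map_zero, map_zero, h, tb_zero_right, sub_zero]
  | add a b ha hb =>
    rw [map_add, map_add, ha, hb, map_add, MonoidAlgebra.ofCoeff_add, redu_add, tb_add_right]
    abel
  | single g n =>
    have h1 : redu (MonoidAlgebra.ofCoeff (Finsupp.single g n)) = n • gm g := redu_single g n
    have h2 : tb (two Γ) (n • gm g) = n • tb (two Γ) (gm g) := map_zsmul (dtwo Γ) n (gm g)
    have h3 : gm g = gp g - two Γ := Subtype.ext (by
      change (MonoidAlgebra.single g 1 - 1 : MonoidAlgebra ℤ Γ) = MonoidAlgebra.single g 1 + 1 - (1 + 1)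
      abel)
    have h4 : EE (g, g⁻¹) = tb (gm g) (gp g) - tb (two Γ) (gm g) := by
      unfold EE
      simp only [inv_inv]
      conv_lhs => rw [show tb (gm g) (gm g) = tb (gm g) (gp g - two Γ) by rw [← h3]]
      rw [tb_sub_right, tb_swap (gm g) (two Γ)]
    rw [diagZ_single, thetaZ_single, tauZ_single, h1, h2, h4, smul_sub]

theorem pz_diagZ (t : Γ →₀ ℤ) : pz Γ (diagZ Γ t) =
    (((aug (MonoidAlgebra.ofCoeff t)) + (aug (MonoidAlgebra.ofCoeff t)) : ℤ) : MonoidAlgebra ℤ Γ) -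
      (MonoidAlgebra.ofCoeff t + bar (MonoidAlgebra.ofCoeff t)) := by
  induction t using Finsupp.induction_linear with
  | zero => simp
  | add a b ha hb =>
    rw [map_add, map_add, ha, hb, MonoidAlgebra.ofCoeff_add, map_add, bar_add]
    push_cast
    abel
  | single g n =>
    have h1 : (MonoidAlgebra.ofCoeff (Finsupp.single g n) : MonoidAlgebra ℤ Γ) = n • MonoidAlgebra.single g 1 := by
      rw [MonoidAlgebra.ofCoeff_single]
      simp
    have h2 : ((gm g : ↥(JJ Γ)) : MonoidAlgebra ℤ Γ) * ((gm g⁻¹ : ↥(JJ Γ)) : MonoidAlgebra ℤ Γ) =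
        1 + 1 - (MonoidAlgebra.single g 1 + MonoidAlgebra.single g⁻¹ 1) := by
      change (MonoidAlgebra.single g 1 - 1) * (MonoidAlgebra.single g⁻¹ 1 - 1) = _
      rw [sub_mul, mul_sub, mul_sub, MonoidAlgebra.single_mul_single, mul_inv_cancel, one_mul, mul_one,
        mul_one, one_mul, ← MonoidAlgebra.one_def]
      abel
    rw [diagZ_single, pz_single, h1, bar_zsmul, bar_single, map_zsmul, aug_single]
    simp only [h2, smul_sub, smul_add]
    simp

theorem gm_one : gm (1 : Γ) = 0 := Subtype.ext (by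
  change MonoidAlgebra.single (1 : Γ) (1 : ℤ) - 1 = 0
  rw [← MonoidAlgebra.one_def, sub_self])

theorem EE_one : EE ((1, 1) : Γ × Γ) = 0 := by
  unfold EE
  simp only [gm_one, tb_zero_left]

/-- Every isotropic element of the tensor product has the class of a lift of a cycle. -/
theorem exists_cycle {x : TT Γ} (hx : sT Γ x = 0) :
    ∃ (n : Γ × Γ →₀ ℤ) (w : ↥(JJ Γ)), IsLift n w ∧ dd Γ (red _ n) = 0 ∧ cT x = cT (lft n w) := by
  obtain ⟨n, y, rfl⟩ := exists_thetaZ x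
  have h1 : bar (pz Γ n + (bar (y : MonoidAlgebra ℤ Γ) + bar (y : MonoidAlgebra ℤ Γ))) =
      -(pz Γ n + (bar (y : MonoidAlgebra ℤ Γ) + bar (y : MonoidAlgebra ℤ Γ))) := by
    have h2 := hx
    rw [map_add, sT_thetaZ, sT_two] at h2
    rw [bar_add, bar_add, bar_bar, eq_neg_iff_add_eq_zero, ← h2]
    abel
  obtain ⟨t, ht⟩ := halve_skew _ h1
  set τ : ℤ := aug t with hτ
  -- the correction
  set w : ↥(JJ Γ) := jbar y + jbar (redu t) with hw
  have hwv : (w : MonoidAlgebra ℤ Γ) = bar (y : MonoidAlgebra ℤ Γ) + (bar t - ((τ : ℤ) : MonoidAlgebra ℤ Γ)) := by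
    change bar (y : MonoidAlgebra ℤ Γ) + bar (t - ((τ : ℤ) : MonoidAlgebra ℤ Γ)) = _
    rw [sub_eq_add_neg, bar_add, bar_neg', bar_intCast, ← sub_eq_add_neg]
  set n₁ := n + diagZ Γ t.coeff with hn₁
  set n₂ := n₁ - Finsupp.single ((1, 1) : Γ × Γ) (tot _ n₁) with hn₂
  have htc : (MonoidAlgebra.ofCoeff t.coeff : MonoidAlgebra ℤ Γ) = t := rfl
  have hp1 : pz Γ n₁ + ((w : MonoidAlgebra ℤ Γ) + (w : MonoidAlgebra ℤ Γ)) = 0 := by
    have h3 : pz Γ n = t - bar t - (bar (y : MonoidAlgebra ℤ Γ) + bar (y : MonoidAlgebra ℤ Γ)) := by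
      rw [← ht]; abel
    rw [hn₁, map_add, pz_diagZ, htc, h3, hwv]
    push_cast
    abel
  have hp2 : pz Γ (Finsupp.single ((1, 1) : Γ × Γ) (tot _ n₁)) = 0 := by
    rw [pz_single]
    simp [gm_one]
  have hl : IsLift n₂ w := by
    unfold IsLift
    rw [hn₂, map_sub, hp2, sub_zero]; exact hp1
  refine ⟨n₂, w, hl, ?_, ?_⟩
  · rw [dd_red]
    have h4 : ddZ Γ n₂ = (w : MonoidAlgebra ℤ Γ).coeff + (w : MonoidAlgebra ℤ Γ).coeff := by
      have h5 := pz_coeff n₂
      have h6 : pz Γ n₂ = -((w : MonoidAlgebra ℤ Γ) + (w : MonoidAlgebra ℤ Γ)) :=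
        eq_neg_of_add_eq_zero_left hl
      have h7 : tot _ n₂ = 0 := by
        rw [hn₂, map_sub, tot_single, sub_self]
      rw [h6, h7, Finsupp.single_zero, add_zero, MonoidAlgebra.coeff_neg, MonoidAlgebra.coeff_add,
        neg_inj] at h5
      exact h5.symm
    rw [h4, map_add]
    ext g
    have h8 : ∀ r : ZMod 2, r + r = 0 := by decide
    rw [Finsupp.add_apply, h8]; rfl
  · have h5 : lft n₂ w = (thetaZ Γ n + tb (two Γ) y) + tauZ Γ t.coeff := by
      have h6 : jbar w = y + redu t := Subtype.ext (by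
        change bar (bar (y : MonoidAlgebra ℤ Γ) + bar (redu t : MonoidAlgebra ℤ Γ)) =
          (y : MonoidAlgebra ℤ Γ) + (redu t : MonoidAlgebra ℤ Γ)
        rw [bar_add, bar_bar, bar_bar])
      unfold lft
      rw [hn₂, map_sub, thetaZ_single, EE_one, smul_zero, sub_zero, hn₁, map_add, thetaZ_diagZ, h6,
        tb_add_right, htc]
      abel
    rw [h5, cT_add hx (sT_tauZ _), cT_tauZ, add_zero]

end Pool.Agent.H750
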