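import Pool.Agent.H750.K.Groups

set_option autoImplicit false

/-! # The definitions of the homology group and of the formula -/

namespace Pool.Agent.H750

open Matrix Pool.Agent.R791

/-- the differential modulo two -/
noncomputable def dd (Γ : Type*) [Group Γ] : (Γ × Γ →₀ ZMod 2) →+ (Γ →₀ ZMod 2) :=
  Finsupp.liftAddHom fun x => Finsupp.singleAddHom x.2 - Finsupp.singleAddHom (x.1 * x.2) +
    Finsupp.singleAddHom x.1

variable (Γ : Type*) [Group Γ]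

/-- The third differential of the bar complex modulo two. -/
noncomputable def dd3 : (Γ × Γ × Γ →₀ ZMod 2) →+ (Γ × Γ →₀ ZMod 2) :=
  Finsupp.liftAddHom fun x => Finsupp.singleAddHom (x.2.1, x.2.2) -
    Finsupp.singleAddHom (x.1 * x.2.1, x.2.2) + Finsupp.singleAddHom (x.1, x.2.1 * x.2.2) -
      Finsupp.singleAddHom (x.1, x.2.1)

/-- The second differential of the bar complex modulo two. -/
noncomputable def bdTwo (z : Γ × Γ →₀ ZMod 2) : Γ →₀ ZMod 2 :=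
  z.sum fun x a => Finsupp.single x.2 a - Finsupp.single (x.1 * x.2) a + Finsupp.single x.1 a

/-- The third differential of the bar complex modulo two. -/
noncomputable def bdThree (y : Γ × Γ × Γ →₀ ZMod 2) : Γ × Γ →₀ ZMod 2 :=
  y.sum fun x a => Finsupp.single (x.2.1, x.2.2) a - Finsupp.single (x.1 * x.2.1, x.2.2) a +
    Finsupp.single (x.1, x.2.1 * x.2.2) a - Finsupp.single (x.1, x.2.1) a

theorem bdTwo_eq (z : Γ × Γ →₀ ZMod 2) : bdTwo Γ z = dd Γ z := rfl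

theorem bdThree_eq (y : Γ × Γ × Γ →₀ ZMod 2) : bdThree Γ y = dd3 Γ y := rfl

variable {Γ} in
theorem bdTwo_zero : bdTwo Γ 0 = 0 := map_zero (dd Γ)

variable {Γ} in
theorem bdThree_zero : ∃ y, bdThree Γ y = 0 := ⟨0, map_zero (dd3 Γ)⟩

variable {Γ} in
theorem bdThree_add {a b : Γ × Γ →₀ ZMod 2} (ha : ∃ y, bdThree Γ y = a) (hb : ∃ y, bdThree Γ y = b) :
    ∃ y, bdThree Γ y = a + b := by
  obtain ⟨y, rfl⟩ := ha
  obtain ⟨y', rfl⟩ := hb
  exact ⟨y + y', map_add (dd3 Γ) y y'⟩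

variable {Γ} in
theorem bdThree_neg {a : Γ × Γ →₀ ZMod 2} (ha : ∃ y, bdThree Γ y = a) : ∃ y, bdThree Γ y = -a := by
  obtain ⟨y, rfl⟩ := ha
  exact ⟨-y, map_neg (dd3 Γ) y⟩

variable {Γ} in
theorem bdTwo_add {a b : Γ × Γ →₀ ZMod 2} (ha : bdTwo Γ a = 0) (hb : bdTwo Γ b = 0) :
    bdTwo Γ (a + b) = 0 := by
  rw [bdTwo_eq] at ha hb ⊢
  rw [map_add, ha, hb, add_zero]

variable {Γ} in
theorem bdTwo_neg {a : Γ × Γ →₀ ZMod 2} (ha : bdTwo Γ a = 0) : bdTwo Γ (-a) = 0 := by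
  rw [bdTwo_eq] at ha ⊢
  rw [map_neg, ha, neg_zero]

/-- Chains modulo two. -/
def Ch (α : Type*) : Type _ := α →₀ ZMod 2

noncomputable instance (α : Type*) : AddCommGroup (Ch α) := Finsupp.instAddCommGroup

/-- The cycles of degree two of the bar complex modulo two. -/
noncomputable def ZZ2 : AddSubgroup (Ch (Γ × Γ)) where
  carrier := {z | bdTwo Γ z = 0}
  zero_mem' := bdTwo_zero
  add_mem' := fun ha hb => bdTwo_add ha hb
  neg_mem' := fun ha => bdTwo_neg ha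

/-- The boundaries of degree two. -/
noncomputable def BB2 : AddSubgroup (Ch (Γ × Γ)) where
  carrier := {z | ∃ y, bdThree Γ y = z}
  zero_mem' := bdThree_zero
  add_mem' := fun ha hb => bdThree_add ha hb
  neg_mem' := fun ha => bdThree_neg ha

/-- The second homology group `H_2(Γ; ℤ/2)`, computed with the bar complex. -/
def HH2 : Type _ := ↥(ZZ2 Γ) ⧸ (BB2 Γ).addSubgroupOf (ZZ2 Γ)

noncomputable instance : AddCommGroup (HH2 Γ) :=
  QuotientAddGroup.Quotient.addCommGroup ((BB2 Γ).addSubgroupOf (ZZ2 Γ))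

variable {Γ}

/-- The homology class of a cycle. -/
noncomputable def HH2.mk (z : Γ × Γ →₀ ZMod 2) (hz : z ∈ ZZ2 Γ) : HH2 Γ :=
  QuotientAddGroup.mk (s := (BB2 Γ).addSubgroupOf (ZZ2 Γ)) ⟨z, hz⟩

/-- The mod 2 chain `∑ (g i, h i)`. -/
noncomputable def chainOf {n : ℕ} (g h : Fin n → Γ) : Γ × Γ →₀ ZMod 2 :=
  ∑ i, Finsupp.single (g i, h i) 1

/-- The row vector `(g i - 1, ..., 2 ; (h i)⁻¹ - 1, ..., w*)`. -/
noncomputable def krow {n : ℕ} (g h : Fin n → Γ) (w : MonoidAlgebra ℤ Γ) :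
    Matrix (Fin 1) ((Fin n ⊕ Fin 1) ⊕ (Fin n ⊕ Fin 1)) (MonoidAlgebra ℤ Γ) :=
  Matrix.of fun _ => Sum.elim
    (Sum.elim (fun i => MonoidAlgebra.single (g i) 1 - 1) (fun _ => 2))
    (Sum.elim (fun i => MonoidAlgebra.single (h i)⁻¹ 1 - 1) (fun _ => bar w))

/-- The form `H - (H v*) (v H)` of the row vector `v`, where `H` is the hyperbolic form. -/
noncomputable def kform {n : ℕ} (g h : Fin n → Γ) (w : MonoidAlgebra ℤ Γ) :
    Matrix ((Fin n ⊕ Fin 1) ⊕ (Fin n ⊕ Fin 1)) ((Fin n ⊕ Fin 1) ⊕ (Fin n ⊕ Fin 1)) (MonoidAlgebra ℤ Γ) :=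
  hyp Γ (Fin n ⊕ Fin 1) - hyp Γ (Fin n ⊕ Fin 1) * adj (krow g h w) * (krow g h w * hyp Γ (Fin n ⊕ Fin 1))

/-- The element `w` corrects the pair of families: `∑ (g i - 1) (h i - 1) + 2 w = 0`. -/
def Corr {n : ℕ} (g h : Fin n → Γ) (w : MonoidAlgebra ℤ Γ) : Prop :=
  (∑ i, (MonoidAlgebra.single (g i) 1 - 1 : MonoidAlgebra ℤ Γ) * (MonoidAlgebra.single (h i) 1 - 1)) +
    (w + w) = 0

end Pool.Agent.H750
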