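import Pool.Agent.H750.K.CharVec
import Pool.Agent.H750.K.BarH
import Pool.Agent.Results.MP_98022b_gt.VisibleSymmetricForms

set_option autoImplicit false
set_option linter.unusedSectionVars false
set_option linter.unusedSimpArgs false

/-! # Exactness -/

namespace Pool.Agent.H750

open Matrix Pool.Agent.R791

section general

variable {Γ : Type*} [Group Γ] {ι κ μ ν : Type*}

/-! ### the classes of families are trivial as symmetric forms -/

section fam

variable [Fintype ι] [DecidableEq ι] [Fintype κ] [DecidableEq κ]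

theorem stabM_famForm {n : ℕ} {f : Fin n → XX Γ} (h : IsoF f) (Z : Matrix (Fin 0) (Fin 0) (MonoidAlgebra ℤ Γ)) :
    StabM (famForm f) Z := by
  obtain ⟨P, Q, h1, h2, h3, -⟩ := modif_plane adj_hyp (row f) h.eq
  have h4 : Isometric (osum (hyp Γ (Fin n)) (mm Γ)) (osum (famForm f) (mm Γ)) := ⟨P, Q, h1, h2, h3⟩
  have hv : adj (-1 : Matrix (Fin 1) (Fin 1) (MonoidAlgebra ℤ Γ)) = -1 ∧
      Visible (-1 : Matrix (Fin 1) (Fin 1) (MonoidAlgebra ℤ Γ)) := by
    refine ⟨by rw [adj_neg, adj_one], visible_neg ?_⟩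
    intro i s hs _
    rw [Matrix.one_apply_eq, MonoidAlgebra.one_def, MonoidAlgebra.coeff_single, Finsupp.single_eq_of_ne hs]
    exact Even.zero
  have hz : adj (0 : Matrix (Fin n) (Fin n) (MonoidAlgebra ℤ Γ)) = 0 ∧
      Visible (0 : Matrix (Fin n) (Fin n) (MonoidAlgebra ℤ Γ)) := ⟨adj_zero, fun i s _ _ => Even.zero⟩
  obtain ⟨U, hU, hU'⟩ := visible_sum hz hv
  exact ⟨1, n + 1, -1, U, hv, hU, h4.symm.trans (hU'.trans (iso_zero (met U) Z).symm)⟩

theorem symmetrisation_clf {n : ℕ} (f : Fin n → XX Γ) : symmetrisation Γ (clf f) = 0 := by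
  by_cases h : IsoF f
  · rw [clf_eq h, symmetrisation_cls, ← Wv.cls_zero (0 : Matrix (Fin 0) (Fin 0) (MonoidAlgebra ℤ Γ))
      adj_zero (fun i => i.elim0) ⟨1, Subsingleton.elim _ _⟩]
    exact Wv.cls_eq_iff.mpr (stabM_famForm h _)
  · unfold clf
    rw [dif_neg h, map_zero]

theorem symmetrisation_cT (x : TT Γ) : symmetrisation Γ (cT x) = 0 := by
  obtain ⟨l, rfl⟩ := mkT_surj x
  rw [cT_mk]
  exact symmetrisation_clf _

/-- Metabolic forms become hyperbolic after adding the plane. -/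
theorem met_mm {n : ℕ} {S : Matrix (Fin n) (Fin n) (MonoidAlgebra ℤ Γ)} (hS : adj S = S) (hv : Visible S) :
    Isometric (osum (met S) (mm Γ)) (osum (hyp Γ (Fin n)) (mm Γ)) := by
  have h1 := iso_met_pm S hS hv
  have h2 : Isometric (osum (hyp Γ (Fin n)) (pm Γ (Fin 1))) (osum (pm Γ (Fin n)) (pm Γ (Fin 1))) := by
    rw [hyp_eq_met]
    exact iso_met_pm 0 adj_zero (fun i s _ _ => Even.zero)
  have h3 := ((Isometric.refl (met S)).osum (iso_mm_pm (Γ := Γ))).trans (h1.trans h2.symm)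
  exact h3.trans ((Isometric.refl (hyp Γ (Fin n))).osum (iso_mm_pm (Γ := Γ)).symm)

/-- The kernel of the symmetrisation consists of the classes of families. -/
theorem exists_family {x : L0 Γ} (hx : symmetrisation Γ x = 0) :
    ∃ (k : ℕ) (f : Fin k → XX Γ), IsoF f ∧ x = clf f := by
  obtain ⟨n, A, he, hu, rfl⟩ := L0.exists_cls x
  rw [symmetrisation_cls, ← Wv.cls_zero (0 : Matrix (Fin 0) (Fin 0) (MonoidAlgebra ℤ Γ))
      adj_zero (fun i => i.elim0) ⟨1, Subsingleton.elim _ _⟩] at hx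
  obtain ⟨a, b, S, T, hS, hT, h⟩ := Wv.cls_eq_iff.mp hx
  have h1 : Isometric (osum A (met S)) (met T) := h.trans (iso_zero (met T) 0)
  have h2 : Isometric (osum (hyp Γ (Fin b)) (mm Γ)) (osum (osum A (hyp Γ (Fin a))) (mm Γ)) := by
    refine (met_mm hT.1 hT.2).symm.trans ?_
    refine (h1.symm.osum (Isometric.refl (mm Γ))).trans ?_
    refine (iso_assoc _ _ _).trans ?_
    refine ((Isometric.refl A).osum (met_mm hS.1 hS.2)).trans ?_
    exact (iso_assoc _ _ _).symm
  obtain ⟨k, f, hf, hst⟩ := classify (even_osum he even_hyp) h2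
  refine ⟨k, f, hf, ?_⟩
  rw [clf_eq hf, ← add_zero (L0.cls A he hu), ← L0.cls_hyp (Γ := Γ) (ι := Fin a), ← L0.cls_osum]
  exact L0.cls_eq_iff.mpr hst

theorem sT_family {n : ℕ} (f : Fin n → XX Γ) : sT Γ (∑ i, tb (f i).1 (f i).2) = ∑ i, sv (f i) := by
  rw [map_sum]
  exact Finset.sum_congr rfl fun i _ => sT_tb _ _

end fam

end general

/-! ### exactness at the L-group -/

section kappa

variable {Γ : Type*} [Group Γ]

theorem kappa_lift {n : Γ × Γ →₀ ℤ} {w : ↥(JJ Γ)} (h : IsLift n w) (hz : red _ n ∈ ZZ2 Γ) :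
    kap Γ (HH2.mk (red _ n) hz) = cT (lft n w) := by
  rw [kap_mk]
  exact kchain_lift h

theorem symmetrisation_kappa (x : HH2 Γ) : symmetrisation Γ (kap Γ x) = 0 := by
  obtain ⟨z, hz, rfl⟩ := x.exists_mk
  rw [kap_mk]
  unfold kchain
  split_ifs with h
  · exact symmetrisation_cT _
  · rw [map_zero]

theorem exists_kappa {x : L0 Γ} (hx : symmetrisation Γ x = 0) : ∃ y, kap Γ y = x := by
  obtain ⟨k, f, hf, rfl⟩ := exists_family hx
  rw [clf_eq_cT]
  have h1 : sT Γ (∑ i, tb (f i).1 (f i).2) = 0 := by rw [sT_family]; exact hf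
  obtain ⟨n, w, hl, hd, hc⟩ := exists_cycle h1
  exact ⟨HH2.mk (red _ n) (mem_ZZ2.mpr hd), by rw [kappa_lift hl, hc]⟩

theorem range_kappa : (kap Γ).range = (symmetrisation Γ).ker := by
  ext x
  rw [AddMonoidHom.mem_range, AddMonoidHom.mem_ker]
  constructor
  · rintro ⟨y, rfl⟩; exact symmetrisation_kappa y
  · exact exists_kappa

end kappa

end Pool.Agent.H750
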