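import Pool.Agent.H750.K.BForm

set_option autoImplicit false

/-! # Classes of families of pairs -/

namespace Pool.Agent.H750

open Matrix Pool.Agent.R791

variable {Γ : Type*} [Group Γ] {ι κ μ ν : Type*}

/-- The ideal generated by two and the augmentation ideal. -/
noncomputable def JJ (Γ : Type*) [Group Γ] : AddSubgroup (MonoidAlgebra ℤ Γ) where
  carrier := {x | Even (aug x)}
  zero_mem' := by simp
  add_mem' := by
    intro a b ha hb
    simp only [Set.mem_ofPred_eq] at *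
    rw [map_add]; exact ha.add hb
  neg_mem' := by
    intro a ha
    simp only [Set.mem_ofPred_eq] at *
    rw [map_neg]; exact ha.neg

theorem mem_JJ {x : MonoidAlgebra ℤ Γ} : x ∈ JJ Γ ↔ Even (aug x) := Iff.rfl

/-- Pairs of elements of the ideal. -/
abbrev XX (Γ : Type*) [Group Γ] := ↥(JJ Γ) × ↥(JJ Γ)

/-- The square of the vector `p e + q f` in the hyperbolic plane. -/
noncomputable def sv (x : XX Γ) : MonoidAlgebra ℤ Γ :=
  (x.1 : MonoidAlgebra ℤ Γ) * bar (x.2 : MonoidAlgebra ℤ Γ) +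
    (x.2 : MonoidAlgebra ℤ Γ) * bar (x.1 : MonoidAlgebra ℤ Γ)

/-- The vector of a family. -/
def row (f : ι → XX Γ) : Matrix (Fin 1) (ι ⊕ ι) (MonoidAlgebra ℤ Γ) :=
  Matrix.of fun _ => Sum.elim (fun i => ((f i).1 : MonoidAlgebra ℤ Γ)) (fun i => ((f i).2 : MonoidAlgebra ℤ Γ))

theorem row_even (f : ι → XX Γ) (i : ι ⊕ ι) : Even (aug (row f 0 i)) := by
  rcases i with i | i
  · exact (f i).1.2
  · exact (f i).2.2

section mat

variable [Fintype ι] [DecidableEq ι] [Fintype κ] [DecidableEq κ] [Fintype μ] [DecidableEq μ]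
  [Fintype ν] [DecidableEq ν]

/-- The family is isotropic. -/
def IsoF (f : ι → XX Γ) : Prop := ∑ i, sv (f i) = 0

theorem row_sq (f : ι → XX Γ) : row f * hyp Γ ι * adj (row f) = Matrix.of fun _ _ => ∑ i, sv (f i) := by
  have h1 : row f * hyp Γ ι = Matrix.of fun _ => Sum.elim (fun i => ((f i).2 : MonoidAlgebra ℤ Γ))
      (fun i => ((f i).1 : MonoidAlgebra ℤ Γ)) := by
    ext1 x y
    rw [Matrix.mul_apply, Fintype.sum_sum_type]
    rcases y with y | y
    · simp [hyp, row, Matrix.one_apply]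
    · simp [hyp, row, Matrix.one_apply]
  rw [h1]
  ext1 x y
  rw [Matrix.mul_apply, Fintype.sum_sum_type, Matrix.of_apply, ← Finset.sum_add_distrib]
  refine Finset.sum_congr rfl fun i _ => ?_
  unfold sv
  rw [add_comm]
  rfl

theorem IsoF.eq {f : ι → XX Γ} (h : IsoF f) : row f * hyp Γ ι * adj (row f) = 0 := by
  rw [row_sq]
  ext1 x y
  exact h

/-- The form of a family. -/
noncomputable def famForm (f : ι → XX Γ) : Matrix (ι ⊕ ι) (ι ⊕ ι) (MonoidAlgebra ℤ Γ) :=
  modif (hyp Γ ι) (row f)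

theorem famForm_even (f : ι → XX Γ) : IsEvenForm (famForm f) := even_modif even_hyp (row_even f)

theorem famForm_unit {f : ι → XX Γ} (h : IsoF f) : IsUnit (famForm f) := unit_modif unit_hyp h.eq

open Classical in
/-- The class of an isotropic family. -/
noncomputable def clf (f : ι → XX Γ) : L0 Γ :=
  if h : IsoF f then L0.cls (famForm f) (famForm_even f) (famForm_unit h) else 0

theorem clf_eq {f : ι → XX Γ} (h : IsoF f) :
    clf f = L0.cls (famForm f) (famForm_even f) (famForm_unit h) := by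
  unfold clf; rw [dif_pos h]

theorem clf_congr {f : ι → XX Γ} {g : κ → XX Γ} (hfg : IsoF f ↔ IsoF g)
    (h : IsoF f → StabH (famForm f) (famForm g)) : clf f = clf g := by
  by_cases hf : IsoF f
  · rw [clf_eq hf, clf_eq (hfg.mp hf)]
    exact L0.cls_eq_iff.mpr (h hf)
  · unfold clf
    rw [dif_neg hf, dif_neg (fun h => hf (hfg.mpr h))]

omit [DecidableEq ι] [DecidableEq κ] in
theorem modif_submatrix (G : Matrix ι ι (MonoidAlgebra ℤ Γ)) (m : Matrix (Fin 1) ι (MonoidAlgebra ℤ Γ))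
    (e : κ ≃ ι) : modif (G.submatrix e e) (m.submatrix id e) = (modif G m).submatrix e e := by
  have h1 : adj (m.submatrix id e) = (adj m).submatrix e id := rfl
  unfold modif
  rw [h1, Matrix.submatrix_mul_equiv, Matrix.submatrix_mul_equiv,
    ← Matrix.submatrix_mul _ _ _ _ _ Function.bijective_id]
  rfl

theorem clf_equiv (f : ι → XX Γ) (e : κ ≃ ι) : clf (f ∘ e) = clf f := by
  refine clf_congr ?_ fun _ => ?_
  · unfold IsoF
    rw [← Equiv.sum_comp e]; rfl
  · have h1 : famForm (f ∘ e) = (famForm f).submatrix (Equiv.sumCongr e e) (Equiv.sumCongr e e) := by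
      unfold famForm
      rw [← modif_submatrix]
      congr 1
      · ext1 x y
        rcases x with x | x <;> rcases y with y | y <;> simp [hyp, Matrix.one_apply]
      · ext1 x y
        rcases y with y | y <;> rfl
    rw [h1]
    exact (Isometric.submatrix _ _).symm.stabH

theorem modif_osum {G₁ : Matrix ι ι (MonoidAlgebra ℤ Γ)} {G₂ : Matrix κ κ (MonoidAlgebra ℤ Γ)}
    (hG₁ : adj G₁ = G₁) (hG₂ : adj G₂ = G₂) (m₁ : Matrix (Fin 1) ι (MonoidAlgebra ℤ Γ))
    (m₂ : Matrix (Fin 1) κ (MonoidAlgebra ℤ Γ)) (h : m₁ * G₁ * adj m₁ = 0) :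
    Isometric (modif (osum G₁ G₂) (fromCols m₁ m₂)) (osum (modif G₁ m₁) (modif G₂ m₂)) := by
  have h1 : fromCols m₁ m₂ = fromCols m₁ 0 + fromCols 0 m₂ := by
    ext1 x y
    rcases y with y | y <;> simp
  have ha : adj (fromCols m₁ (0 : Matrix (Fin 1) κ (MonoidAlgebra ℤ Γ))) = fromRows (adj m₁) 0 := by
    ext1 x y
    rcases x with x | x
    · rfl
    · change bar 0 = 0; simp
  have hb : adj (fromCols (0 : Matrix (Fin 1) ι (MonoidAlgebra ℤ Γ)) m₂) = fromRows 0 (adj m₂) := by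
    ext1 x y
    rcases x with x | x
    · change bar 0 = 0; simp
    · rfl
  rw [h1]
  have h2 := modif_add (adj_osum hG₁ hG₂) (m₁ := fromCols m₁ 0) (m₂ := fromCols 0 m₂)
    (by
      rw [ha]; unfold osum
      rw [Matrix.fromCols_mul_fromBlocks, Matrix.fromCols_mul_fromRows]
      simp [h])
    (by
      rw [hb]; unfold osum
      rw [Matrix.fromCols_mul_fromBlocks, Matrix.fromCols_mul_fromRows]
      simp)
  convert h2 using 1
  rw [ha, hb]
  unfold osum modif
  rw [Matrix.fromCols_mul_fromBlocks, Matrix.fromCols_mul_fromBlocks, Matrix.fromBlocks_mul_fromRows,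
    Matrix.fromBlocks_mul_fromRows, Matrix.fromRows_mul_fromCols, Matrix.fromRows_mul_fromCols]
  simp only [sub_eq_add_neg, Matrix.fromBlocks_neg, Matrix.fromBlocks_add]
  simp

omit [DecidableEq ι] [DecidableEq κ] in
theorem isoF_sum {f : ι → XX Γ} {g : κ → XX Γ} : IsoF (Sum.elim f g) ↔
    ∑ i, sv (f i) + ∑ i, sv (g i) = 0 := by
  unfold IsoF
  rw [Fintype.sum_sum_type]; rfl

theorem clf_sum {f : ι → XX Γ} {g : κ → XX Γ} (hf : IsoF f) (hg : IsoF g) :
    clf (Sum.elim f g) = clf f + clf g := by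
  have hfg : IsoF (Sum.elim f g) := by
    rw [isoF_sum]
    unfold IsoF at hf hg
    rw [hf, hg, add_zero]
  rw [clf_eq hf, clf_eq hg, clf_eq hfg, ← L0.cls_osum]
  refine L0.cls_eq_iff.mpr (Isometric.stabH ?_)
  have h1 : famForm (Sum.elim f g) =
      (modif (osum (hyp Γ ι) (hyp Γ κ)) (fromCols (row f) (row g))).submatrix (swapEquiv ι κ)
        (swapEquiv ι κ) := by
    unfold famForm
    rw [← modif_submatrix]
    congr 1
    · ext1 x y
      rcases x with (x | x) | (x | x) <;> rcases y with (y | y) | (y | y) <;>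
        simp [hyp, osum, swapEquiv, Matrix.one_apply]
    · ext1 x y
      rcases y with (y | y) | (y | y) <;> rfl
  rw [h1]
  exact (Isometric.submatrix _ _).symm.trans (modif_osum adj_hyp adj_hyp _ _ hf.eq)

/-! ### moves -/

/-- the constant family on one index -/
def one (x : XX Γ) : Fin 1 → XX Γ := fun _ => x

theorem isoF_one {x : XX Γ} : IsoF (one x) ↔ sv x = 0 := by
  unfold IsoF one; simp

theorem clf_right_zero (p : ↥(JJ Γ)) : clf (one ((p, 0) : XX Γ)) = 0 := by
  have h : IsoF (one ((p, 0) : XX Γ)) := by rw [isoF_one]; simp [sv]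
  rw [clf_eq h]
  obtain ⟨a, ha⟩ := halve (bar (p : MonoidAlgebra ℤ Γ) * (p : MonoidAlgebra ℤ Γ)) (by rw [bar_mul, bar_bar]) (by
    intro s hss
    by_cases hs : s = 1
    · subst hs
      have h3 := norm_one (bar (p : MonoidAlgebra ℤ Γ))
      rw [aug_bar, bar_bar] at h3
      have h4 := h3.sub p.2
      rwa [add_sub_cancel_right] at h4
    · have h3 := norm_inv (bar (p : MonoidAlgebra ℤ Γ)) s hs hss
      rwa [bar_bar] at h3)
  refine L0.cls_eq_zero _ _ (κ := Fin 1) ?_
  have h2 : famForm (one ((p, 0) : XX Γ)) = met ((0 : Matrix (Fin 1) (Fin 1) (MonoidAlgebra ℤ Γ)) +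
      ((Matrix.of fun _ _ => -a) + adj (Matrix.of fun _ _ => -a))) := by
    have h3 : row (one ((p, 0) : XX Γ)) = fromCols (Matrix.of fun _ _ => (p : MonoidAlgebra ℤ Γ)) 0 := by
      ext1 x y
      rcases y with y | y <;> rfl
    have h4 : adj (fromCols (Matrix.of fun (_ : Fin 1) (_ : Fin 1) => (p : MonoidAlgebra ℤ Γ))
        (0 : Matrix (Fin 1) (Fin 1) (MonoidAlgebra ℤ Γ))) =
        fromRows (Matrix.of fun _ _ => bar (p : MonoidAlgebra ℤ Γ)) 0 := by
      ext1 x y
      rcases x with x | x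
      · rfl
      · change bar 0 = 0; simp
    unfold famForm modif
    rw [h3, h4]
    unfold hyp met
    rw [Matrix.fromCols_mul_fromBlocks, Matrix.fromBlocks_mul_fromRows, Matrix.fromRows_mul_fromCols,
      sub_eq_add_neg, Matrix.fromBlocks_neg, Matrix.fromBlocks_add]
    congr 1
    · simp
    · simp
    · simp
    · ext1 i j
      simp only [Matrix.mul_zero, Matrix.one_mul, Matrix.mul_one, zero_add, add_zero]
      rw [Matrix.neg_apply, Matrix.mul_apply, Fin.sum_univ_one, Matrix.of_apply, Matrix.of_apply, ha,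
        Matrix.add_apply, adj_apply, Matrix.of_apply, Matrix.of_apply, bar_neg']
      abel
  rw [h2]
  have h5 := iso_met_add (0 : Matrix (Fin 1) (Fin 1) (MonoidAlgebra ℤ Γ)) (Matrix.of fun _ _ => -a)
  exact h5

theorem clf_swap (f : ι → XX Γ) (x : XX Γ) :
    clf (Sum.elim f (one x)) = clf (Sum.elim f (one (x.2, x.1))) := by
  refine clf_congr ?_ fun _ => ?_
  · rw [isoF_sum, isoF_sum]
    unfold one sv
    simp only [Finset.univ_unique, Finset.sum_const, Finset.card_singleton, one_smul]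
    rw [add_comm ((x.1 : MonoidAlgebra ℤ Γ) * bar (x.2 : MonoidAlgebra ℤ Γ))]
  · let e : (ι ⊕ Fin 1) ⊕ (ι ⊕ Fin 1) ≃ (ι ⊕ Fin 1) ⊕ (ι ⊕ Fin 1) :=
      { toFun := Sum.elim (Sum.elim (fun i => Sum.inl (Sum.inl i)) (fun k => Sum.inr (Sum.inr k)))
          (Sum.elim (fun i => Sum.inr (Sum.inl i)) (fun k => Sum.inl (Sum.inr k)))
        invFun := Sum.elim (Sum.elim (fun i => Sum.inl (Sum.inl i)) (fun k => Sum.inr (Sum.inr k)))
          (Sum.elim (fun i => Sum.inr (Sum.inl i)) (fun k => Sum.inl (Sum.inr k)))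
        left_inv := fun x => by rcases x with (x | x) | (x | x) <;> rfl
        right_inv := fun x => by rcases x with (x | x) | (x | x) <;> rfl }
    have h1 : famForm (Sum.elim f (one (x.2, x.1))) =
        (famForm (Sum.elim f (one x))).submatrix e e := by
      unfold famForm
      rw [← modif_submatrix]
      congr 1
      · ext1 x y
        rcases x with (x | x) | (x | x) <;> rcases y with (y | y) | (y | y) <;>
          simp [hyp, e, Matrix.one_apply]
      · ext1 x y
        rcases y with (y | y) | (y | y) <;> rfl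
    rw [h1]
    exact (Isometric.submatrix _ _).stabH

/-- right multiplication -/
noncomputable def mulr (p : ↥(JJ Γ)) (r : MonoidAlgebra ℤ Γ) : ↥(JJ Γ) :=
  ⟨(p : MonoidAlgebra ℤ Γ) * r, by rw [mem_JJ, map_mul]; exact p.2.mul_right _⟩

theorem gl_hyp {A A' : Matrix ι ι (MonoidAlgebra ℤ Γ)} (h1 : A * A' = 1) :
    fromBlocks A 0 0 (adj A') * hyp Γ ι * adj (fromBlocks A 0 0 (adj A')) = hyp Γ ι := by
  have h1' : adj A' * adj A = 1 := by rw [← adj_mul, h1, adj_one]
  unfold hyp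
  rw [adj_fromBlocks, Matrix.fromBlocks_multiply, Matrix.fromBlocks_multiply, adj_adj]
  simp [adj_zero, h1, h1']

omit [Fintype ι] [DecidableEq ι] in
theorem row_split (f : ι → XX Γ) (x y : XX Γ) :
    row (Sum.elim f (Sum.elim (one x) (one y))) =
      fromCols (fromCols (Matrix.of fun _ i => ((f i).1 : MonoidAlgebra ℤ Γ))
        (fromCols (Matrix.of fun (_ : Fin 1) (_ : Fin 1) => (x.1 : MonoidAlgebra ℤ Γ))
          (Matrix.of fun (_ : Fin 1) (_ : Fin 1) => (y.1 : MonoidAlgebra ℤ Γ))))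
      (fromCols (Matrix.of fun _ i => ((f i).2 : MonoidAlgebra ℤ Γ))
        (fromCols (Matrix.of fun (_ : Fin 1) (_ : Fin 1) => (x.2 : MonoidAlgebra ℤ Γ))
          (Matrix.of fun (_ : Fin 1) (_ : Fin 1) => (y.2 : MonoidAlgebra ℤ Γ)))) := by
  ext1 a b
  rcases b with (b | b | b) | (b | b | b) <;> rfl

theorem clf_elem (f : ι → XX Γ) (x y : XX Γ) (ρ : MonoidAlgebra ℤ Γ) :
    clf (Sum.elim f (Sum.elim (one x) (one y))) =
      clf (Sum.elim f (Sum.elim (one ((x.1 + mulr y.1 ρ, x.2) : XX Γ))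
        (one ((y.1, y.2 - mulr x.2 (bar ρ)) : XX Γ)))) := by
  refine clf_congr ?_ fun _ => ?_
  · have h : sv x + sv y = sv ((x.1 + mulr y.1 ρ, x.2) : XX Γ) +
        sv ((y.1, y.2 - mulr x.2 (bar ρ)) : XX Γ) := by
      have e1 : ((y.2 - mulr x.2 (bar ρ) : ↥(JJ Γ)) : MonoidAlgebra ℤ Γ) =
          (y.2 : MonoidAlgebra ℤ Γ) - (x.2 : MonoidAlgebra ℤ Γ) * bar ρ := rfl
      have e2 : ((x.1 + mulr y.1 ρ : ↥(JJ Γ)) : MonoidAlgebra ℤ Γ) =
          (x.1 : MonoidAlgebra ℤ Γ) + (y.1 : MonoidAlgebra ℤ Γ) * ρ := rfl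
      unfold sv
      simp only [e1, e2]
      rw [bar_add, sub_eq_add_neg, bar_add, bar_neg', bar_mul, bar_mul, bar_bar]
      noncomm_ring
    have e : ∀ (a b : XX Γ), ∑ i, sv (Sum.elim (one a) (one b) i) = sv a + sv b := by
      intro a b
      rw [Fintype.sum_sum_type]
      simp [one]
    rw [isoF_sum, isoF_sum, e, e, h]
  · set ρm : Matrix (Fin 1) (Fin 1) (MonoidAlgebra ℤ Γ) := Matrix.of fun _ _ => ρ with hρ
    set A : Matrix (ι ⊕ (Fin 1 ⊕ Fin 1)) (ι ⊕ (Fin 1 ⊕ Fin 1)) (MonoidAlgebra ℤ Γ) :=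
      fromBlocks 1 0 0 (fromBlocks 1 0 ρm 1) with hA
    set A' : Matrix (ι ⊕ (Fin 1 ⊕ Fin 1)) (ι ⊕ (Fin 1 ⊕ Fin 1)) (MonoidAlgebra ℤ Γ) :=
      fromBlocks 1 0 0 (fromBlocks 1 0 (-ρm) 1) with hA'
    have h1 : A * A' = 1 := by
      rw [hA, hA', Matrix.fromBlocks_multiply, Matrix.fromBlocks_multiply, ← Matrix.fromBlocks_one,
        ← Matrix.fromBlocks_one]
      simp
    have h2 : A' * A = 1 := by
      rw [hA, hA', Matrix.fromBlocks_multiply, Matrix.fromBlocks_multiply, ← Matrix.fromBlocks_one,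
        ← Matrix.fromBlocks_one]
      simp
    have h1' : adj A' * adj A = 1 := by rw [← adj_mul, h1, adj_one]
    have h2' : adj A * adj A' = 1 := by rw [← adj_mul, h2, adj_one]
    have h3 := modif_iso (G := hyp Γ (ι ⊕ (Fin 1 ⊕ Fin 1))) (G' := hyp Γ (ι ⊕ (Fin 1 ⊕ Fin 1)))
      (fromBlocks A 0 0 (adj A')) (fromBlocks A' 0 0 (adj A))
      (by rw [Matrix.fromBlocks_multiply, h1, h1']; simp)
      (by rw [Matrix.fromBlocks_multiply, h2, h2']; simp)
      (gl_hyp h1)
      (row (Sum.elim f (Sum.elim (one x) (one y))))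
    have h4 : row (Sum.elim f (Sum.elim (one x) (one y))) * fromBlocks A 0 0 (adj A') =
        row (Sum.elim f (Sum.elim (one ((x.1 + mulr y.1 ρ, x.2) : XX Γ))
          (one ((y.1, y.2 - mulr x.2 (bar ρ)) : XX Γ)))) := by
      rw [row_split, row_split, hA, hA', adj_fromBlocks, adj_fromBlocks,
        Matrix.fromCols_mul_fromBlocks, Matrix.mul_zero, Matrix.mul_zero, add_zero, zero_add,
        Matrix.fromCols_mul_fromBlocks, Matrix.fromCols_mul_fromBlocks,
        Matrix.fromCols_mul_fromBlocks, Matrix.fromCols_mul_fromBlocks]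
      simp only [adj_one, adj_zero, Matrix.mul_one, Matrix.mul_zero, add_zero, zero_add, adj_neg]
      congr 2
      · congr 1
        ext1 a b
        rw [Matrix.add_apply, Matrix.mul_apply, Fin.sum_univ_one]
        rfl
      · congr 1
        ext1 a b
        rw [Matrix.add_apply, Matrix.mul_apply, Fin.sum_univ_one, Matrix.neg_apply, adj_apply]
        simp only [Matrix.of_apply, hρ]
        change (x.2 : MonoidAlgebra ℤ Γ) * -bar ρ + y.2 = y.2 - (x.2 : MonoidAlgebra ℤ Γ) * bar ρ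
        noncomm_ring
    unfold famForm
    rw [← h4]
    exact h3.symm.stabH

end mat

end Pool.Agent.H750
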