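import Pool.Agent.H750.K.SigPart

set_option autoImplicit false
set_option linter.unusedSectionVars false
set_option linter.unusedSimpArgs false

/-! # The formula for the homomorphism from the second homology -/

namespace Pool.Agent.H750

open Matrix Pool.Agent.R791

section general

variable {Γ : Type*} [Group Γ]

/-- The integral chain. -/
noncomputable def chainZ {n : ℕ} (g h : Fin n → Γ) : Γ × Γ →₀ ℤ := ∑ i, Finsupp.single (g i, h i) 1

theorem red_chainZ {n : ℕ} (g h : Fin n → Γ) : red _ (chainZ g h) = chainOf g h := by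
  unfold chainZ chainOf
  rw [map_sum]
  exact Finset.sum_congr rfl fun i _ => by rw [red_single]; simp

theorem pz_chainZ {n : ℕ} (g h : Fin n → Γ) : pz Γ (chainZ g h) =
    ∑ i, (MonoidAlgebra.single (g i) 1 - 1 : MonoidAlgebra ℤ Γ) * (MonoidAlgebra.single (h i) 1 - 1) := by
  unfold chainZ
  rw [map_sum]
  refine Finset.sum_congr rfl fun i _ => ?_
  rw [pz_single, one_smul]; rfl

theorem thetaZ_chainZ {n : ℕ} (g h : Fin n → Γ) : thetaZ Γ (chainZ g h) =
    ∑ i, tb (gm (g i)) (gm (h i)⁻¹) := by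
  unfold chainZ
  rw [map_sum]
  refine Finset.sum_congr rfl fun i _ => ?_
  rw [thetaZ_single, one_smul]; rfl

theorem exists_w {n : Γ × Γ →₀ ℤ} (hz : dd Γ (red _ n) = 0) : ∃ w : ↥(JJ Γ), IsLift n w := by
  rw [dd_red] at hz
  obtain ⟨m, hm⟩ := red_eq_zero hz
  have ht : tot _ n = tot _ m + tot _ m := by rw [← tot_ddZ, hm, map_add]
  set w : MonoidAlgebra ℤ Γ := MonoidAlgebra.ofCoeff (m - Finsupp.single 1 (tot _ m)) with hw
  have h1 : pz Γ n + (w + w) = 0 := by
    apply MonoidAlgebra.coeff_injective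
    rw [MonoidAlgebra.coeff_add, pz_coeff, MonoidAlgebra.coeff_add, hm, ht, hw,
      MonoidAlgebra.coeff_zero, Finsupp.single_add]
    simp only [MonoidAlgebra.coeff_ofCoeff]
    abel
  have h2 : aug w = 0 := by
    have h3 := congrArg aug h1
    rw [map_add, aug_pz, map_add, map_zero] at h3
    omega
  exact ⟨⟨w, by rw [mem_JJ, h2]; exact Even.zero⟩, h1⟩

theorem exists_chain (z : Γ × Γ →₀ ZMod 2) : ∃ (n : ℕ) (g h : Fin n → Γ), z = chainOf g h := by
  classical
  obtain ⟨e⟩ : Nonempty (Fin z.support.card ≃ z.support) := ⟨z.support.equivFin.symm⟩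
  refine ⟨z.support.card, fun i => (e i).1.1, fun i => (e i).1.2, ?_⟩
  unfold chainOf
  have h1 : ∀ i : Fin z.support.card, (Finsupp.single (((e i).1.1, (e i).1.2) : Γ × Γ) (1 : ZMod 2)) =
      Finsupp.single (e i).1 (z (e i).1) := by
    intro i
    have h2 : z (e i).1 ≠ 0 := Finsupp.mem_support_iff.mp (e i).2
    have h3 : ∀ r : ZMod 2, r ≠ 0 → r = 1 := by decide
    rw [h3 _ h2]
  rw [Finset.sum_congr rfl fun i _ => h1 i,
    Equiv.sum_comp e (fun x : z.support => Finsupp.single (x : Γ × Γ) (z x)),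
    Finset.sum_coe_sort z.support (fun x => Finsupp.single x (z x))]
  exact (Finsupp.sum_single z).symm

/-- The family of the formula. -/
noncomputable def kfam {n : ℕ} (g h : Fin n → Γ) (w : ↥(JJ Γ)) : Fin n ⊕ Fin 1 → XX Γ :=
  Sum.elim (fun i => (gm (g i), gm (h i)⁻¹)) (one (two Γ, jbar w))

theorem famForm_kfam {n : ℕ} (g h : Fin n → Γ) (w : ↥(JJ Γ)) : famForm (kfam g h w) = kform g h w := by
  have h1 : row (kfam g h w) = krow g h w := by
    ext1 x y
    rcases y with (y | y) | (y | y)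
    · rfl
    · change (1 + 1 : MonoidAlgebra ℤ Γ) = 2
      norm_num
    · rfl
    · rfl
  unfold famForm modif kform
  rw [h1]

theorem clf_kfam {n : ℕ} (g h : Fin n → Γ) (w : ↥(JJ Γ)) : clf (kfam g h w) = cT (lft (chainZ g h) w) := by
  have h1 := clf_eq_cT (fun i : Fin (n + 1) => kfam g h w (finSumFinEquiv.symm i))
  have h2 := clf_equiv (kfam g h w) (finSumFinEquiv (m := n) (n := 1)).symm
  have h3 : (kfam g h w) ∘ (finSumFinEquiv (m := n) (n := 1)).symm =
      fun i : Fin (n + 1) => kfam g h w (finSumFinEquiv.symm i) := rfl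
  rw [h3, h1] at h2
  rw [← h2]
  congr 1
  rw [Equiv.sum_comp (finSumFinEquiv (m := n) (n := 1)).symm (fun x => tb (kfam g h w x).1 (kfam g h w x).2),
    Fintype.sum_sum_type]
  unfold lft
  rw [thetaZ_chainZ]
  simp [kfam, one]

theorem isoF_kfam {n : ℕ} (g h : Fin n → Γ) (w : ↥(JJ Γ)) (hw : IsLift (chainZ g h) w) :
    IsoF (kfam g h w) := by
  have h1 := sT_lft hw
  unfold IsoF
  rw [← h1]
  unfold lft
  rw [map_add, thetaZ_chainZ, map_sum, Fintype.sum_sum_type]
  have h2 : ∑ x : Fin 1, sv (kfam g h w (Sum.inr x)) = sT Γ (tb (two Γ) (jbar w)) := by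
    rw [Fin.sum_univ_one]; exact (sT_tb _ _).symm
  rw [h2]
  congr 1

end general

/-! ### the formula -/

section formula

variable {Γ : Type*} [Group Γ]

theorem exists_rep (x : HH2 Γ) : ∃ (n : ℕ) (g h : Fin n → Γ) (w : MonoidAlgebra ℤ Γ)
    (hz : chainOf g h ∈ ZZ2 Γ), Corr g h w ∧ x = HH2.mk (chainOf g h) hz := by
  obtain ⟨z, hz, rfl⟩ := x.exists_mk
  obtain ⟨n, g, h, rfl⟩ := exists_chain z
  have hd : dd Γ (red _ (chainZ g h)) = 0 := by rw [red_chainZ]; exact mem_ZZ2.mp hz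
  obtain ⟨w, hw⟩ := exists_w hd
  refine ⟨n, g, h, w, hz, ?_, rfl⟩
  unfold Corr
  rw [← pz_chainZ]; exact hw

theorem kappa_formula {n : ℕ} (g h : Fin n → Γ) (w : MonoidAlgebra ℤ Γ)
    (hz : chainOf g h ∈ ZZ2 Γ) (hw : Corr g h w) :
    ∃ (he : IsEvenForm (kform g h w)) (hu : IsUnit (kform g h w)),
      kap Γ (HH2.mk (chainOf g h) hz) = L0.cls (kform g h w) he hu := by
  unfold Corr at hw
  have hw1 : aug w = 0 := by
    have h3 := congrArg aug hw
    rw [map_add, ← pz_chainZ, aug_pz, map_add, map_zero] at h3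
    omega
  obtain ⟨w', rfl⟩ : ∃ w' : ↥(JJ Γ), (w' : MonoidAlgebra ℤ Γ) = w := ⟨⟨w, by
    rw [mem_JJ, hw1]; exact Even.zero⟩, rfl⟩
  have hl : IsLift (chainZ g h) w' := by
    unfold IsLift
    rw [pz_chainZ]; exact hw
  have hiso := isoF_kfam g h w' hl
  have he : IsEvenForm (kform g h w') := by rw [← famForm_kfam]; exact famForm_even _
  have hu : IsUnit (kform g h w') := by rw [← famForm_kfam]; exact famForm_unit hiso
  refine ⟨he, hu, ?_⟩
  have h1 : kap Γ (HH2.mk (chainOf g h) hz) = cT (lft (chainZ g h) w') := by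
    rw [kap_mk, ← red_chainZ]
    exact kchain_lift hl
  rw [h1, ← clf_kfam, clf_eq hiso]
  refine L0.cls_eq_iff.mpr ?_
  rw [famForm_kfam]
  exact (Isometric.refl _).stabH

end formula

/-! ### the Witt group by stable isometries -/

section stable

variable {Γ : Type*} [Group Γ] {ι κ : Type*} [Fintype ι] [DecidableEq ι] [Fintype κ] [DecidableEq κ]

theorem met_pm {n : ℕ} {S : Matrix (Fin n) (Fin n) (MonoidAlgebra ℤ Γ)} (hS : adj S = S) (hv : Visible S) :
    Isometric (osum (met S) (pm Γ (Fin 1))) (pm Γ (Fin (n + 1))) :=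
  (iso_met_pm S hS hv).trans (iso_pm.trans (iso_pm_equiv finSumFinEquiv))

theorem stabM_iff {A : Matrix ι ι (MonoidAlgebra ℤ Γ)} {B : Matrix κ κ (MonoidAlgebra ℤ Γ)} :
    StabM A B ↔ ∃ a b : ℕ, Isometric (osum A (pm Γ (Fin a))) (osum B (pm Γ (Fin b))) := by
  constructor
  · rintro ⟨a, b, S, T, hS, hT, h⟩
    refine ⟨a + 1, b + 1, ?_⟩
    have h1 : Isometric (osum A (pm Γ (Fin (a + 1)))) (osum (osum A (met S)) (pm Γ (Fin 1))) :=
      (((Isometric.refl A).osum (met_pm hS.1 hS.2)).symm).trans (iso_assoc _ _ _).symm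
    have h2 : Isometric (osum (osum B (met T)) (pm Γ (Fin 1))) (osum B (pm Γ (Fin (b + 1)))) :=
      (iso_assoc _ _ _).trans ((Isometric.refl B).osum (met_pm hT.1 hT.2))
    exact h1.trans ((h.osum (Isometric.refl _)).trans h2)
  · rintro ⟨a, b, h⟩
    have hv : ∀ n : ℕ, adj (1 : Matrix (Fin n) (Fin n) (MonoidAlgebra ℤ Γ)) = 1 ∧
        Visible (1 : Matrix (Fin n) (Fin n) (MonoidAlgebra ℤ Γ)) := by
      intro n
      refine ⟨adj_one, ?_⟩
      intro i s hs _
      rw [Matrix.one_apply_eq, MonoidAlgebra.one_def, MonoidAlgebra.coeff_single, Finsupp.single_eq_of_ne hs]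
      exact Even.zero
    exact ⟨a, b, 1, 1, hv a, hv b, ((Isometric.refl A).osum iso_met_one).trans
      (h.trans ((Isometric.refl B).osum iso_met_one).symm)⟩

end stable

end Pool.Agent.H750
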