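import Pool.Agent.H750.K.Moves

set_option autoImplicit false
set_option linter.unusedSectionVars false
set_option linter.unusedSimpArgs false

/-! # Reduction of the isotropic vector -/

namespace Pool.Agent.H750

open Matrix Pool.Agent.R791

variable {Γ : Type*} [Group Γ] {ι κ μ ν : Type*}

/-- norms of elements of the ideal -/
theorem norm_half {x : MonoidAlgebra ℤ Γ} (hx : x ∈ JJ Γ) : ∃ a, x * bar x = a + bar a := by
  refine halve _ (by rw [bar_mul, bar_bar]) ?_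
  intro s hss
  by_cases hs : s = 1
  · subst hs
    have h3 := norm_one x
    have h4 := h3.sub hx
    rwa [add_sub_cancel_right] at h4
  · exact norm_inv x s hs hss

theorem bar_mem_JJ {x : MonoidAlgebra ℤ Γ} (hx : x ∈ JJ Γ) : bar x ∈ JJ Γ := by
  rw [mem_JJ, aug_bar]; exact hx

/-- exchange of the last two summands -/
def ex (κ ν : Type*) : (κ ⊕ ν) ⊕ ν ≃ (κ ⊕ ν) ⊕ ν where
  toFun := Sum.elim (Sum.elim (fun x => Sum.inl (Sum.inl x)) (fun y => Sum.inr y)) (fun y => Sum.inl (Sum.inr y))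
  invFun := Sum.elim (Sum.elim (fun x => Sum.inl (Sum.inl x)) (fun y => Sum.inr y)) (fun y => Sum.inl (Sum.inr y))
  left_inv x := by rcases x with (x | x) | x <;> rfl
  right_inv x := by rcases x with (x | x) | x <;> rfl

theorem osum_ex (W : Matrix κ κ (MonoidAlgebra ℤ Γ)) (M H : Matrix ν ν (MonoidAlgebra ℤ Γ)) :
    osum (osum W H) M = (osum (osum W M) H).submatrix (ex κ ν) (ex κ ν) := by
  ext1 x y
  rcases x with (x | x) | x <;> rcases y with (y | y) | y <;> rfl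

section reach

variable [Fintype ι] [DecidableEq ι] [Fintype κ] [DecidableEq κ] [Fintype μ] [DecidableEq μ]

/-- the value of the form on two vectors of the plane -/
theorem plane_form (W : Matrix κ κ (MonoidAlgebra ℤ Γ)) (α β γ δ : MonoidAlgebra ℤ Γ) :
    rv (0 : Matrix (Fin 1) κ (MonoidAlgebra ℤ Γ)) α β * osum W (mm Γ) *
      adj (rv (0 : Matrix (Fin 1) κ (MonoidAlgebra ℤ Γ)) γ δ) =
      sc (β * bar γ + (α * bar δ - β * bar δ)) := by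
  have h1 : rv (0 : Matrix (Fin 1) κ (MonoidAlgebra ℤ Γ)) α β * osum W (mm Γ) =
      fromCols 0 (fromCols (sc β) (sc (α - β))) := by
    unfold rv osum mm met
    rw [Matrix.fromCols_mul_fromBlocks, Matrix.fromCols_mul_fromBlocks]
    simp only [Matrix.mul_zero, Matrix.zero_mul, add_zero, zero_add, Matrix.mul_one, Matrix.mul_neg]
    congr 2
    rw [sc_neg, sc_add, sub_eq_add_neg]
  rw [h1]
  unfold rv
  rw [adj_fromCols, adj_fromCols, adj_sc, adj_sc, Matrix.fromCols_mul_fromRows, Matrix.fromCols_mul_fromRows,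
    Matrix.zero_mul, zero_add, sc_mul, sc_mul, sc_add, sub_mul]

theorem Reach.move {E : Matrix ι ι (MonoidAlgebra ℤ Γ)} {W : Matrix κ κ (MonoidAlgebra ℤ Γ)}
    (hW : adj W = W) {a : Matrix (Fin 1) κ (MonoidAlgebra ℤ Γ)} {α β : MonoidAlgebra ℤ Γ}
    (h : Reach E W a α β) {j wu we : MonoidAlgebra ℤ Γ} (hj : j ∈ JJ Γ) (hwe : we ∈ JJ Γ) :
    ∃ r, Reach (osum E (hyp Γ (Fin 1))) (osum W (hyp Γ (Fin 1))) r (α + j * wu) (β + j * we) := by
  obtain ⟨P, Q, hPQ, hQP, hP, hu⟩ := h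
  have hG : adj (osum W (mm Γ)) = osum W (mm Γ) := adj_osum hW adj_mm
  set z : Matrix (Fin 1) (κ ⊕ (Fin 1 ⊕ Fin 1)) (MonoidAlgebra ℤ Γ) :=
    rv (0 : Matrix (Fin 1) ι (MonoidAlgebra ℤ Γ)) 0 1 * P with hz
  have h1 : rv a α β * osum W (mm Γ) * adj z = 1 := by
    rw [hz, ← hu, adj_mul]
    calc rv (0 : Matrix (Fin 1) ι (MonoidAlgebra ℤ Γ)) 1 0 * P * osum W (mm Γ) *
        (adj P * adj (rv (0 : Matrix (Fin 1) ι (MonoidAlgebra ℤ Γ)) 0 1)) =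
        rv (0 : Matrix (Fin 1) ι (MonoidAlgebra ℤ Γ)) 1 0 * (P * osum W (mm Γ) * adj P) *
          adj (rv (0 : Matrix (Fin 1) ι (MonoidAlgebra ℤ Γ)) 0 1) := by simp only [Matrix.mul_assoc]
      _ = 1 := by rw [hP, plane_form, ← sc_one]; simp
  have h2 : z * osum W (mm Γ) * adj z = sc (-1) := by
    rw [hz, adj_mul]
    calc rv (0 : Matrix (Fin 1) ι (MonoidAlgebra ℤ Γ)) 0 1 * P * osum W (mm Γ) *
        (adj P * adj (rv (0 : Matrix (Fin 1) ι (MonoidAlgebra ℤ Γ)) 0 1)) =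
        rv (0 : Matrix (Fin 1) ι (MonoidAlgebra ℤ Γ)) 0 1 * (P * osum W (mm Γ) * adj P) *
          adj (rv (0 : Matrix (Fin 1) ι (MonoidAlgebra ℤ Γ)) 0 1) := by simp only [Matrix.mul_assoc]
      _ = sc (-1) := by rw [hP, plane_form]; simp
  obtain ⟨c, hc⟩ := norm_half (bar_mem_JJ hj)
  rw [bar_bar] at hc
  have h3 : sc (bar j) * (z * osum W (mm Γ) * adj z) * sc j = sc (-c + bar (-c)) := by
    rw [h2, sc_mul, sc_mul, bar_neg']
    congr 1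
    rw [mul_neg, mul_one, neg_mul, hc]; abel
  obtain ⟨d, hd⟩ := norm_half hwe
  have h4 : rv (0 : Matrix (Fin 1) κ (MonoidAlgebra ℤ Γ)) wu we * osum W (mm Γ) *
      adj (rv (0 : Matrix (Fin 1) κ (MonoidAlgebra ℤ Γ)) wu we) =
      sc ((wu * bar we - d) + bar (wu * bar we - d)) := by
    rw [plane_form, sub_eq_add_neg (wu * bar we) d, bar_add, bar_neg', bar_mul, bar_bar, hd]
    congr 1
    abel
  obtain ⟨T, T', r, ⟨hT1, hT2, hT3⟩, hT4⟩ := Pool.Agent.H750.move hG h1 h3 h4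
  have h5 : rv a α β + sc j * rv (0 : Matrix (Fin 1) κ (MonoidAlgebra ℤ Γ)) wu we =
      rv a (α + j * wu) (β + j * we) := by
    unfold rv
    rw [Matrix.mul_fromCols, Matrix.mul_fromCols, fromCols_add', fromCols_add', sc_mul, sc_mul,
      sc_add, sc_add, Matrix.mul_zero, add_zero]
  rw [h5] at hT4
  -- the total matrix
  set R : Matrix ((ι ⊕ (Fin 1 ⊕ Fin 1)) ⊕ (Fin 1 ⊕ Fin 1)) ((κ ⊕ (Fin 1 ⊕ Fin 1)) ⊕ (Fin 1 ⊕ Fin 1))
    (MonoidAlgebra ℤ Γ) := dg (Fin 1 ⊕ Fin 1) P * T with hR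
  set R' : Matrix ((κ ⊕ (Fin 1 ⊕ Fin 1)) ⊕ (Fin 1 ⊕ Fin 1)) ((ι ⊕ (Fin 1 ⊕ Fin 1)) ⊕ (Fin 1 ⊕ Fin 1))
    (MonoidAlgebra ℤ Γ) := T' * dg (Fin 1 ⊕ Fin 1) Q with hR'
  have hRR' : R * R' = 1 := by
    rw [hR, hR']
    calc dg (Fin 1 ⊕ Fin 1) P * T * (T' * dg (Fin 1 ⊕ Fin 1) Q) =
        dg (Fin 1 ⊕ Fin 1) P * (T * T') * dg (Fin 1 ⊕ Fin 1) Q := by simp only [Matrix.mul_assoc]
      _ = 1 := by rw [hT1, Matrix.mul_one, dg_mul hPQ]
  have hR'R : R' * R = 1 := by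
    rw [hR, hR']
    calc T' * dg (Fin 1 ⊕ Fin 1) Q * (dg (Fin 1 ⊕ Fin 1) P * T) =
        T' * (dg (Fin 1 ⊕ Fin 1) Q * dg (Fin 1 ⊕ Fin 1) P) * T := by simp only [Matrix.mul_assoc]
      _ = 1 := by rw [dg_mul hQP, Matrix.mul_one, hT2]
  have hRG : R * osum (osum W (mm Γ)) (hyp Γ (Fin 1)) * adj R =
      osum (osum E (mm Γ)) (hyp Γ (Fin 1)) := by
    rw [hR, adj_mul]
    calc dg (Fin 1 ⊕ Fin 1) P * T * osum (osum W (mm Γ)) (hyp Γ (Fin 1)) *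
        (adj T * adj (dg (Fin 1 ⊕ Fin 1) P)) =
        dg (Fin 1 ⊕ Fin 1) P * (T * osum (osum W (mm Γ)) (hyp Γ (Fin 1)) * adj T) *
          adj (dg (Fin 1 ⊕ Fin 1) P) := by simp only [Matrix.mul_assoc]
      _ = osum (osum E (mm Γ)) (hyp Γ (Fin 1)) := by rw [hT3, osum_conj hP]
  have hRu : (fromCols (rv (0 : Matrix (Fin 1) ι (MonoidAlgebra ℤ Γ)) 1 0) 0 :
      Matrix (Fin 1) ((ι ⊕ (Fin 1 ⊕ Fin 1)) ⊕ (Fin 1 ⊕ Fin 1)) (MonoidAlgebra ℤ Γ)) * R =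
      fromCols (rv a (α + j * wu) (β + j * we)) r := by
    have h6 : (fromCols (rv (0 : Matrix (Fin 1) ι (MonoidAlgebra ℤ Γ)) 1 0) 0 :
        Matrix (Fin 1) ((ι ⊕ (Fin 1 ⊕ Fin 1)) ⊕ (Fin 1 ⊕ Fin 1)) (MonoidAlgebra ℤ Γ)) *
        dg (Fin 1 ⊕ Fin 1) P = fromCols (rv a α β) 0 := by
      unfold dg
      rw [Matrix.fromCols_mul_fromBlocks, hu]
      simp
    rw [hR, ← Matrix.mul_assoc, h6, hT4]
  refine ⟨fromCols a r, R.submatrix (ex ι _) (ex κ _), R'.submatrix (ex κ _) (ex ι _), ?_, ?_, ?_, ?_⟩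
  · rw [Matrix.submatrix_mul_equiv, hRR', Matrix.submatrix_one_equiv]
  · rw [Matrix.submatrix_mul_equiv, hR'R, Matrix.submatrix_one_equiv]
  · have h7 : adj (R.submatrix (ex ι (Fin 1 ⊕ Fin 1)) (ex κ (Fin 1 ⊕ Fin 1))) =
        (adj R).submatrix (ex κ (Fin 1 ⊕ Fin 1)) (ex ι (Fin 1 ⊕ Fin 1)) := rfl
    rw [h7, osum_ex W, osum_ex E, Matrix.submatrix_mul_equiv, Matrix.submatrix_mul_equiv, hRG]
  · have h8 : rv (0 : Matrix (Fin 1) (ι ⊕ (Fin 1 ⊕ Fin 1)) (MonoidAlgebra ℤ Γ)) 1 0 =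
        (fromCols (rv (0 : Matrix (Fin 1) ι (MonoidAlgebra ℤ Γ)) 1 0) 0 :
      Matrix (Fin 1) ((ι ⊕ (Fin 1 ⊕ Fin 1)) ⊕ (Fin 1 ⊕ Fin 1)) (MonoidAlgebra ℤ Γ)).submatrix id
        (ex ι (Fin 1 ⊕ Fin 1)) := by
      ext1 x y
      rcases y with (y | y) | (y | y) <;> rfl
    rw [h8, Matrix.submatrix_mul_equiv, hRu]
    ext1 x y
    rcases y with (y | y) | (y | y) <;> rfl

/-- The stable version of the relation. -/
def Good (E : Matrix ι ι (MonoidAlgebra ℤ Γ)) (α β : MonoidAlgebra ℤ Γ) : Prop :=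
  ∃ (k n : ℕ) (a : Matrix (Fin 1) (Fin n ⊕ Fin n) (MonoidAlgebra ℤ Γ)),
    Reach (osum E (hyp Γ (Fin k))) (hyp Γ (Fin n)) a α β

theorem Good.move {E : Matrix ι ι (MonoidAlgebra ℤ Γ)} {α β : MonoidAlgebra ℤ Γ} (h : Good E α β)
    {j wu we : MonoidAlgebra ℤ Γ} (hj : j ∈ JJ Γ) (hwe : we ∈ JJ Γ) :
    Good E (α + j * wu) (β + j * we) := by
  obtain ⟨k, n, a, h⟩ := h
  obtain ⟨r, h1⟩ := h.move adj_hyp (wu := wu) hj hwe
  have h2 := h1.left ((iso_assoc E (hyp Γ (Fin k)) (hyp Γ (Fin 1))).trans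
    ((Isometric.refl E).osum (iso_hyp_fin k 1)))
  obtain ⟨a', h3⟩ := h2.right (iso_hyp_fin n 1)
  exact ⟨k + 1, n + 1, a', h3⟩

/-! ### the square of the ideal -/

/-- The square of the ideal. -/
noncomputable def JJ2 (Γ : Type*) [Group Γ] : AddSubgroup (MonoidAlgebra ℤ Γ) :=
  AddSubgroup.closure {x | ∃ j γ : MonoidAlgebra ℤ Γ, j ∈ JJ Γ ∧ γ ∈ JJ Γ ∧ x = j * γ}

theorem mul_mem_JJ2 {j γ : MonoidAlgebra ℤ Γ} (hj : j ∈ JJ Γ) (hγ : γ ∈ JJ Γ) : j * γ ∈ JJ2 Γ :=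
  AddSubgroup.subset_closure ⟨j, γ, hj, hγ, rfl⟩

theorem Good.add {E : Matrix ι ι (MonoidAlgebra ℤ Γ)} {β δ : MonoidAlgebra ℤ Γ} (hδ : δ ∈ JJ2 Γ)
    (h : Good E 1 β) : Good E 1 (β + δ) := by
  have key : (∀ β, Good E 1 β → Good E 1 (β + δ)) ∧ (∀ β, Good E 1 β → Good E 1 (β - δ)) := by
    refine AddSubgroup.closure_induction (p := fun δ _ =>
      (∀ β, Good E 1 β → Good E 1 (β + δ)) ∧ (∀ β, Good E 1 β → Good E 1 (β - δ))) ?_ ?_ ?_ ?_ hδ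
    · rintro x ⟨j, γ, hj, hγ, rfl⟩
      refine ⟨fun β h => ?_, fun β h => ?_⟩
      · have := h.move (wu := 0) hj hγ
        rwa [mul_zero, add_zero] at this
      · have := h.move (wu := 0) ((JJ Γ).neg_mem hj) hγ
        rwa [mul_zero, add_zero, neg_mul, ← sub_eq_add_neg] at this
    · exact ⟨fun β h => by rwa [add_zero], fun β h => by rwa [sub_zero]⟩
    · rintro x y _ _ ⟨hx, hx'⟩ ⟨hy, hy'⟩
      refine ⟨fun β h => ?_, fun β h => ?_⟩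
      · rw [← add_assoc]; exact hy _ (hx _ h)
      · rw [sub_add_eq_sub_sub]; exact hy' _ (hx' _ h)
    · rintro x _ ⟨hx, hx'⟩
      refine ⟨fun β h => ?_, fun β h => ?_⟩
      · rw [← sub_eq_add_neg]; exact hx' _ h
      · rw [sub_neg_eq_add]; exact hx _ h
  exact key.1 β h

theorem one_sub_mem {g : Γ} {r : ℤ} (hr : r * r = 1) : 1 - MonoidAlgebra.single g r ∈ JJ Γ := by
  rw [mem_JJ, map_sub, map_one, aug_single]
  have : r = 1 ∨ r = -1 := by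
    have := Int.isUnit_iff.mp (IsUnit.of_mul_eq_one r hr)
    exact this
  rcases this with h | h <;> rw [h] <;> decide

/-- The element is congruent to `1 - η` for a unit `η = ± g`. -/
def UC (x : ↥(JJ Γ)) : Prop := ∃ (g : Γ) (r : ℤ), r * r = 1 ∧
    (1 - MonoidAlgebra.single g r) - (x : MonoidAlgebra ℤ Γ) ∈ JJ2 Γ

theorem UC.neg {x : ↥(JJ Γ)} (h : UC x) : UC (-x) := by
  obtain ⟨g, r, hr, h⟩ := h
  refine ⟨g⁻¹, r, hr, ?_⟩
  have h1 := (JJ2 Γ).sub_mem (mul_mem_JJ2 (one_sub_mem (g := g) hr) (one_sub_mem (g := g⁻¹) hr)) h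
  convert h1 using 1
  have e1 : (MonoidAlgebra.single g r : MonoidAlgebra ℤ Γ) * MonoidAlgebra.single g⁻¹ r = 1 := by
    rw [MonoidAlgebra.single_mul_single, mul_inv_cancel, hr, MonoidAlgebra.one_def]
  change (1 - MonoidAlgebra.single g⁻¹ r) - -(x : MonoidAlgebra ℤ Γ) = _
  rw [sub_mul, mul_sub, mul_sub, e1, one_mul, one_mul, mul_one]
  abel

theorem UC.add {x y : ↥(JJ Γ)} (hx : UC x) (hy : UC y) : UC (x + y) := by
  obtain ⟨g, r, hr, hx⟩ := hx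
  obtain ⟨h, s, hs, hy⟩ := hy
  refine ⟨g * h, r * s, by rw [mul_mul_mul_comm, hr, hs, one_mul], ?_⟩
  have h1 := (JJ2 Γ).add_mem ((JJ2 Γ).add_mem hx hy)
    ((JJ2 Γ).neg_mem (mul_mem_JJ2 (one_sub_mem (g := g) hr) (one_sub_mem (g := h) hs)))
  convert h1 using 1
  have e1 : (MonoidAlgebra.single g r : MonoidAlgebra ℤ Γ) * MonoidAlgebra.single h s =
      MonoidAlgebra.single (g * h) (r * s) := by
    rw [MonoidAlgebra.single_mul_single]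
  change (1 - MonoidAlgebra.single (g * h) (r * s)) - ((x : MonoidAlgebra ℤ Γ) + (y : MonoidAlgebra ℤ Γ)) = _
  rw [sub_mul, mul_sub, mul_sub, e1, one_mul, one_mul, mul_one]
  abel

/-- Every element of the ideal is congruent to `1 - η` for a unit `η = ± g`. -/
theorem exists_unit (x : ↥(JJ Γ)) : UC x := by
  refine JJ_induct (P := UC) ?_ (fun x y hx hy => hx.add hy) (fun x hx => hx.neg) ?_ ?_ x
  · refine ⟨1, 1, by norm_num, ?_⟩
    change (1 - MonoidAlgebra.single (1 : Γ) (1 : ℤ)) - (0 : MonoidAlgebra ℤ Γ) ∈ JJ2 Γ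
    rw [← MonoidAlgebra.one_def, sub_self, sub_zero]
    exact (JJ2 Γ).zero_mem
  · intro g
    have h1 : UC (-gm g) := ⟨g, 1, by norm_num, by
      change (1 - MonoidAlgebra.single g (1 : ℤ)) - -(MonoidAlgebra.single g (1 : ℤ) - 1) ∈ JJ2 Γ
      rw [neg_sub, sub_self]
      exact (JJ2 Γ).zero_mem⟩
    have h2 := h1.neg
    rwa [neg_neg] at h2
  · refine ⟨1, -1, by norm_num, ?_⟩
    change (1 - MonoidAlgebra.single (1 : Γ) (-1 : ℤ)) - (1 + 1) ∈ JJ2 Γ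
    rw [MonoidAlgebra.single_neg, ← MonoidAlgebra.one_def, sub_neg_eq_add, sub_self]
    exact (JJ2 Γ).zero_mem

theorem Good.plane {E : Matrix ι ι (MonoidAlgebra ℤ Γ)} {g : Γ} {r : ℤ} (hr : r * r = 1)
    (h : Good E 1 (1 - MonoidAlgebra.single g r)) : Good E 1 0 := by
  obtain ⟨k, n, a, h⟩ := h
  exact ⟨k, n, a, h.plane hr⟩

theorem Good.reduce {E : Matrix ι ι (MonoidAlgebra ℤ Γ)} {α β : MonoidAlgebra ℤ Γ}
    (hα : 1 - α ∈ JJ Γ) (hβ : β ∈ JJ Γ) (h : Good E α β) : Good E 1 0 := by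
  have h1 := h.move (wu := 1) (we := 0) hα (JJ Γ).zero_mem
  rw [mul_one, mul_zero, add_zero, add_sub_cancel] at h1
  obtain ⟨g, r, hr, hg⟩ := exists_unit ⟨β, hβ⟩
  have h2 := h1.add hg
  rw [add_sub_cancel] at h2
  exact h2.plane hr

end reach

end Pool.Agent.H750
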