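import Pool.Agent.H750.K.Stab

set_option autoImplicit false

/-! # The quadratic L-group and the visible symmetric Witt group as groups -/

namespace Pool.Agent.H750

open Matrix Pool.Agent.R791

variable {Γ : Type*} [Group Γ] {ι κ μ ν : Type*}

section stable

variable [Fintype ι] [DecidableEq ι] [Fintype κ] [DecidableEq κ] [Fintype μ] [DecidableEq μ]
  [Fintype ν] [DecidableEq ν]

/-- Stable isometry of even forms: isometry after adding hyperbolic forms. -/
def StabH (A : Matrix ι ι (MonoidAlgebra ℤ Γ)) (B : Matrix κ κ (MonoidAlgebra ℤ Γ)) : Prop :=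
  ∃ a b : ℕ, Isometric (osum A (hyp Γ (Fin a))) (osum B (hyp Γ (Fin b)))

/-- Witt equivalence of visible symmetric forms: isometry after adding metabolic forms. -/
def StabM (A : Matrix ι ι (MonoidAlgebra ℤ Γ)) (B : Matrix κ κ (MonoidAlgebra ℤ Γ)) : Prop :=
  ∃ (a b : ℕ) (S : Matrix (Fin a) (Fin a) (MonoidAlgebra ℤ Γ))
    (T : Matrix (Fin b) (Fin b) (MonoidAlgebra ℤ Γ)),
    (adj S = S ∧ Visible S) ∧ (adj T = T ∧ Visible T) ∧ Isometric (osum A (met S)) (osum B (met T))

theorem iso_hyp_fin (a b : ℕ) : Isometric (osum (hyp Γ (Fin a)) (hyp Γ (Fin b))) (hyp Γ (Fin (a + b))) :=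
  iso_hyp.trans (iso_hyp_equiv finSumFinEquiv)

theorem Isometric.stabH {A : Matrix ι ι (MonoidAlgebra ℤ Γ)} {B : Matrix κ κ (MonoidAlgebra ℤ Γ)}
    (h : Isometric A B) : StabH A B := ⟨0, 0, h.osum (Isometric.refl _)⟩

theorem StabH.symm {A : Matrix ι ι (MonoidAlgebra ℤ Γ)} {B : Matrix κ κ (MonoidAlgebra ℤ Γ)}
    (h : StabH A B) : StabH B A := by
  obtain ⟨a, b, h⟩ := h
  exact ⟨b, a, h.symm⟩

/-- adding a form on the right and regrouping -/
theorem iso_osum_right {A : Matrix ι ι (MonoidAlgebra ℤ Γ)} {B : Matrix κ κ (MonoidAlgebra ℤ Γ)}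
    {C : Matrix μ μ (MonoidAlgebra ℤ Γ)} : Isometric (osum (osum A B) C) (osum (osum A C) B) :=
  (iso_assoc A B C).trans (((Isometric.refl A).osum (iso_comm B C)).trans (iso_assoc A C B).symm)

theorem StabH.trans {A : Matrix ι ι (MonoidAlgebra ℤ Γ)} {B : Matrix κ κ (MonoidAlgebra ℤ Γ)}
    {C : Matrix μ μ (MonoidAlgebra ℤ Γ)} (h : StabH A B) (h' : StabH B C) : StabH A C := by
  obtain ⟨a, b, h⟩ := h
  obtain ⟨c, d, h'⟩ := h'
  refine ⟨a + c, d + b, ?_⟩
  have h1 : Isometric (osum A (hyp Γ (Fin (a + c)))) (osum (osum A (hyp Γ (Fin a))) (hyp Γ (Fin c))) :=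
    (((Isometric.refl A).osum (iso_hyp_fin a c)).symm).trans (iso_assoc _ _ _).symm
  have h2 : Isometric (osum (osum C (hyp Γ (Fin d))) (hyp Γ (Fin b))) (osum C (hyp Γ (Fin (d + b)))) :=
    (iso_assoc _ _ _).trans ((Isometric.refl C).osum (iso_hyp_fin d b))
  exact h1.trans ((h.osum (Isometric.refl _)).trans (iso_osum_right.trans
    ((h'.osum (Isometric.refl _)).trans h2)))

theorem iso_regroup {α β γ : Type*} [Fintype α] [DecidableEq α] [Fintype β] [DecidableEq β]
    [Fintype γ] [DecidableEq γ] (A : Matrix ι ι (MonoidAlgebra ℤ Γ))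
    (B : Matrix μ μ (MonoidAlgebra ℤ Γ)) {X : Matrix α α (MonoidAlgebra ℤ Γ)}
    {Y : Matrix β β (MonoidAlgebra ℤ Γ)} {Z : Matrix γ γ (MonoidAlgebra ℤ Γ)}
    (hXY : Isometric (osum X Y) Z) :
    Isometric (osum (osum A B) Z) (osum (osum A X) (osum B Y)) := by
  refine ((Isometric.refl _).osum hXY.symm).trans ?_
  refine (iso_assoc _ _ _).symm.trans ?_
  refine ((iso_osum_right).osum (Isometric.refl _)).trans ?_
  exact iso_assoc _ _ _

theorem StabH.osum {A : Matrix ι ι (MonoidAlgebra ℤ Γ)} {B : Matrix κ κ (MonoidAlgebra ℤ Γ)}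
    {A' : Matrix μ μ (MonoidAlgebra ℤ Γ)} {B' : Matrix ν ν (MonoidAlgebra ℤ Γ)}
    (h : StabH A A') (h' : StabH B B') : StabH (osum A B) (osum A' B') := by
  obtain ⟨a, b, h⟩ := h
  obtain ⟨c, d, h'⟩ := h'
  exact ⟨a + c, b + d, (iso_regroup A B (iso_hyp_fin a c)).trans
    ((h.osum h').trans (iso_regroup A' B' (iso_hyp_fin b d)).symm)⟩

theorem stabH_zero {A : Matrix ι ι (MonoidAlgebra ℤ Γ)} {a : ℕ}
    (h : Isometric A (hyp Γ (Fin a))) (Z : Matrix (Fin 0) (Fin 0) (MonoidAlgebra ℤ Γ)) : StabH A Z := by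
  refine ⟨0, a + 0, ?_⟩
  refine (h.osum (Isometric.refl _)).trans ((iso_hyp_fin a 0).trans ?_)
  have h1 := Isometric.submatrix (Pool.Agent.H750.osum Z (hyp Γ (Fin (a + 0))))
    (Equiv.emptySum (Fin 0) (Fin (a + 0) ⊕ Fin (a + 0))).symm
  refine Isometric.symm ?_
  convert h1 using 1
  ext1 x y
  rfl

/-! ### Witt equivalence -/

theorem visible_sum {a b : ℕ} {S : Matrix (Fin a) (Fin a) (MonoidAlgebra ℤ Γ)}
    {T : Matrix (Fin b) (Fin b) (MonoidAlgebra ℤ Γ)} (hS : adj S = S ∧ Visible S)
    (hT : adj T = T ∧ Visible T) :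
    ∃ U : Matrix (Fin (a + b)) (Fin (a + b)) (MonoidAlgebra ℤ Γ), (adj U = U ∧ Visible U) ∧
      Isometric (osum (met S) (met T)) (met U) := by
  refine ⟨(osum S T).submatrix finSumFinEquiv.symm finSumFinEquiv.symm, ⟨?_, ?_⟩, ?_⟩
  · have h := adj_osum hS.1 hT.1
    ext1 i j
    exact congrFun (congrFun h _) _
  · exact visible_submatrix (visible_osum hS.2 hT.2) _
  · refine (iso_met S T).trans ?_
    have h := Isometric.submatrix (met (osum S T))
      (Equiv.sumCongr finSumFinEquiv.symm finSumFinEquiv.symm)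
    convert h using 1
    ext1 x y
    rcases x with x | x <;> rcases y with y | y
    · rfl
    · simp [met, Matrix.one_apply]
    · simp [met, Matrix.one_apply]
    · rfl

theorem Isometric.stabM {A : Matrix ι ι (MonoidAlgebra ℤ Γ)} {B : Matrix κ κ (MonoidAlgebra ℤ Γ)}
    (h : Isometric A B) : StabM A B :=
  ⟨0, 0, 0, 0, ⟨adj_zero, fun i => i.elim0⟩, ⟨adj_zero, fun i => i.elim0⟩, h.osum (Isometric.refl _)⟩

theorem StabM.symm {A : Matrix ι ι (MonoidAlgebra ℤ Γ)} {B : Matrix κ κ (MonoidAlgebra ℤ Γ)}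
    (h : StabM A B) : StabM B A := by
  obtain ⟨a, b, S, T, hS, hT, h⟩ := h
  exact ⟨b, a, T, S, hT, hS, h.symm⟩

theorem StabM.trans {A : Matrix ι ι (MonoidAlgebra ℤ Γ)} {B : Matrix κ κ (MonoidAlgebra ℤ Γ)}
    {C : Matrix μ μ (MonoidAlgebra ℤ Γ)} (h : StabM A B) (h' : StabM B C) : StabM A C := by
  obtain ⟨a, b, S, T, hS, hT, h⟩ := h
  obtain ⟨c, d, S', T', hS', hT', h'⟩ := h'
  obtain ⟨U, hU, hU'⟩ := visible_sum hS hS'
  obtain ⟨V, hV, hV'⟩ := visible_sum hT' hT
  refine ⟨a + c, d + b, U, V, hU, hV, ?_⟩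
  have h1 : Isometric (osum A (met U)) (osum (osum A (met S)) (met S')) :=
    (((Isometric.refl A).osum hU').symm).trans (iso_assoc _ _ _).symm
  have h2 : Isometric (osum (osum C (met T')) (met T)) (osum C (met V)) :=
    (iso_assoc _ _ _).trans ((Isometric.refl C).osum hV')
  exact h1.trans ((h.osum (Isometric.refl _)).trans (iso_osum_right.trans
    ((h'.osum (Isometric.refl _)).trans h2)))

theorem StabM.osum {A : Matrix ι ι (MonoidAlgebra ℤ Γ)} {B : Matrix κ κ (MonoidAlgebra ℤ Γ)}
    {A' : Matrix μ μ (MonoidAlgebra ℤ Γ)} {B' : Matrix ν ν (MonoidAlgebra ℤ Γ)}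
    (h : StabM A A') (h' : StabM B B') : StabM (osum A B) (osum A' B') := by
  obtain ⟨a, b, S, T, hS, hT, h⟩ := h
  obtain ⟨c, d, S', T', hS', hT', h'⟩ := h'
  obtain ⟨U, hU, hU'⟩ := visible_sum hS hS'
  obtain ⟨V, hV, hV'⟩ := visible_sum hT hT'
  exact ⟨a + c, b + d, U, V, hU, hV, (iso_regroup A B hU').trans
    ((h.osum h').trans (iso_regroup A' B' hV').symm)⟩

theorem StabH.stabM {A : Matrix ι ι (MonoidAlgebra ℤ Γ)} {B : Matrix κ κ (MonoidAlgebra ℤ Γ)}
    (h : StabH A B) : StabM A B := by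
  obtain ⟨a, b, h⟩ := h
  exact ⟨a, b, 0, 0, ⟨adj_zero, fun i s _ _ => Even.zero⟩, ⟨adj_zero, fun i s _ _ => Even.zero⟩, h⟩

theorem stabM_zero {A : Matrix ι ι (MonoidAlgebra ℤ Γ)} {a : ℕ}
    {S : Matrix (Fin a) (Fin a) (MonoidAlgebra ℤ Γ)} (hS : adj S = S ∧ Visible S)
    (h : Isometric A (met S)) (Z : Matrix (Fin 0) (Fin 0) (MonoidAlgebra ℤ Γ)) : StabM A Z := by
  obtain ⟨U, hU, hU'⟩ := visible_sum hS (T := (0 : Matrix (Fin 0) (Fin 0) (MonoidAlgebra ℤ Γ)))
    ⟨adj_zero, fun i => i.elim0⟩
  refine ⟨0, a + 0, 0, U, ⟨adj_zero, fun i => i.elim0⟩, hU, ?_⟩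
  refine (h.osum (Isometric.refl _)).trans (hU'.trans ?_)
  have h1 := Isometric.submatrix (Pool.Agent.H750.osum Z (met U))
    (Equiv.emptySum (Fin 0) (Fin (a + 0) ⊕ Fin (a + 0))).symm
  refine Isometric.symm ?_
  convert h1 using 1
  ext1 x y
  rfl

end stable

/-! ### the group of even forms -/

/-- Nonsingular even (that is, quadratic) forms over the integral group ring. -/
structure EForm (Γ : Type*) [Group Γ] where
  /-- the rank -/
  n : ℕ
  /-- the matrix -/
  mat : Matrix (Fin n) (Fin n) (MonoidAlgebra ℤ Γ)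
  even : IsEvenForm mat
  unit : IsUnit mat

instance EForm.setoid (Γ : Type*) [Group Γ] : Setoid (EForm Γ) where
  r A B := StabH A.mat B.mat
  iseqv := ⟨fun A => (Isometric.refl A.mat).stabH, fun h => h.symm, fun h h' => h.trans h'⟩

/-- The quadratic L-group `L_0^h(ℤΓ)`: stable isometry classes of nonsingular even forms. -/
def L0 (Γ : Type*) [Group Γ] : Type _ := Quotient (EForm.setoid Γ)

/-- The class of a form. -/
def L0.mk (A : EForm Γ) : L0 Γ := Quotient.mk (EForm.setoid Γ) A

/-- Nonsingular visible symmetric forms over the integral group ring. -/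
structure VForm (Γ : Type*) [Group Γ] where
  /-- the rank -/
  n : ℕ
  /-- the matrix -/
  mat : Matrix (Fin n) (Fin n) (MonoidAlgebra ℤ Γ)
  symm : adj mat = mat
  visible : Visible mat
  unit : IsUnit mat

instance VForm.setoid (Γ : Type*) [Group Γ] : Setoid (VForm Γ) where
  r A B := StabM A.mat B.mat
  iseqv := ⟨fun A => (Isometric.refl A.mat).stabM, fun h => h.symm, fun h h' => h.trans h'⟩

/-- The Witt group of nonsingular visible symmetric forms over `ℤΓ`. -/
def Wv (Γ : Type*) [Group Γ] : Type _ := Quotient (VForm.setoid Γ)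

/-- The class of a form. -/
def Wv.mk (A : VForm Γ) : Wv Γ := Quotient.mk (VForm.setoid Γ) A

section cls

variable [Fintype ι] [DecidableEq ι] [Fintype κ] [DecidableEq κ]

/-- The class of a nonsingular even form with any finite index type. -/
noncomputable def L0.cls (A : Matrix ι ι (MonoidAlgebra ℤ Γ)) (he : IsEvenForm A) (hu : IsUnit A) :
    L0 Γ :=
  L0.mk ⟨Fintype.card ι, A.submatrix (Fintype.equivFin ι).symm (Fintype.equivFin ι).symm,
    even_submatrix he _, unit_congr (Isometric.submatrix A _) hu⟩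

theorem L0.cls_eq_iff {A : Matrix ι ι (MonoidAlgebra ℤ Γ)} {he : IsEvenForm A} {hu : IsUnit A}
    {B : Matrix κ κ (MonoidAlgebra ℤ Γ)} {he' : IsEvenForm B} {hu' : IsUnit B} :
    L0.cls A he hu = L0.cls B he' hu' ↔ StabH A B := by
  have h1 : StabH A (A.submatrix (Fintype.equivFin ι).symm (Fintype.equivFin ι).symm) :=
    (Isometric.submatrix A _).stabH
  have h2 : StabH B (B.submatrix (Fintype.equivFin κ).symm (Fintype.equivFin κ).symm) :=
    (Isometric.submatrix B _).stabH
  constructor
  · intro h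
    have h3 : StabH (A.submatrix (Fintype.equivFin ι).symm (Fintype.equivFin ι).symm)
      (B.submatrix (Fintype.equivFin κ).symm (Fintype.equivFin κ).symm) := Quotient.exact h
    exact h1.trans (h3.trans h2.symm)
  · intro h
    exact Quotient.sound (h1.symm.trans (h.trans h2))

theorem L0.exists_cls (x : L0 Γ) : ∃ (n : ℕ) (A : Matrix (Fin n) (Fin n) (MonoidAlgebra ℤ Γ))
    (he : IsEvenForm A) (hu : IsUnit A), x = L0.cls A he hu := by
  induction x using Quotient.inductionOn with
  | h X => exact ⟨X.n, X.mat, X.even, X.unit, Quotient.sound (Isometric.submatrix X.mat _).stabH⟩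

/-- The class of a nonsingular visible symmetric form with any finite index type. -/
noncomputable def Wv.cls (A : Matrix ι ι (MonoidAlgebra ℤ Γ)) (hs : adj A = A) (hv : Visible A)
    (hu : IsUnit A) : Wv Γ :=
  Wv.mk ⟨Fintype.card ι, A.submatrix (Fintype.equivFin ι).symm (Fintype.equivFin ι).symm,
    adj_congr (Isometric.submatrix A _) hs, visible_submatrix hv _,
    unit_congr (Isometric.submatrix A _) hu⟩

theorem Wv.cls_eq_iff {A : Matrix ι ι (MonoidAlgebra ℤ Γ)} {hs : adj A = A} {hv : Visible A}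
    {hu : IsUnit A} {B : Matrix κ κ (MonoidAlgebra ℤ Γ)} {hs' : adj B = B} {hv' : Visible B}
    {hu' : IsUnit B} : Wv.cls A hs hv hu = Wv.cls B hs' hv' hu' ↔ StabM A B := by
  have h1 : StabM A (A.submatrix (Fintype.equivFin ι).symm (Fintype.equivFin ι).symm) :=
    (Isometric.submatrix A _).stabM
  have h2 : StabM B (B.submatrix (Fintype.equivFin κ).symm (Fintype.equivFin κ).symm) :=
    (Isometric.submatrix B _).stabM
  constructor
  · intro h
    have h3 : StabM (A.submatrix (Fintype.equivFin ι).symm (Fintype.equivFin ι).symm)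
      (B.submatrix (Fintype.equivFin κ).symm (Fintype.equivFin κ).symm) := Quotient.exact h
    exact h1.trans (h3.trans h2.symm)
  · intro h
    exact Quotient.sound (h1.symm.trans (h.trans h2))

theorem Wv.exists_cls (x : Wv Γ) : ∃ (n : ℕ) (A : Matrix (Fin n) (Fin n) (MonoidAlgebra ℤ Γ))
    (hs : adj A = A) (hv : Visible A) (hu : IsUnit A), x = Wv.cls A hs hv hu := by
  induction x using Quotient.inductionOn with
  | h X => exact ⟨X.n, X.mat, X.symm, X.visible, X.unit,
      Quotient.sound (Isometric.submatrix X.mat _).stabM⟩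

end cls

/-! ### addition -/

/-- Orthogonal sum. -/
noncomputable def EForm.add (A B : EForm Γ) : EForm Γ :=
  ⟨A.n + B.n, (osum A.mat B.mat).submatrix finSumFinEquiv.symm finSumFinEquiv.symm,
    even_submatrix (even_osum A.even B.even) _,
    unit_congr (Isometric.submatrix _ _) (unit_osum A.unit B.unit)⟩

theorem EForm.add_iso (A B : EForm Γ) : Isometric (A.add B).mat (osum A.mat B.mat) :=
  (Isometric.submatrix (osum A.mat B.mat) finSumFinEquiv.symm).symm

/-- The negative of a form. -/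
noncomputable def EForm.neg (A : EForm Γ) : EForm Γ := ⟨A.n, -A.mat, even_neg A.even, A.unit.neg⟩

/-- The zero form. -/
noncomputable def EForm.zero (Γ : Type*) [Group Γ] : EForm Γ :=
  ⟨0, 0, ⟨0, by rw [adj_zero, add_zero]⟩, ⟨1, Subsingleton.elim _ _⟩⟩

theorem Isometric.neg [Fintype ι] [DecidableEq ι] [Fintype κ] [DecidableEq κ]
    {A : Matrix ι ι (MonoidAlgebra ℤ Γ)} {B : Matrix κ κ (MonoidAlgebra ℤ Γ)}
    (h : Isometric A B) : Isometric (-A) (-B) := by
  obtain ⟨P, Q, h1, h2, h3⟩ := h
  exact ⟨P, Q, h1, h2, by rw [Matrix.mul_neg, Matrix.neg_mul, h3]⟩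

theorem iso_zero [Fintype ι] [DecidableEq ι] (A : Matrix ι ι (MonoidAlgebra ℤ Γ))
    (Z : Matrix (Fin 0) (Fin 0) (MonoidAlgebra ℤ Γ)) : Isometric (osum Z A) A := by
  have h1 := Isometric.submatrix (osum Z A) (Equiv.emptySum (Fin 0) ι).symm
  convert h1 using 1
  ext1 x y
  rfl

theorem EForm.neg_sound {A B : EForm Γ} (h : A ≈ B) : A.neg ≈ B.neg := by
  have h' : StabH A.mat B.mat := h
  obtain ⟨a, b, h'⟩ := h'
  refine ⟨a, b, ?_⟩
  have key : ∀ {n : ℕ} (X : Matrix (Fin n) (Fin n) (MonoidAlgebra ℤ Γ)) (c : ℕ),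
      Isometric (osum (-X) (hyp Γ (Fin c))) (-(osum X (hyp Γ (Fin c)))) := by
    intro n X c
    refine ⟨fromBlocks 1 0 0 (fromBlocks 1 0 0 (-1)), fromBlocks 1 0 0 (fromBlocks 1 0 0 (-1)),
      ?_, ?_, ?_⟩
    · rw [Matrix.fromBlocks_multiply, ← Matrix.fromBlocks_one]
      simp only [Matrix.fromBlocks_multiply, ← Matrix.fromBlocks_one]
      simp
    · rw [Matrix.fromBlocks_multiply, ← Matrix.fromBlocks_one]
      simp only [Matrix.fromBlocks_multiply, ← Matrix.fromBlocks_one]
      simp
    · unfold osum hyp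
      simp only [adj_fromBlocks, adj_one, adj_zero, adj_neg, Matrix.fromBlocks_neg]
      simp [Matrix.fromBlocks_multiply]
  exact (key A.mat a).trans (h'.neg.trans (key B.mat b).symm)

noncomputable instance : Add (L0 Γ) where
  add := Quotient.map₂ EForm.add (fun A A' h B B' h' =>
    (A.add_iso B).stabH.trans ((StabH.osum h h').trans (A'.add_iso B').stabH.symm))

noncomputable instance : Zero (L0 Γ) where
  zero := Quotient.mk _ (EForm.zero Γ)

noncomputable instance : Neg (L0 Γ) where
  neg := Quotient.map EForm.neg (fun _ _ h => EForm.neg_sound h)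

theorem L0.mk_add (A B : EForm Γ) : L0.mk A + L0.mk B = L0.mk (A.add B) := rfl

noncomputable instance : AddCommGroup (L0 Γ) where
  add_assoc x y z := by
    induction x using Quotient.inductionOn with
    | h A =>
    induction y using Quotient.inductionOn with
    | h B =>
    induction z using Quotient.inductionOn with
    | h C =>
    change L0.mk A + L0.mk B + L0.mk C = L0.mk A + (L0.mk B + L0.mk C)
    rw [L0.mk_add, L0.mk_add, L0.mk_add, L0.mk_add]
    refine Quotient.sound (Isometric.stabH ?_)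
    refine (EForm.add_iso _ _).trans (((A.add_iso B).osum (Isometric.refl _)).trans ?_)
    refine (iso_assoc _ _ _).trans ?_
    exact ((Isometric.refl _).osum (B.add_iso C).symm).trans (EForm.add_iso _ _).symm
  zero_add x := by
    induction x using Quotient.inductionOn with
    | h A =>
    refine (L0.mk_add (EForm.zero Γ) A).trans (Quotient.sound (Isometric.stabH ?_))
    exact (EForm.add_iso _ _).trans (iso_zero A.mat _)
  add_zero x := by
    induction x using Quotient.inductionOn with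
    | h A =>
    refine (L0.mk_add A (EForm.zero Γ)).trans (Quotient.sound (Isometric.stabH ?_))
    exact (EForm.add_iso _ _).trans ((iso_comm _ _).trans (iso_zero A.mat _))
  neg_add_cancel x := by
    induction x using Quotient.inductionOn with
    | h A =>
    refine (L0.mk_add A.neg A).trans (Quotient.sound ?_)
    have h1 : Isometric (A.neg.add A).mat (osum (-A.mat) A.mat) := EForm.add_iso A.neg A
    have h2 : StabH (A.neg.add A).mat (EForm.zero Γ).mat :=
      stabH_zero (a := A.n) (h1.trans (iso_neg_even A.even A.unit)) _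
    exact h2
  add_comm x y := by
    induction x using Quotient.inductionOn with
    | h A =>
    induction y using Quotient.inductionOn with
    | h B =>
    change L0.mk A + L0.mk B = L0.mk B + L0.mk A
    rw [L0.mk_add, L0.mk_add]
    apply Quotient.sound
    exact ((A.add_iso B).trans ((iso_comm _ _).trans (B.add_iso A).symm)).stabH
  nsmul := nsmulRec
  zsmul := zsmulRec

/-- Orthogonal sum. -/
noncomputable def VForm.add (A B : VForm Γ) : VForm Γ :=
  ⟨A.n + B.n, (osum A.mat B.mat).submatrix finSumFinEquiv.symm finSumFinEquiv.symm,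
    adj_congr (Isometric.submatrix _ _) (adj_osum A.symm B.symm),
    visible_submatrix (visible_osum A.visible B.visible) _,
    unit_congr (Isometric.submatrix _ _) (unit_osum A.unit B.unit)⟩

theorem VForm.add_iso (A B : VForm Γ) : Isometric (A.add B).mat (osum A.mat B.mat) :=
  (Isometric.submatrix (osum A.mat B.mat) finSumFinEquiv.symm).symm

/-- The negative of a form. -/
noncomputable def VForm.neg (A : VForm Γ) : VForm Γ :=
  ⟨A.n, -A.mat, by rw [adj_neg, A.symm], visible_neg A.visible, A.unit.neg⟩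

/-- The zero form. -/
noncomputable def VForm.zero (Γ : Type*) [Group Γ] : VForm Γ :=
  ⟨0, 0, adj_zero, fun i => i.elim0, ⟨1, Subsingleton.elim _ _⟩⟩

theorem VForm.neg_sound {A B : VForm Γ} (h : A ≈ B) : A.neg ≈ B.neg := by
  have h' : StabM A.mat B.mat := h
  obtain ⟨a, b, S, T, hS, hT, h'⟩ := h'
  refine ⟨a, b, -S, -T, ⟨by rw [adj_neg, hS.1], visible_neg hS.2⟩,
    ⟨by rw [adj_neg, hT.1], visible_neg hT.2⟩, ?_⟩
  have key : ∀ {n : ℕ} (X : Matrix (Fin n) (Fin n) (MonoidAlgebra ℤ Γ)) (c : ℕ)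
      (S : Matrix (Fin c) (Fin c) (MonoidAlgebra ℤ Γ)),
      Isometric (osum (-X) (met (-S))) (-(osum X (met S))) := by
    intro n X c S
    refine ⟨fromBlocks 1 0 0 (fromBlocks (-1) 0 0 1), fromBlocks 1 0 0 (fromBlocks (-1) 0 0 1),
      ?_, ?_, ?_⟩
    · rw [Matrix.fromBlocks_multiply, ← Matrix.fromBlocks_one]
      simp only [Matrix.fromBlocks_multiply, ← Matrix.fromBlocks_one]
      simp
    · rw [Matrix.fromBlocks_multiply, ← Matrix.fromBlocks_one]
      simp only [Matrix.fromBlocks_multiply, ← Matrix.fromBlocks_one]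
      simp
    · unfold osum met
      simp only [adj_fromBlocks, adj_one, adj_zero, adj_neg, Matrix.fromBlocks_neg]
      simp [Matrix.fromBlocks_multiply]
  exact (key A.mat a S).trans (h'.neg.trans (key B.mat b T).symm)

noncomputable instance : Add (Wv Γ) where
  add := Quotient.map₂ VForm.add (fun A A' h B B' h' =>
    (A.add_iso B).stabM.trans ((StabM.osum h h').trans (A'.add_iso B').stabM.symm))

noncomputable instance : Zero (Wv Γ) where
  zero := Quotient.mk _ (VForm.zero Γ)

noncomputable instance : Neg (Wv Γ) where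
  neg := Quotient.map VForm.neg (fun _ _ h => VForm.neg_sound h)

theorem Wv.mk_add (A B : VForm Γ) : Wv.mk A + Wv.mk B = Wv.mk (A.add B) := rfl

noncomputable instance : AddCommGroup (Wv Γ) where
  add_assoc x y z := by
    induction x using Quotient.inductionOn with
    | h A =>
    induction y using Quotient.inductionOn with
    | h B =>
    induction z using Quotient.inductionOn with
    | h C =>
    change Wv.mk A + Wv.mk B + Wv.mk C = Wv.mk A + (Wv.mk B + Wv.mk C)
    rw [Wv.mk_add, Wv.mk_add, Wv.mk_add, Wv.mk_add]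
    refine Quotient.sound (Isometric.stabM ?_)
    refine (VForm.add_iso _ _).trans (((A.add_iso B).osum (Isometric.refl _)).trans ?_)
    refine (iso_assoc _ _ _).trans ?_
    exact ((Isometric.refl _).osum (B.add_iso C).symm).trans (VForm.add_iso _ _).symm
  zero_add x := by
    induction x using Quotient.inductionOn with
    | h A =>
    refine (Wv.mk_add (VForm.zero Γ) A).trans (Quotient.sound (Isometric.stabM ?_))
    exact (VForm.add_iso _ _).trans (iso_zero A.mat _)
  add_zero x := by
    induction x using Quotient.inductionOn with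
    | h A =>
    refine (Wv.mk_add A (VForm.zero Γ)).trans (Quotient.sound (Isometric.stabM ?_))
    exact (VForm.add_iso _ _).trans ((iso_comm _ _).trans (iso_zero A.mat _))
  neg_add_cancel x := by
    induction x using Quotient.inductionOn with
    | h A =>
    refine (Wv.mk_add A.neg A).trans (Quotient.sound ?_)
    obtain ⟨U, hU⟩ := A.unit
    have h2 := adj_inv A.symm U hU
    have h1 : Isometric (A.neg.add A).mat (osum (-A.mat) A.mat) := VForm.add_iso A.neg A
    have h3 : StabM (A.neg.add A).mat (VForm.zero Γ).mat :=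
      stabM_zero (a := A.n) ⟨h2.1, visible_congr' h2.2 A.symm A.visible⟩
        (h1.trans (iso_neg A.symm U hU)) _
    exact h3
  add_comm x y := by
    induction x using Quotient.inductionOn with
    | h A =>
    induction y using Quotient.inductionOn with
    | h B =>
    change Wv.mk A + Wv.mk B = Wv.mk B + Wv.mk A
    rw [Wv.mk_add, Wv.mk_add]
    apply Quotient.sound
    exact ((A.add_iso B).trans ((iso_comm _ _).trans (B.add_iso A).symm)).stabM
  nsmul := nsmulRec
  zsmul := zsmulRec

section cls2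

variable [Fintype ι] [DecidableEq ι] [Fintype κ] [DecidableEq κ]

theorem L0.cls_osum {A : Matrix ι ι (MonoidAlgebra ℤ Γ)} (he : IsEvenForm A) (hu : IsUnit A)
    {B : Matrix κ κ (MonoidAlgebra ℤ Γ)} (he' : IsEvenForm B) (hu' : IsUnit B) :
    L0.cls (osum A B) (even_osum he he') (unit_osum hu hu') = L0.cls A he hu + L0.cls B he' hu' := by
  unfold L0.cls
  rw [L0.mk_add]
  refine Quotient.sound (Isometric.stabH ?_)
  refine (Isometric.submatrix _ _).symm.trans ?_
  refine Isometric.trans ?_ (EForm.add_iso _ _).symm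
  exact (Isometric.submatrix _ _).osum (Isometric.submatrix _ _)

theorem L0.cls_hyp : L0.cls (hyp Γ ι) even_hyp unit_hyp = 0 := by
  refine Quotient.sound ?_
  refine stabH_zero (a := Fintype.card ι) ?_ _
  exact (Isometric.submatrix _ _).symm.trans (iso_hyp_equiv (Fintype.equivFin ι))

theorem L0.cls_eq_zero {A : Matrix ι ι (MonoidAlgebra ℤ Γ)} (he : IsEvenForm A) (hu : IsUnit A)
    (h : Isometric A (hyp Γ κ)) : L0.cls A he hu = 0 := by
  rw [← L0.cls_hyp (ι := κ)]
  exact L0.cls_eq_iff.mpr h.stabH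

theorem Wv.cls_osum {A : Matrix ι ι (MonoidAlgebra ℤ Γ)} (hs : adj A = A) (hv : Visible A)
    (hu : IsUnit A) {B : Matrix κ κ (MonoidAlgebra ℤ Γ)} (hs' : adj B = B) (hv' : Visible B)
    (hu' : IsUnit B) :
    Wv.cls (osum A B) (adj_osum hs hs') (visible_osum hv hv') (unit_osum hu hu') =
      Wv.cls A hs hv hu + Wv.cls B hs' hv' hu' := by
  unfold Wv.cls
  rw [Wv.mk_add]
  refine Quotient.sound (Isometric.stabM ?_)
  refine (Isometric.submatrix _ _).symm.trans ?_
  refine Isometric.trans ?_ (VForm.add_iso _ _).symm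
  exact (Isometric.submatrix _ _).osum (Isometric.submatrix _ _)

theorem Wv.cls_zero (Z : Matrix (Fin 0) (Fin 0) (MonoidAlgebra ℤ Γ)) (hs : adj Z = Z)
    (hv : Visible Z) (hu : IsUnit Z) : Wv.cls Z hs hv hu = 0 := by
  refine Quotient.sound (Isometric.stabM ?_)
  refine (Isometric.submatrix _ _).symm.trans ?_
  change Isometric Z (0 : Matrix (Fin 0) (Fin 0) (MonoidAlgebra ℤ Γ))
  rw [Subsingleton.elim Z 0]
  exact Isometric.refl _

end cls2

/-- The visible symmetric form underlying an even form. -/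
def EForm.toV (A : EForm Γ) : VForm Γ :=
  ⟨A.n, A.mat, adj_even _ A.even, visible_of_isEvenForm A.even, A.unit⟩

/-- Symmetrisation: a quadratic form is in particular a visible symmetric form. -/
noncomputable def symmetrisation (Γ : Type*) [Group Γ] : L0 Γ →+ Wv Γ :=
  AddMonoidHom.mk' (Quotient.map EForm.toV (fun _ _ h => StabH.stabM h)) (by
      intro x y
      induction x using Quotient.inductionOn with
      | h A =>
      induction y using Quotient.inductionOn with
      | h B => rfl)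

theorem symmetrisation_cls [Fintype ι] [DecidableEq ι] {A : Matrix ι ι (MonoidAlgebra ℤ Γ)}
    (he : IsEvenForm A) (hu : IsUnit A) :
    symmetrisation Γ (L0.cls A he hu) = Wv.cls A (adj_even A he) (visible_of_isEvenForm he) hu := rfl

end Pool.Agent.H750
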