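import Pool.Agent.H750.K.Theta
import Pool.Agent.H750.K.Defs
import Mathlib.RepresentationTheory.Homological.GroupHomology.LowDegree

set_option autoImplicit false

/-! # The homomorphism from the second homology group -/

namespace Pool.Agent.H750

open Matrix Pool.Agent.R791

section general

variable {Γ : Type*} [Group Γ]

/-- products -/
noncomputable def pz (Γ : Type*) [Group Γ] : (Γ × Γ →₀ ℤ) →+ MonoidAlgebra ℤ Γ :=
  Finsupp.liftAddHom fun x => zmultiplesHom _
    (((gm x.1 : ↥(JJ Γ)) : MonoidAlgebra ℤ Γ) * ((gm x.2 : ↥(JJ Γ)) : MonoidAlgebra ℤ Γ))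

theorem pz_single (x : Γ × Γ) (n : ℤ) : pz Γ (Finsupp.single x n) =
    n • (((gm x.1 : ↥(JJ Γ)) : MonoidAlgebra ℤ Γ) * ((gm x.2 : ↥(JJ Γ)) : MonoidAlgebra ℤ Γ)) := by
  unfold pz
  rw [Finsupp.liftAddHom_apply_single]; rfl

/-- the differential -/
noncomputable def ddZ (Γ : Type*) [Group Γ] : (Γ × Γ →₀ ℤ) →+ (Γ →₀ ℤ) :=
  Finsupp.liftAddHom fun x => Finsupp.singleAddHom x.2 - Finsupp.singleAddHom (x.1 * x.2) +
    Finsupp.singleAddHom x.1

theorem ddZ_single (x : Γ × Γ) (n : ℤ) : ddZ Γ (Finsupp.single x n) =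
    Finsupp.single x.2 n - Finsupp.single (x.1 * x.2) n + Finsupp.single x.1 n := by
  unfold ddZ
  rw [Finsupp.liftAddHom_apply_single]; rfl

theorem dd_single (x : Γ × Γ) (n : ZMod 2) : dd Γ (Finsupp.single x n) =
    Finsupp.single x.2 n - Finsupp.single (x.1 * x.2) n + Finsupp.single x.1 n := by
  unfold dd
  rw [Finsupp.liftAddHom_apply_single]; rfl

theorem dd_red (n : Γ × Γ →₀ ℤ) : dd Γ (red _ n) = red _ (ddZ Γ n) := by
  induction n using Finsupp.induction_linear with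
  | zero => simp
  | add a b ha hb => rw [map_add, map_add, ha, hb, map_add, map_add]
  | single x n =>
    rw [red_single, dd_single, ddZ_single, map_add, map_sub, red_single, red_single, red_single]

/-- the sum of the coefficients -/
noncomputable def tot (α : Type*) : (α →₀ ℤ) →+ ℤ := Finsupp.liftAddHom fun _ => AddMonoidHom.id ℤ

theorem tot_single {α : Type*} (x : α) (n : ℤ) : tot α (Finsupp.single x n) = n := by
  unfold tot
  rw [Finsupp.liftAddHom_apply_single]; rfl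

theorem tot_ddZ (n : Γ × Γ →₀ ℤ) : tot _ (ddZ Γ n) = tot _ n := by
  induction n using Finsupp.induction_linear with
  | zero => simp
  | add a b ha hb => rw [map_add, map_add, ha, hb, map_add]
  | single x n =>
    rw [ddZ_single, map_add, map_sub, tot_single, tot_single, tot_single, tot_single]; ring

theorem pz_coeff (n : Γ × Γ →₀ ℤ) :
    (pz Γ n).coeff = -ddZ Γ n + Finsupp.single 1 (tot _ n) := by
  induction n using Finsupp.induction_linear with
  | zero => simp
  | add a b ha hb =>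
    rw [map_add, MonoidAlgebra.coeff_add, ha, hb, map_add, map_add, Finsupp.single_add]
    abel
  | single x n =>
    rw [pz_single, ddZ_single, tot_single]
    have h : ((gm x.1 : ↥(JJ Γ)) : MonoidAlgebra ℤ Γ) * ((gm x.2 : ↥(JJ Γ)) : MonoidAlgebra ℤ Γ) =
        MonoidAlgebra.single (x.1 * x.2) 1 - MonoidAlgebra.single x.1 1 -
          MonoidAlgebra.single x.2 1 + MonoidAlgebra.single 1 1 := by
      change (MonoidAlgebra.single x.1 1 - 1) * (MonoidAlgebra.single x.2 1 - 1) = _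
      rw [sub_mul, mul_sub, mul_sub, MonoidAlgebra.single_mul_single, one_mul, mul_one, mul_one,
        one_mul, ← MonoidAlgebra.one_def]
      abel
    rw [h, MonoidAlgebra.coeff_smul, MonoidAlgebra.coeff_add, MonoidAlgebra.coeff_sub,
      MonoidAlgebra.coeff_sub]
    simp only [MonoidAlgebra.coeff_single, smul_add, smul_sub, Finsupp.smul_single, smul_eq_mul,
      mul_one]
    abel

theorem sT_thetaZ (n : Γ × Γ →₀ ℤ) : sT Γ (thetaZ Γ n) = pz Γ n + bar (pz Γ n) := by
  induction n using Finsupp.induction_linear with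
  | zero => simp
  | add a b ha hb => rw [map_add, map_add, ha, hb, map_add, bar_add]; abel
  | single x n =>
    rw [thetaZ_single, pz_single, map_zsmul, bar_zsmul, ← smul_add]
    congr 1
    unfold EE
    rw [sT_tb]
    have h : bar ((gm x.2⁻¹ : ↥(JJ Γ)) : MonoidAlgebra ℤ Γ) = ((gm x.2 : ↥(JJ Γ)) : MonoidAlgebra ℤ Γ) := by
      change bar (MonoidAlgebra.single x.2⁻¹ 1 - 1) = MonoidAlgebra.single x.2 1 - 1
      rw [sub_eq_add_neg, bar_add, bar_neg', bar_single, bar_one, inv_inv, ← sub_eq_add_neg]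
    rw [h, bar_mul]
    congr 2
    rw [← h, bar_bar]

theorem red_eq_zero {α : Type*} {n : α →₀ ℤ} (h : red α n = 0) : ∃ m, n = m + m := by
  have h1 : ∀ x, Even (n x) := by
    intro x
    have h2 := DFunLike.congr_fun h x
    have h3 : red α n x = ((n x : ℤ) : ZMod 2) := by
      unfold red; simp
    rw [h3] at h2
    exact (ZMod.intCast_eq_zero_iff_even).mp h2
  refine ⟨n.mapRange (fun k => k / 2) (by simp), ?_⟩
  ext x
  rw [Finsupp.add_apply, Finsupp.mapRange_apply]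
  obtain ⟨k, hk⟩ := h1 x
  rw [hk]; omega

/-- the conjugate of an element of the ideal -/
noncomputable def jbar (w : ↥(JJ Γ)) : ↥(JJ Γ) := ⟨bar (w : MonoidAlgebra ℤ Γ), by
  rw [mem_JJ, aug_bar]; exact w.2⟩

theorem aug_pz (n : Γ × Γ →₀ ℤ) : aug (pz Γ n) = 0 := by
  induction n using Finsupp.induction_linear with
  | zero => simp
  | add a b ha hb => rw [map_add, map_add, ha, hb, add_zero]
  | single x n =>
    rw [pz_single, map_zsmul, map_mul]
    have h : aug ((gm x.1 : ↥(JJ Γ)) : MonoidAlgebra ℤ Γ) = 0 := by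
      change aug (MonoidAlgebra.single x.1 1 - 1) = 0
      rw [map_sub, aug_single, map_one, sub_self]
    rw [h, zero_mul, smul_zero]

/-- Data for a cycle: an integral chain and a correction. -/
def IsLift (n : Γ × Γ →₀ ℤ) (w : ↥(JJ Γ)) : Prop :=
  pz Γ n + ((w : MonoidAlgebra ℤ Γ) + (w : MonoidAlgebra ℤ Γ)) = 0

/-- The element of the tensor product of such data. -/
noncomputable def lft (n : Γ × Γ →₀ ℤ) (w : ↥(JJ Γ)) : TT Γ := thetaZ Γ n + tb (two Γ) (jbar w)

theorem sT_lft {n : Γ × Γ →₀ ℤ} {w : ↥(JJ Γ)} (h : IsLift n w) : sT Γ (lft n w) = 0 := by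
  unfold lft IsLift at *
  rw [map_add, sT_thetaZ, sT_two]
  change pz Γ n + bar (pz Γ n) + (bar (w : MonoidAlgebra ℤ Γ) + bar (w : MonoidAlgebra ℤ Γ) +
    (bar (bar (w : MonoidAlgebra ℤ Γ)) + bar (bar (w : MonoidAlgebra ℤ Γ)))) = 0
  have h1 : pz Γ n = -((w : MonoidAlgebra ℤ Γ) + (w : MonoidAlgebra ℤ Γ)) := eq_neg_of_add_eq_zero_left h
  rw [h1, bar_neg', bar_add, bar_bar]
  abel

theorem mk_lft (n : Γ × Γ →₀ ℤ) (w : ↥(JJ Γ)) :
    (QuotientAddGroup.mk (lft n w) : TQ Γ) = theta Γ (red _ n) := by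
  rw [theta_red]
  unfold lft
  rw [QuotientAddGroup.mk_add]
  have h : (QuotientAddGroup.mk (tb (two Γ) (jbar w)) : TQ Γ) = 0 :=
    (QuotientAddGroup.eq_zero_iff _).mpr ⟨jbar w, rfl⟩
  rw [h, add_zero]

theorem exists_lift {z : Γ × Γ →₀ ZMod 2} (hz : dd Γ z = 0) :
    ∃ (n : Γ × Γ →₀ ℤ) (w : ↥(JJ Γ)), red _ n = z ∧ IsLift n w := by
  obtain ⟨n, rfl⟩ := red_surj z
  rw [dd_red] at hz
  obtain ⟨m, hm⟩ := red_eq_zero hz
  have ht : tot _ n = tot _ m + tot _ m := by rw [← tot_ddZ, hm, map_add]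
  set w : MonoidAlgebra ℤ Γ := MonoidAlgebra.ofCoeff (m - Finsupp.single 1 (tot _ m)) with hw
  have h1 : pz Γ n + (w + w) = 0 := by
    apply MonoidAlgebra.coeff_injective
    rw [MonoidAlgebra.coeff_add, pz_coeff, MonoidAlgebra.coeff_add, hm, ht, hw,
      MonoidAlgebra.coeff_zero, Finsupp.single_add]
    simp only [MonoidAlgebra.coeff_ofCoeff]
    abel
  have h2 : aug w = 0 := by
    have h3 := congrArg aug h1
    rw [map_add, aug_pz, map_add, map_zero] at h3
    omega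
  exact ⟨n, ⟨w, by rw [mem_JJ, h2]; exact Even.zero⟩, rfl, h1⟩

theorem cT_eq_of_mk {x y : TT Γ} (hx : sT Γ x = 0) (hy : sT Γ y = 0)
    (h : (QuotientAddGroup.mk x : TQ Γ) = QuotientAddGroup.mk y) : cT x = cT y := by
  rw [QuotientAddGroup.eq] at h
  obtain ⟨t, ht⟩ := h
  rw [dtwo_apply] at ht
  have h1 : sT Γ (tb (two Γ) t) = 0 := by
    rw [ht, map_add, map_neg, hx, hy]; simp
  have h2 : y = x + tb (two Γ) t := by rw [ht]; abel
  rw [h2, cT_add hx h1, cT_two t h1, add_zero]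

open Classical in
/-- The class of a mod 2 chain. -/
noncomputable def kchain (z : Γ × Γ →₀ ZMod 2) : L0 Γ :=
  if h : ∃ x : TT Γ, sT Γ x = 0 ∧ (QuotientAddGroup.mk x : TQ Γ) = theta Γ z then cT h.choose else 0

theorem kchain_eq {z : Γ × Γ →₀ ZMod 2} {x : TT Γ} (hx : sT Γ x = 0)
    (h : (QuotientAddGroup.mk x : TQ Γ) = theta Γ z) : kchain z = cT x := by
  have he : ∃ x : TT Γ, sT Γ x = 0 ∧ (QuotientAddGroup.mk x : TQ Γ) = theta Γ z := ⟨x, hx, h⟩
  unfold kchain
  rw [dif_pos he]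
  exact cT_eq_of_mk he.choose_spec.1 hx (he.choose_spec.2.trans h.symm)

theorem kchain_lift {n : Γ × Γ →₀ ℤ} {w : ↥(JJ Γ)} (h : IsLift n w) :
    kchain (red _ n) = cT (lft n w) := kchain_eq (sT_lft h) (mk_lft n w)

theorem kchain_add {z z' : Γ × Γ →₀ ZMod 2} (hz : dd Γ z = 0) (hz' : dd Γ z' = 0) :
    kchain (z + z') = kchain z + kchain z' := by
  obtain ⟨n, w, rfl, h⟩ := exists_lift hz
  obtain ⟨n', w', rfl, h'⟩ := exists_lift hz'
  rw [kchain_lift h, kchain_lift h', ← cT_add (sT_lft h) (sT_lft h')]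
  refine kchain_eq ?_ ?_
  · rw [map_add, sT_lft h, sT_lft h', add_zero]
  · rw [QuotientAddGroup.mk_add, mk_lft, mk_lft, map_add]

end general

end Pool.Agent.H750
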