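import Pool.Agent.H750.K.Reach

set_option autoImplicit false
set_option linter.unusedSectionVars false
set_option linter.unusedSimpArgs false

/-! # Eichler transformations -/

namespace Pool.Agent.H750

open Matrix Pool.Agent.R791

variable {Γ : Type*} [Group Γ] {ι κ μ ν : Type*}

section eichler

variable [Fintype ι] [DecidableEq ι] [Fintype κ] [DecidableEq κ]

/-- The Eichler transformation of `G ⊥ H` which maps the isotropic vector `f` to `f + w - c e`. -/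
noncomputable def eich (G : Matrix ι ι (MonoidAlgebra ℤ Γ)) (w : Matrix (Fin 1) ι (MonoidAlgebra ℤ Γ))
    (c : MonoidAlgebra ℤ Γ) :
    Matrix (ι ⊕ (Fin 1 ⊕ Fin 1)) (ι ⊕ (Fin 1 ⊕ Fin 1)) (MonoidAlgebra ℤ Γ) :=
  fromBlocks 1 (fromCols (-(G * adj w)) 0) (fromRows 0 w) (fromBlocks 1 0 (sc (-c)) 1)

theorem eich_mul (G : Matrix ι ι (MonoidAlgebra ℤ Γ)) {w : Matrix (Fin 1) ι (MonoidAlgebra ℤ Γ)}
    {c c' : MonoidAlgebra ℤ Γ} (hw : w * G * adj w = sc (c + c')) :
    eich G w c * eich G (-w) c' = 1 := by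
  unfold eich
  rw [Matrix.fromBlocks_multiply]
  refine Eq.trans ?_ Matrix.fromBlocks_one
  congr 1
  · rw [Matrix.fromCols_mul_fromRows]; simp
  · rw [Matrix.one_mul, Matrix.fromCols_mul_fromBlocks, adj_neg, fromCols_add']
    simp
  · rw [Matrix.mul_one, Matrix.fromBlocks_mul_fromRows, fromRows_add']
    simp
  · rw [Matrix.fromRows_mul_fromCols, Matrix.fromBlocks_multiply, Matrix.fromBlocks_add, adj_neg]
    refine Eq.trans ?_ Matrix.fromBlocks_one
    congr 1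
    · simp
    · simp
    · rw [Matrix.mul_neg, Matrix.mul_neg, Matrix.mul_neg, neg_neg, ← Matrix.mul_assoc, hw,
        Matrix.mul_one, Matrix.one_mul, sc_add, sc_add, ← sc_zero]
      congr 1
      abel
    · simp

theorem eich_isom {G : Matrix ι ι (MonoidAlgebra ℤ Γ)} (hG : adj G = G)
    {w : Matrix (Fin 1) ι (MonoidAlgebra ℤ Γ)} {c : MonoidAlgebra ℤ Γ}
    (hw : w * G * adj w = sc (c + bar c)) :
    eich G w c * osum G (hyp Γ (Fin 1)) * adj (eich G w c) = osum G (hyp Γ (Fin 1)) := by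
  have h1 : eich G w c * osum G (hyp Γ (Fin 1)) =
      fromBlocks G (fromCols 0 (-(G * adj w))) (fromRows 0 (w * G)) (fromBlocks 0 1 1 (sc (-c))) := by
    unfold eich osum hyp
    rw [Matrix.fromBlocks_multiply]
    congr 1
    · simp
    · rw [Matrix.fromCols_mul_fromBlocks]
      simp
    · rw [Matrix.fromRows_mul]
      simp
    · rw [Matrix.fromBlocks_multiply]
      simp
  have h2 : adj (eich G w c) = fromBlocks 1 (fromCols 0 (adj w)) (fromRows (-(w * G)) 0)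
      (fromBlocks 1 (sc (-bar c)) 0 1) := by
    unfold eich
    rw [adj_fromBlocks, adj_fromCols, adj_fromRows, adj_fromBlocks, adj_one, adj_one, adj_zero, adj_zero,
      adj_zero, adj_neg, adj_mul, adj_adj, hG, adj_sc, bar_neg']
  rw [h1, h2, Matrix.fromBlocks_multiply]
  unfold osum hyp
  congr 1
  · rw [Matrix.fromCols_mul_fromRows]
    simp
  · rw [Matrix.fromCols_mul_fromBlocks, Matrix.mul_fromCols, fromCols_add']
    simp
  · rw [Matrix.fromBlocks_mul_fromRows, Matrix.mul_one, fromRows_add']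
    simp
  · rw [Matrix.fromRows_mul_fromCols, Matrix.fromBlocks_multiply, Matrix.fromBlocks_add, hw]
    congr 1
    · simp
    · simp
    · simp
    · rw [Matrix.one_mul, Matrix.mul_one, sc_add, sc_add, ← sc_zero]
      congr 1
      abel

/-- The interchange of the two basis vectors of the hyperbolic plane. -/
noncomputable def flip (Γ : Type*) [Group Γ] : Matrix (Fin 1 ⊕ Fin 1) (Fin 1 ⊕ Fin 1) (MonoidAlgebra ℤ Γ) :=
  fromBlocks 0 1 1 0

theorem flip_mul : flip Γ * flip Γ = 1 := by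
  unfold flip
  rw [Matrix.fromBlocks_multiply]; simp

theorem flip_isom : flip Γ * hyp Γ (Fin 1) * adj (flip Γ) = hyp Γ (Fin 1) := by
  unfold flip hyp
  rw [adj_fromBlocks, adj_one, adj_zero, Matrix.fromBlocks_multiply, Matrix.fromBlocks_multiply]
  simp

theorem row_eich (G : Matrix ι ι (MonoidAlgebra ℤ Γ)) (w v : Matrix (Fin 1) ι (MonoidAlgebra ℤ Γ))
    (c : MonoidAlgebra ℤ Γ) (q : Matrix (Fin 1) (Fin 1) (MonoidAlgebra ℤ Γ)) :
    (fromCols v (fromCols 0 q) : Matrix (Fin 1) (ι ⊕ (Fin 1 ⊕ Fin 1)) (MonoidAlgebra ℤ Γ)) * eich G w c =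
      fromCols (v + q * w) (fromCols (-(v * G * adj w) + q * sc (-c)) q) := by
  unfold eich
  rw [Matrix.fromCols_mul_fromBlocks, Matrix.fromCols_mul_fromRows, Matrix.fromCols_mul_fromBlocks,
    Matrix.mul_fromCols, fromCols_add']
  simp [Matrix.mul_assoc]

/-- `T` is an automorphism of the form `G` with the inverse `T'`. -/
def IsAut (G T T' : Matrix ι ι (MonoidAlgebra ℤ Γ)) : Prop :=
  T * T' = 1 ∧ T' * T = 1 ∧ T * G * adj T = G

theorem IsAut.comp {G A A' B B' : Matrix ι ι (MonoidAlgebra ℤ Γ)} (h : IsAut G A A') (h' : IsAut G B B') :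
    IsAut G (A * B) (B' * A') := by
  obtain ⟨h1, h2, h3⟩ := h
  obtain ⟨g1, g2, g3⟩ := h'
  refine ⟨?_, ?_, ?_⟩
  · calc A * B * (B' * A') = A * (B * B') * A' := by simp only [Matrix.mul_assoc]
      _ = 1 := by rw [g1, Matrix.mul_one, h1]
  · calc B' * A' * (A * B) = B' * (A' * A) * B := by simp only [Matrix.mul_assoc]
      _ = 1 := by rw [h2, Matrix.mul_one, g2]
  · rw [adj_mul]
    calc A * B * G * (adj B * adj A) = A * (B * G * adj B) * adj A := by simp only [Matrix.mul_assoc]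
      _ = G := by rw [g3, h3]

theorem eich_aut {G : Matrix ι ι (MonoidAlgebra ℤ Γ)} (hG : adj G = G)
    {w : Matrix (Fin 1) ι (MonoidAlgebra ℤ Γ)} {c : MonoidAlgebra ℤ Γ}
    (hw : w * G * adj w = sc (c + bar c)) :
    IsAut (osum G (hyp Γ (Fin 1))) (eich G w c) (eich G (-w) (bar c)) := by
  refine ⟨eich_mul G hw, ?_, eich_isom hG hw⟩
  have := eich_mul G (w := -w) (c := bar c) (c' := c) (by
    rw [adj_neg, Matrix.neg_mul, Matrix.neg_mul, Matrix.mul_neg, neg_neg, hw, add_comm])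
  rwa [neg_neg] at this

theorem flip_aut (G : Matrix ι ι (MonoidAlgebra ℤ Γ)) :
    IsAut (osum G (hyp Γ (Fin 1))) (gd ι (flip Γ)) (gd ι (flip Γ)) :=
  ⟨gd_mul flip_mul, gd_mul flip_mul, osum_conj' flip_isom G⟩

theorem row_flip (v : Matrix (Fin 1) ι (MonoidAlgebra ℤ Γ)) (q : Matrix (Fin 1) (Fin 1) (MonoidAlgebra ℤ Γ)) :
    (fromCols v (fromCols q 0) : Matrix (Fin 1) (ι ⊕ (Fin 1 ⊕ Fin 1)) (MonoidAlgebra ℤ Γ)) * gd ι (flip Γ) =
      fromCols v (fromCols 0 q) := by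
  unfold gd flip
  rw [Matrix.fromCols_mul_fromBlocks, Matrix.fromCols_mul_fromBlocks]
  simp

/-- The composition of the transformations which adds a multiple of `w₂` to the vector `v`. -/
theorem move {G : Matrix ι ι (MonoidAlgebra ℤ Γ)} (hG : adj G = G)
    {v z : Matrix (Fin 1) ι (MonoidAlgebra ℤ Γ)} (hz : v * G * adj z = 1) {j c₁ c₂ : MonoidAlgebra ℤ Γ}
    (hc₁ : sc (bar j) * (z * G * adj z) * sc j = sc (c₁ + bar c₁))
    {w : Matrix (Fin 1) ι (MonoidAlgebra ℤ Γ)} (hw : w * G * adj w = sc (c₂ + bar c₂)) :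
    ∃ (T T' : Matrix (ι ⊕ (Fin 1 ⊕ Fin 1)) (ι ⊕ (Fin 1 ⊕ Fin 1)) (MonoidAlgebra ℤ Γ))
      (r : Matrix (Fin 1) (Fin 1 ⊕ Fin 1) (MonoidAlgebra ℤ Γ)),
      IsAut (osum G (hyp Γ (Fin 1))) T T' ∧
        (fromCols v 0 : Matrix (Fin 1) (ι ⊕ (Fin 1 ⊕ Fin 1)) (MonoidAlgebra ℤ Γ)) * T =
          fromCols (v + sc j * w) r := by
  obtain ⟨w₁, hw₁⟩ : ∃ w₁ : Matrix (Fin 1) ι (MonoidAlgebra ℤ Γ), w₁ = -(sc (bar j) * z) := ⟨_, rfl⟩
  have h1 : w₁ * G * adj w₁ = sc (c₁ + bar c₁) := by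
    rw [← hc₁, hw₁, adj_neg, adj_mul, adj_sc, bar_bar]
    simp only [Matrix.neg_mul, Matrix.mul_neg, neg_neg, Matrix.mul_assoc]
  have hv : v * G * adj w₁ = -sc j := by
    rw [hw₁, adj_neg, adj_mul, adj_sc, bar_bar, Matrix.mul_neg, ← Matrix.mul_assoc, hz, Matrix.one_mul]
  refine ⟨_, _, fromCols (-(v * G * adj w) + sc j * sc (-c₂)) (sc j),
    (eich_aut hG h1).comp ((flip_aut G).comp (eich_aut hG hw)), ?_⟩
  have h0 : (fromCols v 0 : Matrix (Fin 1) (ι ⊕ (Fin 1 ⊕ Fin 1)) (MonoidAlgebra ℤ Γ)) =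
      fromCols v (fromCols 0 0) := by rw [Matrix.fromCols_zero]
  rw [h0, ← Matrix.mul_assoc, row_eich, ← Matrix.mul_assoc, hv, neg_neg, Matrix.zero_mul, Matrix.zero_mul,
    add_zero, add_zero, row_flip, row_eich]

end eichler

end Pool.Agent.H750
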