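import Pool.Agent.H750.K.Cycles

set_option autoImplicit false

/-! # Splitting off metabolic planes -/

namespace Pool.Agent.H750

open Matrix Pool.Agent.R791

variable {Γ : Type*} [Group Γ] {ι κ μ ν : Type*}

/-- The metabolic plane with the Gram matrix `0 1 1 -1`. -/
noncomputable abbrev mm (Γ : Type*) [Group Γ] : Matrix (Fin 1 ⊕ Fin 1) (Fin 1 ⊕ Fin 1) (MonoidAlgebra ℤ Γ) :=
  met (-1 : Matrix (Fin 1) (Fin 1) (MonoidAlgebra ℤ Γ))

theorem adj_mm : adj (mm Γ) = mm Γ := adj_met (by rw [adj_neg, adj_one])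

theorem unit_mm : IsUnit (mm Γ) := unit_met _

theorem visible_mm : Visible (mm Γ) := by
  refine visible_met (visible_neg ?_)
  intro i s hs _
  rw [Matrix.one_apply_eq, MonoidAlgebra.one_def, MonoidAlgebra.coeff_single, Finsupp.single_eq_of_ne hs]
  exact Even.zero

theorem iso_mm_pm : Isometric (mm Γ) (pm Γ (Fin 1)) := by
  have h := iso_met_add (1 : Matrix (Fin 1) (Fin 1) (MonoidAlgebra ℤ Γ)) (-1)
  have e : (1 : Matrix (Fin 1) (Fin 1) (MonoidAlgebra ℤ Γ)) + (-1 + adj (-1)) = -1 := by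
    rw [adj_neg, adj_one]; abel
  rw [e] at h
  exact h.trans iso_met_one

theorem adj_fromCols (A : Matrix ι κ (MonoidAlgebra ℤ Γ)) (B : Matrix ι μ (MonoidAlgebra ℤ Γ)) :
    adj (fromCols A B) = fromRows (adj A) (adj B) := by
  ext1 x y
  rcases x with x | x <;> rfl

theorem adj_fromRows (A : Matrix κ ι (MonoidAlgebra ℤ Γ)) (B : Matrix μ ι (MonoidAlgebra ℤ Γ)) :
    adj (fromRows A B) = fromCols (adj A) (adj B) := by
  ext1 x y
  rcases y with y | y <;> rfl

omit [Group Γ] in
theorem fromCols_add' {R : Type*} [AddCommMonoid R] (A A' : Matrix ι κ R) (B B' : Matrix ι μ R) :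
    fromCols A B + fromCols A' B' = fromCols (A + A') (B + B') := by
  ext1 x y
  rcases y with y | y <;> rfl

omit [Group Γ] in
theorem fromRows_add' {R : Type*} [AddCommMonoid R] (A A' : Matrix κ ι R) (B B' : Matrix μ ι R) :
    fromRows A B + fromRows A' B' = fromRows (A + A') (B + B') := by
  ext1 x y
  rcases x with x | x <;> rfl

/-- The row vector `a + α u + β e`. -/
def rv (a : Matrix (Fin 1) ι (MonoidAlgebra ℤ Γ)) (α β : MonoidAlgebra ℤ Γ) :
    Matrix (Fin 1) (ι ⊕ (Fin 1 ⊕ Fin 1)) (MonoidAlgebra ℤ Γ) := fromCols a (fromCols (sc α) (sc β))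

section plane

variable [Fintype ι] [DecidableEq ι] [Fintype κ] [DecidableEq κ]

/-- The form `G` and its modification are isometric after adding the plane; the isometry maps the
isotropic basis vector `u` of the plane to `m + u`. -/
theorem modif_plane {G : Matrix ι ι (MonoidAlgebra ℤ Γ)} (hG : adj G = G)
    (m : Matrix (Fin 1) ι (MonoidAlgebra ℤ Γ)) (hm : m * G * adj m = 0) :
    ∃ (P Q : Matrix (ι ⊕ (Fin 1 ⊕ Fin 1)) (ι ⊕ (Fin 1 ⊕ Fin 1)) (MonoidAlgebra ℤ Γ)),
      P * Q = 1 ∧ Q * P = 1 ∧ P * osum G (mm Γ) * adj P = osum (modif G m) (mm Γ) ∧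
        rv (0 : Matrix (Fin 1) ι (MonoidAlgebra ℤ Γ)) 1 0 * P = rv m 1 0 := by
  set c := G * adj m with hc
  have hc' : adj c = m * G := by rw [hc, adj_mul, adj_adj, hG]
  have hmc : m * c = 0 := by rw [hc, ← Matrix.mul_assoc]; exact hm
  have hcm : adj c * adj m = 0 := by rw [hc', hm]
  have hcG : m * G * adj m = 0 := hm
  refine ⟨fromBlocks (1 - c * m) (fromCols (-c) (-c)) (fromRows m 0) 1,
    fromBlocks 1 (fromCols c c) (fromRows (-m) 0) 1, ?_, ?_, ?_, ?_⟩
  · rw [Matrix.fromBlocks_multiply]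
    refine Eq.trans ?_ Matrix.fromBlocks_one
    congr 1
    · rw [Matrix.fromCols_mul_fromRows]; simp
    · rw [Matrix.mul_fromCols, Matrix.mul_one, Matrix.sub_mul, Matrix.mul_assoc, hmc, fromCols_add']
      simp
    · rw [Matrix.mul_one, Matrix.one_mul, fromRows_add']; simp
    · rw [Matrix.fromRows_mul_fromCols, hmc]; simp
  · rw [Matrix.fromBlocks_multiply]
    refine Eq.trans ?_ Matrix.fromBlocks_one
    congr 1
    · rw [Matrix.fromCols_mul_fromRows]; simp
    · rw [Matrix.mul_one, Matrix.one_mul, fromCols_add']; simp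
    · rw [Matrix.fromRows_mul, Matrix.one_mul, Matrix.mul_sub, ← Matrix.mul_assoc, Matrix.neg_mul m c,
        hmc, fromRows_add']
      simp
    · rw [Matrix.fromRows_mul_fromCols, Matrix.neg_mul, Matrix.mul_neg, hmc]; simp
  · have h1 : (1 - c * m) * G = G - c * adj c := by
      rw [Matrix.sub_mul, Matrix.one_mul, Matrix.mul_assoc, ← hc']
    have h2 : G * (1 - adj m * adj c) = G - c * adj c := by
      rw [Matrix.mul_sub, Matrix.mul_one, ← Matrix.mul_assoc, ← hc]
    unfold osum mm met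
    rw [adj_fromBlocks, Matrix.fromBlocks_multiply, Matrix.fromBlocks_multiply, adj_fromCols,
      adj_fromRows, adj_sub, adj_mul, adj_one, adj_zero, adj_one, adj_neg]
    simp only [Matrix.mul_zero, Matrix.zero_mul, add_zero, zero_add, Matrix.mul_one, Matrix.one_mul,
      Matrix.fromCols_mul_fromBlocks, Matrix.fromRows_mul, Matrix.mul_fromCols,
      Matrix.fromCols_mul_fromRows, Matrix.mul_neg,
      Matrix.neg_mul, neg_neg, Matrix.fromBlocks_mul_fromRows]
    congr 1
    · unfold modif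
      rw [h1, ← hc']
      have h3 : (G - c * adj c) * (1 - adj m * adj c) = G - c * adj c - c * adj c := by
        rw [Matrix.sub_mul, h2, Matrix.mul_assoc c, Matrix.mul_sub, ← Matrix.mul_assoc (adj c), hcm]
        simp
      rw [h3, ← hc]
      abel_nf
      simp
    · rw [h1, Matrix.sub_mul, ← hc, Matrix.mul_assoc, hcm, fromCols_add']
      simp
    · rw [Matrix.mul_sub, Matrix.mul_one, ← Matrix.mul_assoc, hm, ← hc', fromRows_add']
      simp
    · rw [hm]
      simp
  · unfold rv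
    rw [Matrix.fromCols_mul_fromBlocks, sc_one, sc_zero]
    simp only [Matrix.zero_mul, zero_add, Matrix.mul_one]
    rw [Matrix.fromCols_mul_fromRows]
    simp

end plane

end Pool.Agent.H750
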