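import Pool.Agent.H750.K.Plane

set_option autoImplicit false
set_option linter.unusedSectionVars false
set_option linter.unusedSimpArgs false

/-! # Isometries and the images of the isotropic vector -/

namespace Pool.Agent.H750

open Matrix Pool.Agent.R791

variable {Γ : Type*} [Group Γ] {ι κ μ ν : Type*}

section reach

variable [Fintype ι] [DecidableEq ι] [Fintype κ] [DecidableEq κ] [Fintype μ] [DecidableEq μ]
  [Fintype ν] [DecidableEq ν]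

/-- There is an isometry of `E ⊥ M` onto `W ⊥ M` which maps the isotropic vector `u` to
`a + α u + β e`. -/
def Reach (E : Matrix ι ι (MonoidAlgebra ℤ Γ)) (W : Matrix κ κ (MonoidAlgebra ℤ Γ))
    (a : Matrix (Fin 1) κ (MonoidAlgebra ℤ Γ)) (α β : MonoidAlgebra ℤ Γ) : Prop :=
  ∃ (P : Matrix (ι ⊕ (Fin 1 ⊕ Fin 1)) (κ ⊕ (Fin 1 ⊕ Fin 1)) (MonoidAlgebra ℤ Γ))
    (Q : Matrix (κ ⊕ (Fin 1 ⊕ Fin 1)) (ι ⊕ (Fin 1 ⊕ Fin 1)) (MonoidAlgebra ℤ Γ)),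
    P * Q = 1 ∧ Q * P = 1 ∧ P * osum W (mm Γ) * adj P = osum E (mm Γ) ∧
      rv (0 : Matrix (Fin 1) ι (MonoidAlgebra ℤ Γ)) 1 0 * P = rv a α β

omit [Group Γ] [Fintype ι] [DecidableEq ι] in
theorem rv_surj (x : Matrix (Fin 1) (ι ⊕ (Fin 1 ⊕ Fin 1)) (MonoidAlgebra ℤ Γ)) :
    ∃ a α β, x = rv a α β := by
  refine ⟨x.toCols₁, x 0 (Sum.inr (Sum.inl 0)), x 0 (Sum.inr (Sum.inr 0)), ?_⟩
  ext1 i j
  rw [Subsingleton.elim i 0]
  rcases j with j | j | j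
  · rfl
  · rw [Subsingleton.elim j 0]; rfl
  · rw [Subsingleton.elim j 0]; rfl

theorem exists_reach {E : Matrix ι ι (MonoidAlgebra ℤ Γ)} {W : Matrix κ κ (MonoidAlgebra ℤ Γ)}
    (h : Isometric (osum W (mm Γ)) (osum E (mm Γ))) : ∃ a α β, Reach E W a α β := by
  obtain ⟨P, Q, h1, h2, h3⟩ := h
  obtain ⟨a, α, β, h4⟩ := rv_surj (rv (0 : Matrix (Fin 1) ι (MonoidAlgebra ℤ Γ)) 1 0 * P)
  exact ⟨a, α, β, P, Q, h1, h2, h3, h4⟩

/-- composition on the right -/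
theorem Reach.comp {E : Matrix ι ι (MonoidAlgebra ℤ Γ)} {W : Matrix κ κ (MonoidAlgebra ℤ Γ)}
    {W' : Matrix μ μ (MonoidAlgebra ℤ Γ)} {a : Matrix (Fin 1) κ (MonoidAlgebra ℤ Γ)}
    {a' : Matrix (Fin 1) μ (MonoidAlgebra ℤ Γ)} {α β α' β' : MonoidAlgebra ℤ Γ} (h : Reach E W a α β)
    (T : Matrix (κ ⊕ (Fin 1 ⊕ Fin 1)) (μ ⊕ (Fin 1 ⊕ Fin 1)) (MonoidAlgebra ℤ Γ))
    (T' : Matrix (μ ⊕ (Fin 1 ⊕ Fin 1)) (κ ⊕ (Fin 1 ⊕ Fin 1)) (MonoidAlgebra ℤ Γ))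
    (h1 : T * T' = 1) (h2 : T' * T = 1) (h3 : T * osum W' (mm Γ) * adj T = osum W (mm Γ))
    (h4 : rv a α β * T = rv a' α' β') : Reach E W' a' α' β' := by
  obtain ⟨P, Q, hPQ, hQP, hP, hu⟩ := h
  refine ⟨P * T, T' * Q, ?_, ?_, ?_, ?_⟩
  · calc P * T * (T' * Q) = P * (T * T') * Q := by simp only [Matrix.mul_assoc]
      _ = 1 := by rw [h1, Matrix.mul_one, hPQ]
  · calc T' * Q * (P * T) = T' * (Q * P) * T := by simp only [Matrix.mul_assoc]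
      _ = 1 := by rw [hQP, Matrix.mul_one, h2]
  · rw [adj_mul, ← hP, ← h3]; simp only [Matrix.mul_assoc]
  · rw [← Matrix.mul_assoc, hu, h4]

/-- composition on the left -/
theorem Reach.comp_left {E : Matrix ι ι (MonoidAlgebra ℤ Γ)} {W : Matrix κ κ (MonoidAlgebra ℤ Γ)}
    {E' : Matrix μ μ (MonoidAlgebra ℤ Γ)} {a : Matrix (Fin 1) κ (MonoidAlgebra ℤ Γ)}
    {α β : MonoidAlgebra ℤ Γ} (h : Reach E W a α β)
    (T : Matrix (μ ⊕ (Fin 1 ⊕ Fin 1)) (ι ⊕ (Fin 1 ⊕ Fin 1)) (MonoidAlgebra ℤ Γ))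
    (T' : Matrix (ι ⊕ (Fin 1 ⊕ Fin 1)) (μ ⊕ (Fin 1 ⊕ Fin 1)) (MonoidAlgebra ℤ Γ))
    (h1 : T * T' = 1) (h2 : T' * T = 1) (h3 : T * osum E (mm Γ) * adj T = osum E' (mm Γ))
    (h4 : rv (0 : Matrix (Fin 1) μ (MonoidAlgebra ℤ Γ)) 1 0 * T = rv 0 1 0) : Reach E' W a α β := by
  obtain ⟨P, Q, hPQ, hQP, hP, hu⟩ := h
  refine ⟨T * P, Q * T', ?_, ?_, ?_, ?_⟩
  · calc T * P * (Q * T') = T * (P * Q) * T' := by simp only [Matrix.mul_assoc]
      _ = 1 := by rw [hPQ, Matrix.mul_one, h1]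
  · calc Q * T' * (T * P) = Q * (T' * T) * P := by simp only [Matrix.mul_assoc]
      _ = 1 := by rw [h2, Matrix.mul_one, hQP]
  · rw [adj_mul, ← h3, ← hP]; simp only [Matrix.mul_assoc]
  · rw [← Matrix.mul_assoc, h4, hu]

/-- The block matrix with the blocks `T` and `1`. -/
noncomputable def dg (ν : Type*) [DecidableEq ν] (T : Matrix κ μ (MonoidAlgebra ℤ Γ)) :
    Matrix (κ ⊕ ν) (μ ⊕ ν) (MonoidAlgebra ℤ Γ) := fromBlocks T 0 0 1

theorem dg_mul {T : Matrix κ μ (MonoidAlgebra ℤ Γ)} {T' : Matrix μ κ (MonoidAlgebra ℤ Γ)} (h : T * T' = 1) :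
    dg ν T * dg ν T' = 1 := by
  unfold dg
  rw [Matrix.fromBlocks_multiply]; simp [h]

omit [DecidableEq κ] [DecidableEq μ] in
theorem rv_mul_dg (a : Matrix (Fin 1) κ (MonoidAlgebra ℤ Γ)) (α β : MonoidAlgebra ℤ Γ)
    (T : Matrix κ μ (MonoidAlgebra ℤ Γ)) : rv a α β * dg (Fin 1 ⊕ Fin 1) T = rv (a * T) α β := by
  unfold rv dg
  rw [Matrix.fromCols_mul_fromBlocks]
  simp

theorem osum_conj {W : Matrix κ κ (MonoidAlgebra ℤ Γ)} {W' : Matrix μ μ (MonoidAlgebra ℤ Γ)}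
    {T : Matrix μ κ (MonoidAlgebra ℤ Γ)} (h : T * W * adj T = W') (M : Matrix ν ν (MonoidAlgebra ℤ Γ)) :
    dg ν T * osum W M * adj (dg ν T) = osum W' M := by
  unfold osum dg
  rw [adj_fromBlocks, Matrix.fromBlocks_multiply, Matrix.fromBlocks_multiply]
  simp [adj_zero, adj_one, h]

/-- The block matrix with the blocks `1` and `T`. -/
noncomputable def gd (ν : Type*) [DecidableEq ν] (T : Matrix κ μ (MonoidAlgebra ℤ Γ)) :
    Matrix (ν ⊕ κ) (ν ⊕ μ) (MonoidAlgebra ℤ Γ) := fromBlocks 1 0 0 T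

theorem gd_mul {T : Matrix κ μ (MonoidAlgebra ℤ Γ)} {T' : Matrix μ κ (MonoidAlgebra ℤ Γ)} (h : T * T' = 1) :
    gd ν T * gd ν T' = 1 := by
  unfold gd
  rw [Matrix.fromBlocks_multiply]; simp [h]

theorem osum_conj' {W : Matrix κ κ (MonoidAlgebra ℤ Γ)} {W' : Matrix μ μ (MonoidAlgebra ℤ Γ)}
    {T : Matrix μ κ (MonoidAlgebra ℤ Γ)} (h : T * W * adj T = W') (M : Matrix ν ν (MonoidAlgebra ℤ Γ)) :
    gd ν T * osum M W * adj (gd ν T) = osum M W' := by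
  unfold osum gd
  rw [adj_fromBlocks, Matrix.fromBlocks_multiply, Matrix.fromBlocks_multiply]
  simp [adj_zero, adj_one, h]

theorem Reach.right {E : Matrix ι ι (MonoidAlgebra ℤ Γ)} {W : Matrix κ κ (MonoidAlgebra ℤ Γ)}
    {W' : Matrix μ μ (MonoidAlgebra ℤ Γ)} {a : Matrix (Fin 1) κ (MonoidAlgebra ℤ Γ)}
    {α β : MonoidAlgebra ℤ Γ} (h : Reach E W a α β) (hW : Isometric W W') :
    ∃ a', Reach E W' a' α β := by
  obtain ⟨T, T', h1, h2, h3⟩ := hW.symm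
  exact ⟨a * T, h.comp (dg _ T) (dg _ T') (dg_mul h1) (dg_mul h2) (osum_conj h3 _)
    (rv_mul_dg a α β T)⟩

theorem Reach.left {E : Matrix ι ι (MonoidAlgebra ℤ Γ)} {W : Matrix κ κ (MonoidAlgebra ℤ Γ)}
    {E' : Matrix μ μ (MonoidAlgebra ℤ Γ)} {a : Matrix (Fin 1) κ (MonoidAlgebra ℤ Γ)}
    {α β : MonoidAlgebra ℤ Γ} (h : Reach E W a α β) (hE : Isometric E E') :
    Reach E' W a α β := by
  obtain ⟨T, T', h1, h2, h3⟩ := hE
  refine h.comp_left (dg _ T) (dg _ T') (dg_mul h1) (dg_mul h2) (osum_conj h3 _) ?_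
  rw [rv_mul_dg, Matrix.zero_mul]

/-- an isometry of the plane -/
theorem Reach.plane {E : Matrix ι ι (MonoidAlgebra ℤ Γ)} {W : Matrix κ κ (MonoidAlgebra ℤ Γ)}
    {a : Matrix (Fin 1) κ (MonoidAlgebra ℤ Γ)} {g : Γ} {r : ℤ} (hr : r * r = 1)
    (h : Reach E W a 1 (1 - MonoidAlgebra.single g r)) : Reach E W a 1 0 := by
  set η : MonoidAlgebra ℤ Γ := MonoidAlgebra.single g r with hη
  set η' : MonoidAlgebra ℤ Γ := MonoidAlgebra.single g⁻¹ r with hη'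
  have e1 : η * η' = 1 := by
    rw [hη, hη', MonoidAlgebra.single_mul_single, mul_inv_cancel, hr, MonoidAlgebra.one_def]
  have e2 : η' * η = 1 := by
    rw [hη, hη', MonoidAlgebra.single_mul_single, inv_mul_cancel, hr, MonoidAlgebra.one_def]
  have b1 : bar η = η' := by rw [hη, bar_single]
  have b2 : bar η' = η := by rw [hη', bar_single, inv_inv]
  have hD1 : (fromBlocks 1 (sc (1 - η')) 0 (sc η') : Matrix (Fin 1 ⊕ Fin 1) (Fin 1 ⊕ Fin 1) (MonoidAlgebra ℤ Γ)) *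
      (fromBlocks 1 (sc (1 - η)) 0 (sc η) : Matrix (Fin 1 ⊕ Fin 1) (Fin 1 ⊕ Fin 1) (MonoidAlgebra ℤ Γ)) = 1 := by
    rw [Matrix.fromBlocks_multiply]
    simp only [Matrix.mul_zero, Matrix.zero_mul, add_zero, zero_add, Matrix.mul_one, Matrix.one_mul,
      sc_mul, sc_add]
    have e3 : 1 - η + (1 - η') * η = 0 := by rw [sub_mul, e2, one_mul]; abel
    rw [e3, e2, sc_zero, sc_one, Matrix.fromBlocks_one]
  have hD2 : (fromBlocks 1 (sc (1 - η)) 0 (sc η) : Matrix (Fin 1 ⊕ Fin 1) (Fin 1 ⊕ Fin 1) (MonoidAlgebra ℤ Γ)) *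
      (fromBlocks 1 (sc (1 - η')) 0 (sc η') : Matrix (Fin 1 ⊕ Fin 1) (Fin 1 ⊕ Fin 1) (MonoidAlgebra ℤ Γ)) = 1 := by
    rw [Matrix.fromBlocks_multiply]
    simp only [Matrix.mul_zero, Matrix.zero_mul, add_zero, zero_add, Matrix.mul_one, Matrix.one_mul,
      sc_mul, sc_add]
    have e3 : 1 - η' + (1 - η) * η' = 0 := by rw [sub_mul, e1, one_mul]; abel
    rw [e3, e1, sc_zero, sc_one, Matrix.fromBlocks_one]
  refine h.comp (gd _ (fromBlocks 1 (sc (1 - η')) 0 (sc η') : Matrix (Fin 1 ⊕ Fin 1) (Fin 1 ⊕ Fin 1) (MonoidAlgebra ℤ Γ)))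
    (gd _ (fromBlocks 1 (sc (1 - η)) 0 (sc η) : Matrix (Fin 1 ⊕ Fin 1) (Fin 1 ⊕ Fin 1) (MonoidAlgebra ℤ Γ)))
    (gd_mul hD1) (gd_mul hD2) (osum_conj' ?_ _) ?_
  · unfold mm met
    simp only [adj_fromBlocks, adj_one, adj_zero, adj_sc, sub_eq_add_neg, bar_add, bar_neg', bar_one, b2]
    rw [Matrix.fromBlocks_multiply, Matrix.fromBlocks_multiply]
    simp only [Matrix.mul_zero, Matrix.zero_mul, add_zero, zero_add, Matrix.mul_one, Matrix.one_mul,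
      ← sc_one, sc_mul, sc_add, sc_neg]
    rw [← sc_zero]
    congr 1
    · congr 1
      simp only [mul_add, add_mul, mul_one, one_mul, mul_neg, neg_mul, e1, e2]
      abel
    · congr 1
      simp only [mul_add, add_mul, mul_one, one_mul, mul_neg, neg_mul, e1, e2]
      abel
    · congr 1
      simp only [mul_add, add_mul, mul_one, one_mul, mul_neg, neg_mul, e1, e2]
      abel
    · congr 1
      simp only [mul_add, add_mul, mul_one, one_mul, mul_neg, neg_mul, e1, e2]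
  · unfold rv gd
    rw [Matrix.fromCols_mul_fromBlocks, Matrix.fromCols_mul_fromBlocks]
    simp only [Matrix.mul_zero, add_zero, zero_add, sc_mul, sc_add]
    have e3 : 1 * (1 - η') + (1 - η) * η' = 0 := by rw [sub_mul, e1, one_mul, one_mul]; abel
    rw [e3, ← sc_one, sc_mul, one_mul, Matrix.mul_one]

omit [Group Γ] in
theorem sub_rows (X : Matrix (ι ⊕ κ) μ (MonoidAlgebra ℤ Γ)) : fromRows X.toRows₁ X.toRows₂ = X :=
  Matrix.fromRows_toRows X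

theorem row_one_mul {ρ : Type*} (X : Matrix (Fin 1 ⊕ Fin 1) ρ (MonoidAlgebra ℤ Γ)) :
    (fromCols (sc 1) (sc 0) : Matrix (Fin 1) (Fin 1 ⊕ Fin 1) (MonoidAlgebra ℤ Γ)) * X = X.toRows₁ := by
  conv_lhs => rw [← Matrix.fromRows_toRows X]
  rw [Matrix.fromCols_mul_fromRows, sc_one, sc_zero]
  simp

theorem mul_col_two {ρ : Type*} (X : Matrix ρ (Fin 1 ⊕ Fin 1) (MonoidAlgebra ℤ Γ)) :
    X * (fromRows 0 1 : Matrix (Fin 1 ⊕ Fin 1) (Fin 1) (MonoidAlgebra ℤ Γ)) = X.toCols₂ := by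
  conv_lhs => rw [← Matrix.fromCols_toCols X]
  rw [Matrix.fromCols_mul_fromRows]
  simp

theorem rv_mul_blocks (a : Matrix (Fin 1) κ (MonoidAlgebra ℤ Γ)) (A : Matrix κ μ (MonoidAlgebra ℤ Γ))
    (B : Matrix κ ν (MonoidAlgebra ℤ Γ)) (C : Matrix (Fin 1 ⊕ Fin 1) μ (MonoidAlgebra ℤ Γ))
    (D : Matrix (Fin 1 ⊕ Fin 1) ν (MonoidAlgebra ℤ Γ)) :
    rv a 1 0 * (fromBlocks A B C D : Matrix (κ ⊕ (Fin 1 ⊕ Fin 1)) (μ ⊕ ν) (MonoidAlgebra ℤ Γ)) =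
      fromCols (a * A + C.toRows₁) (a * B + D.toRows₁) := by
  unfold rv
  rw [Matrix.fromCols_mul_fromBlocks, row_one_mul, row_one_mul]

theorem osum_mul_u (Z : Matrix κ κ (MonoidAlgebra ℤ Γ)) :
    osum Z (mm Γ) * adj (rv (0 : Matrix (Fin 1) κ (MonoidAlgebra ℤ Γ)) 1 0) =
      fromRows 0 (fromRows 0 1) := by
  unfold osum rv mm met
  rw [adj_fromCols, adj_fromCols, adj_zero, adj_sc, adj_sc, bar_one, bar_zero, sc_one, sc_zero,
    Matrix.fromBlocks_mul_fromRows, Matrix.fromBlocks_mul_fromRows]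
  simp

/-- the shape of a matrix which preserves `u` -/
theorem shape_of_fix (X : Matrix ι ι (MonoidAlgebra ℤ Γ)) (Y : Matrix κ κ (MonoidAlgebra ℤ Γ))
    (T : Matrix (ι ⊕ (Fin 1 ⊕ Fin 1)) (κ ⊕ (Fin 1 ⊕ Fin 1)) (MonoidAlgebra ℤ Γ))
    (hT : T * osum Y (mm Γ) * adj T = osum X (mm Γ))
    (hu : rv (0 : Matrix (Fin 1) ι (MonoidAlgebra ℤ Γ)) 1 0 * T = rv 0 1 0) :
    ∃ (P : Matrix ι κ (MonoidAlgebra ℤ Γ)) (t : Matrix ι (Fin 1) (MonoidAlgebra ℤ Γ))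
      (c : Matrix (Fin 1) κ (MonoidAlgebra ℤ Γ)) (D : Matrix (Fin 1 ⊕ Fin 1) (Fin 1 ⊕ Fin 1) (MonoidAlgebra ℤ Γ)),
      T = fromBlocks P (fromCols t 0) (fromRows 0 c) D ∧ P * Y * adj P = X := by
  have h3 : adj (rv (0 : Matrix (Fin 1) κ (MonoidAlgebra ℤ Γ)) 1 0) =
      adj T * adj (rv (0 : Matrix (Fin 1) ι (MonoidAlgebra ℤ Γ)) 1 0) := by
    rw [← adj_mul, hu]
  obtain ⟨P, B, C, D, hT'⟩ : ∃ (P : Matrix ι κ (MonoidAlgebra ℤ Γ)) (B : Matrix ι (Fin 1 ⊕ Fin 1) (MonoidAlgebra ℤ Γ))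
      (C : Matrix (Fin 1 ⊕ Fin 1) κ (MonoidAlgebra ℤ Γ)) (D : Matrix (Fin 1 ⊕ Fin 1) (Fin 1 ⊕ Fin 1) (MonoidAlgebra ℤ Γ)),
      T = fromBlocks P B C D := ⟨_, _, _, _, (Matrix.fromBlocks_toBlocks T).symm⟩
  rw [hT', rv_mul_blocks, Matrix.zero_mul, Matrix.zero_mul, zero_add, zero_add] at hu
  unfold rv at hu
  have hc := congrArg Matrix.toCols₁ hu
  rw [Matrix.toCols₁_fromCols, Matrix.toCols₁_fromCols] at hc
  have hC' : C = fromRows 0 C.toRows₂ := by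
    conv_lhs => rw [← Matrix.fromRows_toRows C, hc]
  -- the second relation
  have h2 : T * (osum Y (mm Γ) * adj (rv (0 : Matrix (Fin 1) κ (MonoidAlgebra ℤ Γ)) 1 0)) =
      osum X (mm Γ) * adj (rv (0 : Matrix (Fin 1) ι (MonoidAlgebra ℤ Γ)) 1 0) := by
    rw [← hT, h3]; simp only [Matrix.mul_assoc]
  rw [osum_mul_u, osum_mul_u, hT', Matrix.fromBlocks_mul_fromRows] at h2
  have h5 := congrArg Matrix.toRows₁ h2
  rw [Matrix.toRows₁_fromRows, Matrix.toRows₁_fromRows, Matrix.mul_zero, zero_add, mul_col_two] at h5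
  have hB' : B = fromCols B.toCols₁ 0 := by
    conv_lhs => rw [← Matrix.fromCols_toCols B, h5]
  refine ⟨P, B.toCols₁, C.toRows₂, D, ?_, ?_⟩
  · rw [← hC', ← hB']; exact hT'
  · have h7 := congrArg Matrix.toBlocks₁₁ hT
    unfold osum at h7
    rw [hT', adj_fromBlocks, Matrix.fromBlocks_multiply, Matrix.fromBlocks_multiply,
      Matrix.toBlocks_fromBlocks₁₁, Matrix.toBlocks_fromBlocks₁₁] at h7
    have h8 : B * mm Γ * adj B = 0 := by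
      rw [hB', adj_fromCols, adj_zero]
      unfold mm met
      rw [Matrix.fromCols_mul_fromBlocks, Matrix.fromCols_mul_fromRows]
      simp
    rw [← h7, Matrix.mul_zero, Matrix.mul_zero, zero_add, add_zero, h8, add_zero]

/-- If an isometry of `E ⊥ M` and `A ⊥ M` preserves `u` then `E` and `A` are isometric. -/
theorem iso_of_fix {E : Matrix ι ι (MonoidAlgebra ℤ Γ)} {A : Matrix κ κ (MonoidAlgebra ℤ Γ)}
    (T : Matrix (ι ⊕ (Fin 1 ⊕ Fin 1)) (κ ⊕ (Fin 1 ⊕ Fin 1)) (MonoidAlgebra ℤ Γ))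
    (S : Matrix (κ ⊕ (Fin 1 ⊕ Fin 1)) (ι ⊕ (Fin 1 ⊕ Fin 1)) (MonoidAlgebra ℤ Γ))
    (hTS : T * S = 1) (hST : S * T = 1) (hT : T * osum A (mm Γ) * adj T = osum E (mm Γ))
    (hu : rv (0 : Matrix (Fin 1) ι (MonoidAlgebra ℤ Γ)) 1 0 * T = rv 0 1 0) : Isometric A E := by
  have hS : S * osum E (mm Γ) * adj S = osum A (mm Γ) := by
    have h1 : adj T * adj S = 1 := by rw [← adj_mul, hST, adj_one]
    rw [← hT]
    calc S * (T * osum A (mm Γ) * adj T) * adj S = (S * T) * osum A (mm Γ) * (adj T * adj S) := by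
          simp only [Matrix.mul_assoc]
      _ = osum A (mm Γ) := by rw [hST, h1, Matrix.one_mul, Matrix.mul_one]
  have hu' : rv (0 : Matrix (Fin 1) κ (MonoidAlgebra ℤ Γ)) 1 0 * S = rv 0 1 0 := by
    rw [← hu, Matrix.mul_assoc, hTS, Matrix.mul_one]
  obtain ⟨P, t, c, D, hT1, hP⟩ := shape_of_fix E A T hT hu
  obtain ⟨P', t', c', D', hS1, hP'⟩ := shape_of_fix A E S hS hu'
  refine ⟨P, P', ?_, ?_, hP⟩
  · have h1 := congrArg Matrix.toBlocks₁₁ hTS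
    rw [hT1, hS1, Matrix.fromBlocks_multiply, ← Matrix.fromBlocks_one, Matrix.toBlocks_fromBlocks₁₁,
      Matrix.toBlocks_fromBlocks₁₁, Matrix.fromCols_mul_fromRows] at h1
    simpa using h1
  · have h1 := congrArg Matrix.toBlocks₁₁ hST
    rw [hT1, hS1, Matrix.fromBlocks_multiply, ← Matrix.fromBlocks_one, Matrix.toBlocks_fromBlocks₁₁,
      Matrix.toBlocks_fromBlocks₁₁, Matrix.fromCols_mul_fromRows] at h1
    simpa using h1

theorem rv_sq (m : Matrix (Fin 1) κ (MonoidAlgebra ℤ Γ)) (W : Matrix κ κ (MonoidAlgebra ℤ Γ)) :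
    rv m 1 0 * osum W (mm Γ) * adj (rv m 1 0) = m * W * adj m := by
  unfold rv osum mm met
  rw [adj_fromCols, adj_fromCols, adj_sc, adj_sc, bar_one, bar_zero, sc_one, sc_zero,
    Matrix.fromCols_mul_fromBlocks, Matrix.fromCols_mul_fromBlocks,
    Matrix.fromCols_mul_fromRows]
  have h : (fromCols (1 : Matrix (Fin 1) (Fin 1) (MonoidAlgebra ℤ Γ)) (0 : Matrix (Fin 1) (Fin 1) (MonoidAlgebra ℤ Γ))) *
      (0 : Matrix (Fin 1 ⊕ Fin 1) κ (MonoidAlgebra ℤ Γ)) = 0 := Matrix.mul_zero _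
  rw [h]
  simp only [Matrix.mul_zero, Matrix.mul_one, zero_add, add_zero, Matrix.zero_mul]
  rw [Matrix.fromCols_mul_fromRows]
  simp

/-- Recognition of the modified form. -/
theorem Reach.modif {E : Matrix ι ι (MonoidAlgebra ℤ Γ)} {W : Matrix κ κ (MonoidAlgebra ℤ Γ)}
    {m : Matrix (Fin 1) κ (MonoidAlgebra ℤ Γ)} (hW : adj W = W) (h : Reach E W m 1 0) :
    m * W * adj m = 0 ∧ Isometric (modif W m) E := by
  obtain ⟨P, Q, hPQ, hQP, hP, hu⟩ := h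
  have hm : m * W * adj m = 0 := by
    have h1 : rv m 1 0 * osum W (mm Γ) * adj (rv m 1 0) =
        rv (0 : Matrix (Fin 1) ι (MonoidAlgebra ℤ Γ)) 1 0 * (P * osum W (mm Γ) * adj P) *
          adj (rv (0 : Matrix (Fin 1) ι (MonoidAlgebra ℤ Γ)) 1 0) := by
      rw [← hu, adj_mul]; simp only [Matrix.mul_assoc]
    rw [hP, rv_sq, rv_sq, adj_zero, Matrix.mul_zero] at h1
    exact h1
  refine ⟨hm, ?_⟩
  obtain ⟨P₂, Q₂, h1, h2, h3, h4⟩ := modif_plane hW m hm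
  refine iso_of_fix (P * Q₂) (P₂ * Q) ?_ ?_ ?_ ?_
  · calc P * Q₂ * (P₂ * Q) = P * (Q₂ * P₂) * Q := by simp only [Matrix.mul_assoc]
      _ = 1 := by rw [h2, Matrix.mul_one, hPQ]
  · calc P₂ * Q * (P * Q₂) = P₂ * (Q * P) * Q₂ := by simp only [Matrix.mul_assoc]
      _ = 1 := by rw [hQP, Matrix.mul_one, h1]
  · have h5 : Q₂ * P₂ * osum W (mm Γ) * (adj P₂ * adj Q₂) = osum W (mm Γ) := by
      rw [← adj_mul, h2, adj_one, Matrix.one_mul, Matrix.mul_one]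
    rw [adj_mul, ← h3, ← hP]
    calc P * Q₂ * (P₂ * osum W (mm Γ) * adj P₂) * (adj Q₂ * adj P) =
        P * (Q₂ * P₂ * osum W (mm Γ) * (adj P₂ * adj Q₂)) * adj P := by simp only [Matrix.mul_assoc]
      _ = P * osum W (mm Γ) * adj P := by rw [h5]
  · rw [← Matrix.mul_assoc, hu, ← h4, Matrix.mul_assoc, h1, Matrix.mul_one]

end reach

end Pool.Agent.H750
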