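import Pool.Agent.H750.K.Exact

set_option autoImplicit false
set_option linter.unusedSectionVars false
set_option linter.unusedSimpArgs false

/-! # The signature modulo eight -/

namespace Pool.Agent.H750

open Matrix Pool.Agent.R791 Pool.Agent.Results.MP_98022b_gt.VisibleSymmetricForms

variable {Γ : Type*} [Group Γ] {ι κ μ ν : Type*} [Fintype ι] [DecidableEq ι] [Fintype κ] [DecidableEq κ]

theorem sig_iso {A : Matrix ι ι (MonoidAlgebra ℤ Γ)} {B : Matrix κ κ (MonoidAlgebra ℤ Γ)}
    (h : Isometric A B) : sig (augMat B) = sig (augMat A) := by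
  have h1 := (sig_twist_congr (1 : Γ →* Matrix (Fin 1) (Fin 1) ℤ) (1 : Matrix (Fin 1) (Fin 1) ℤ)
    (by intro g; simp) h).1
  rwa [sig_twist_one, sig_twist_one] at h1

theorem augMat_symm {A : Matrix ι ι (MonoidAlgebra ℤ Γ)} (hA : adj A = A) : (augMat A)ᵀ = augMat A := by
  rw [← augMat_adj, hA]

theorem sig_osum {A : Matrix ι ι (MonoidAlgebra ℤ Γ)} {B : Matrix κ κ (MonoidAlgebra ℤ Γ)}
    (hA : adj A = A) (hB : adj B = B) :
    sig (augMat (osum A B)) = sig (augMat A) + sig (augMat B) := by
  rw [augMat_osum, sig_blocks _ _ (augMat_symm hA) (augMat_symm hB)]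

theorem augMat_neg' (A : Matrix ι κ (MonoidAlgebra ℤ Γ)) : augMat (-A) = -augMat A := by
  ext i j
  rw [augMat_apply, Matrix.neg_apply, Matrix.neg_apply, augMat_apply, map_neg]

theorem sig_met {S : Matrix ι ι (MonoidAlgebra ℤ Γ)} (hS : adj S = S) : sig (augMat (met S)) = 0 := by
  have h1 : Isometric (met (-S)) (met S) := by
    have := iso_met_add S (-S)
    rwa [adj_neg, hS, show S + (-S + -S) = -S by abel] at this
  have h2 : Isometric (met (-S)) (-met S) := by
    refine ⟨fromBlocks 1 0 0 (-1), fromBlocks 1 0 0 (-1), ?_, ?_, ?_⟩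
    · rw [Matrix.fromBlocks_multiply]; simp
    · rw [Matrix.fromBlocks_multiply]; simp
    · unfold met
      rw [adj_fromBlocks, Matrix.fromBlocks_multiply, Matrix.fromBlocks_multiply, Matrix.fromBlocks_neg]
      simp [adj_one, adj_zero, adj_neg]
  have h3 := sig_iso (h1.symm.trans h2)
  rw [augMat_neg', sig_neg _ (augMat_symm (adj_met hS))] at h3
  omega

theorem sig_stabM {A : Matrix ι ι (MonoidAlgebra ℤ Γ)} {B : Matrix κ κ (MonoidAlgebra ℤ Γ)}
    (hA : adj A = A) (hB : adj B = B) (h : StabM A B) : sig (augMat A) = sig (augMat B) := by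
  obtain ⟨a, b, S, T, hS, hT, h⟩ := h
  have h1 := sig_iso h
  rw [sig_osum hA (adj_met hS.1), sig_osum hB (adj_met hT.1), sig_met hS.1, sig_met hT.1] at h1
  omega

/-- The signature modulo eight of the form over the integers which is induced by the augmentation. -/
noncomputable def sigEight (Γ : Type*) [Group Γ] : Wv Γ →+ ZMod 8 :=
  AddMonoidHom.mk' (Quotient.lift (fun A : VForm Γ => ((sig (augMat A.mat) : ℤ) : ZMod 8))
    (fun A B h => by
      have h' : StabM A.mat B.mat := h
      change ((sig (augMat A.mat) : ℤ) : ZMod 8) = ((sig (augMat B.mat) : ℤ) : ZMod 8)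
      rw [sig_stabM A.symm B.symm h'])) (by
      intro x y
      induction x using Quotient.inductionOn with
      | h A =>
      induction y using Quotient.inductionOn with
      | h B =>
      change ((sig (augMat (A.add B).mat) : ℤ) : ZMod 8) =
        ((sig (augMat A.mat) : ℤ) : ZMod 8) + ((sig (augMat B.mat) : ℤ) : ZMod 8)
      rw [← Int.cast_add, ← sig_osum A.symm B.symm, sig_iso (A.add_iso B)])

theorem sigEight_cls {A : Matrix ι ι (MonoidAlgebra ℤ Γ)} (hs : adj A = A) (hv : Visible A)
    (hu : IsUnit A) : sigEight Γ (Wv.cls A hs hv hu) = ((sig (augMat A) : ℤ) : ZMod 8) := by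
  change ((sig (augMat (A.submatrix (Fintype.equivFin ι).symm (Fintype.equivFin ι).symm)) : ℤ) : ZMod 8) = _
  rw [← sig_iso (Isometric.submatrix A (Fintype.equivFin ι).symm)]

theorem sig_evenForm {B : Matrix ι ι (MonoidAlgebra ℤ Γ)} (hB : IsEvenForm B) (hu : IsUnit B) :
    (8 : ℤ) ∣ sig (augMat B) := by
  refine sig_even _ (augMat_unit hu) (augMat_symm (adj_even B hB)) ?_
  intro i
  obtain ⟨ψ, rfl⟩ := hB
  rw [augMat_apply, Matrix.add_apply, adj_apply, map_add, aug_bar]
  exact ⟨_, rfl⟩

theorem visible_signForm {k : ℕ} (e : Fin k → ℤˣ) : Visible (signForm Γ e) := by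
  intro i s hs _
  unfold signForm
  rw [diagonal_apply_eq, coeff_intCast_ne _ _ hs]
  exact Even.zero

/-- The class of the form with the matrix `1`. -/
noncomputable def oneW (Γ : Type*) [Group Γ] : Wv Γ :=
  Wv.cls (signForm Γ (fun _ : Fin 1 => 1)) (signForm_adj _) (visible_signForm _) (signForm_unit _)

theorem cls_minus : Wv.cls (signForm Γ (fun _ : Fin 1 => -1)) (signForm_adj _) (visible_signForm _)
    (signForm_unit _) = -oneW Γ := by
  rw [eq_neg_iff_add_eq_zero]
  unfold oneW
  have hZ : IsUnit (0 : Matrix (Fin 0) (Fin 0) (MonoidAlgebra ℤ Γ)) := ⟨1, Subsingleton.elim _ _⟩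
  rw [← Wv.cls_osum, ← Wv.cls_zero (0 : Matrix (Fin 0) (Fin 0) (MonoidAlgebra ℤ Γ))
      adj_zero (fun i => i.elim0) hZ]
  apply Wv.cls_eq_iff.mpr
  have h1 : signForm Γ (fun _ : Fin 1 => -1) = -1 := by
    unfold signForm
    ext i j
    rw [Subsingleton.elim i 0, Subsingleton.elim j 0]
    simp
  rw [signForm_one, h1]
  have h2 : Isometric (osum (-1 : Matrix (Fin 1) (Fin 1) (MonoidAlgebra ℤ Γ)) (1 : Matrix (Fin 1) (Fin 1) (MonoidAlgebra ℤ Γ)))
      (met (1 : Matrix (Fin 1) (Fin 1) (MonoidAlgebra ℤ Γ))) := by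
    have := iso_neg (A := (1 : Matrix (Fin 1) (Fin 1) (MonoidAlgebra ℤ Γ))) adj_one 1 rfl
    simpa using this
  refine stabM_zero (a := 1) ⟨adj_one, ?_⟩ h2 _
  have := visible_signForm (Γ := Γ) (fun _ : Fin 1 => 1)
  rwa [signForm_one] at this

theorem cls_signForm {k : ℕ} (e : Fin k → ℤˣ) :
    Wv.cls (signForm Γ e) (signForm_adj e) (visible_signForm e) (signForm_unit e) =
      (∑ i, (e i : ℤ)) • oneW Γ := by
  induction k with
  | zero =>
    rw [Wv.cls_zero]; simp
  | succ k ih =>
    have h1 : Isometric (signForm Γ e) (osum (signForm Γ (fun i : Fin k => e i.castSucc))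
        (signForm Γ (fun _ : Fin 1 => e (Fin.last k)))) := by
      have h2 := Isometric.submatrix (signForm Γ e) (finSumFinEquiv : Fin k ⊕ Fin 1 ≃ Fin (k + 1))
      convert h2 using 1
      ext1 x y
      have hne1 : ∀ (i : Fin k) (j : Fin 1), (Fin.castAdd 1 i) ≠ (Fin.natAdd k j) := by
        intro i j h
        have := congrArg Fin.val h
        simp at this
        omega
      rcases x with x | x <;> rcases y with y | y
      · change signForm Γ (fun i : Fin k => e i.castSucc) x y = signForm Γ e (Fin.castAdd 1 x) (Fin.castAdd 1 y)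
        unfold signForm
        by_cases h : x = y
        · subst h; rw [diagonal_apply_eq, diagonal_apply_eq]; rfl
        · rw [diagonal_apply_ne _ h, diagonal_apply_ne _ (fun h2 => h (Fin.castAdd_injective _ _ h2))]
      · change (0 : MonoidAlgebra ℤ Γ) = signForm Γ e (Fin.castAdd 1 x) (Fin.natAdd k y)
        unfold signForm
        rw [diagonal_apply_ne _ (hne1 x y)]
      · change (0 : MonoidAlgebra ℤ Γ) = signForm Γ e (Fin.natAdd k x) (Fin.castAdd 1 y)
        unfold signForm
        rw [diagonal_apply_ne _ (Ne.symm (hne1 y x))]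
      · change signForm Γ (fun _ : Fin 1 => e (Fin.last k)) x y = signForm Γ e (Fin.natAdd k x) (Fin.natAdd k y)
        unfold signForm
        rw [Subsingleton.elim x 0, Subsingleton.elim y 0, diagonal_apply_eq, diagonal_apply_eq]
        rfl
    have h3 : Wv.cls (signForm Γ e) (signForm_adj e) (visible_signForm e) (signForm_unit e) =
        Wv.cls (osum (signForm Γ (fun i : Fin k => e i.castSucc))
          (signForm Γ (fun _ : Fin 1 => e (Fin.last k)))) (adj_osum (signForm_adj _) (signForm_adj _))
          (visible_osum (visible_signForm _) (visible_signForm _))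
          (unit_osum (signForm_unit _) (signForm_unit _)) := Wv.cls_eq_iff.mpr h1.stabM
    rw [h3, Wv.cls_osum (signForm_adj _) (visible_signForm _) (signForm_unit _) (signForm_adj _)
      (visible_signForm _) (signForm_unit _), ih, Fin.sum_univ_castSucc, add_smul]
    congr 1
    rcases Int.units_eq_one_or (e (Fin.last k)) with h | h
    · simp only [h]
      rw [Units.val_one, one_smul]; rfl
    · simp only [h]
      rw [cls_minus]
      simp

/-- Exactness at the Witt group. -/
theorem range_symmetrisation : (symmetrisation Γ).range = (sigEight Γ).ker := by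
  ext x
  rw [AddMonoidHom.mem_range, AddMonoidHom.mem_ker]
  constructor
  · rintro ⟨y, rfl⟩
    obtain ⟨n, B, he, hu, rfl⟩ := L0.exists_cls y
    rw [symmetrisation_cls, sigEight_cls]
    exact (ZMod.intCast_zmod_eq_zero_iff_dvd _ 8).mpr (sig_evenForm he hu)
  · intro hx
    obtain ⟨n, A, hs, hv, hu, rfl⟩ := Wv.exists_cls x
    rw [sigEight_cls] at hx
    have h8 : (8 : ℤ) ∣ sig (augMat A) := by
      exact_mod_cast (ZMod.intCast_zmod_eq_zero_iff_dvd _ 8).mp hx
    obtain ⟨k, e, m, B, hsum, hB, hiso⟩ := exists_split A hu hs hv 1 (by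
      rw [show sig (augMat A) + 1 - 1 = sig (augMat A) by ring]; exact h8)
    have huB : IsUnit B := unit_of_osum (unit_congr hiso (unit_osum hu (signForm_unit e)))
    refine ⟨L0.cls B hB huB, ?_⟩
    rw [symmetrisation_cls]
    have h1 : Wv.cls (osum A (signForm Γ e)) (adj_osum hs (signForm_adj e))
        (visible_osum hv (visible_signForm e)) (unit_osum hu (signForm_unit e)) =
        Wv.cls (osum B (signForm Γ (fun _ : Fin 1 => 1))) (adj_osum (adj_even B hB) (signForm_adj _))
          (visible_osum (visible_of_isEvenForm hB) (visible_signForm _))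
          (unit_osum huB (signForm_unit _)) := Wv.cls_eq_iff.mpr hiso.stabM
    rw [Wv.cls_osum hs hv hu (signForm_adj e) (visible_signForm e) (signForm_unit e),
      Wv.cls_osum (adj_even B hB) (visible_of_isEvenForm hB) huB (signForm_adj _) (visible_signForm _)
        (signForm_unit _), cls_signForm, hsum, one_smul] at h1
    exact (add_right_cancel h1).symm

theorem sigEight_surj : Function.Surjective (sigEight Γ) := by
  intro x
  have h1 : sigEight Γ (oneW Γ) = 1 := by
    unfold oneW
    rw [sigEight_cls]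
    have h2 : augMat (signForm Γ (fun _ : Fin 1 => 1)) = 1 := by rw [signForm_one, augMat_one]
    rw [h2, ← diagonal_one, sig_diagonal]
    simp
  refine ⟨(x.val : ℤ) • oneW Γ, ?_⟩
  rw [map_zsmul, h1]
  simp

end Pool.Agent.H750
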