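import Pool.Agent.H750.Structure

set_option autoImplicit false

/-! # Hyperbolic and metabolic forms, stable isometry -/

namespace Pool.Agent.H750

open Matrix Pool.Agent.R791

variable {Γ : Type*} [Group Γ] {ι κ μ ν : Type*}

/-- The hyperbolic form. -/
noncomputable def hyp (Γ : Type*) [Group Γ] (ι : Type*) [DecidableEq ι] :
    Matrix (ι ⊕ ι) (ι ⊕ ι) (MonoidAlgebra ℤ Γ) := fromBlocks 0 1 1 0

/-- The metabolic form of the symmetric form `S`. -/
noncomputable def met [DecidableEq ι] (S : Matrix ι ι (MonoidAlgebra ℤ Γ)) :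
    Matrix (ι ⊕ ι) (ι ⊕ ι) (MonoidAlgebra ℤ Γ) := fromBlocks 0 1 1 S

/-- The diagonal form with as many entries `1` as entries `-1`. -/
noncomputable def pm (Γ : Type*) [Group Γ] (ι : Type*) [DecidableEq ι] :
    Matrix (ι ⊕ ι) (ι ⊕ ι) (MonoidAlgebra ℤ Γ) := fromBlocks 1 0 0 (-1)

section basics

theorem adj_hyp [DecidableEq ι] : adj (hyp Γ ι) = hyp Γ ι := by
  unfold hyp; rw [adj_fromBlocks, adj_zero, adj_one]

theorem adj_met [DecidableEq ι] {S : Matrix ι ι (MonoidAlgebra ℤ Γ)} (hS : adj S = S) :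
    adj (met S) = met S := by
  unfold met; rw [adj_fromBlocks, adj_zero, adj_one, hS]

theorem adj_pm [DecidableEq ι] : adj (pm Γ ι) = pm Γ ι := by
  unfold pm; simp [adj_fromBlocks, adj_zero, adj_one, adj_neg]

theorem adj_osum {A : Matrix ι ι (MonoidAlgebra ℤ Γ)} {B : Matrix κ κ (MonoidAlgebra ℤ Γ)}
    (hA : adj A = A) (hB : adj B = B) : adj (osum A B) = osum A B := by
  unfold osum; rw [adj_fromBlocks, hA, hB, adj_zero, adj_zero]

variable [Fintype ι] [DecidableEq ι] [Fintype κ] [DecidableEq κ] [Fintype μ] [DecidableEq μ]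
  [Fintype ν] [DecidableEq ν]

theorem unit_hyp : IsUnit (hyp Γ ι) := by
  have h : hyp Γ ι * hyp Γ ι = 1 := by
    unfold hyp; rw [Matrix.fromBlocks_multiply]; simp
  exact ⟨⟨_, _, h, h⟩, rfl⟩

theorem unit_pm : IsUnit (pm Γ ι) := by
  have h : pm Γ ι * pm Γ ι = 1 := by
    unfold pm; rw [Matrix.fromBlocks_multiply]; simp
  exact ⟨⟨_, _, h, h⟩, rfl⟩

theorem unit_met (S : Matrix ι ι (MonoidAlgebra ℤ Γ)) : IsUnit (met S) := by
  refine ⟨⟨met S, fromBlocks (-S) 1 1 0, ?_, ?_⟩, rfl⟩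
  · unfold met; rw [Matrix.fromBlocks_multiply]; simp
  · unfold met; rw [Matrix.fromBlocks_multiply]; simp

theorem unit_osum {A : Matrix ι ι (MonoidAlgebra ℤ Γ)} {B : Matrix κ κ (MonoidAlgebra ℤ Γ)}
    (hA : IsUnit A) (hB : IsUnit B) : IsUnit (osum A B) := by
  obtain ⟨U, rfl⟩ := hA
  obtain ⟨V, rfl⟩ := hB
  refine ⟨⟨osum U.val V.val, osum (U⁻¹).val (V⁻¹).val, ?_, ?_⟩, rfl⟩
  · unfold osum; rw [Matrix.fromBlocks_multiply]; simp
  · unfold osum; rw [Matrix.fromBlocks_multiply]; simp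

theorem unit_of_osum {A : Matrix ι ι (MonoidAlgebra ℤ Γ)} {B : Matrix κ κ (MonoidAlgebra ℤ Γ)}
    (h : IsUnit (osum A B)) : IsUnit A := by
  obtain ⟨U, hU⟩ := h
  have h1 : osum A B * (U⁻¹).val = 1 := by rw [← hU]; exact U.mul_inv
  have h2 : (U⁻¹).val * osum A B = 1 := by rw [← hU]; exact U.inv_mul
  set V := (U⁻¹).val with hV
  rw [← Matrix.fromBlocks_toBlocks V] at h1 h2
  unfold osum at h1 h2
  rw [Matrix.fromBlocks_multiply, ← Matrix.fromBlocks_one] at h1 h2
  have h3 := congrArg Matrix.toBlocks₁₁ h1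
  have h4 := congrArg Matrix.toBlocks₁₁ h2
  simp only [Matrix.toBlocks_fromBlocks₁₁] at h3 h4
  refine ⟨⟨A, V.toBlocks₁₁, ?_, ?_⟩, rfl⟩
  · simpa using h3
  · simpa using h4

theorem unit_congr {A : Matrix ι ι (MonoidAlgebra ℤ Γ)} {B : Matrix κ κ (MonoidAlgebra ℤ Γ)}
    (h : Isometric A B) (hA : IsUnit A) : IsUnit B := by
  obtain ⟨P, Q, h1, h2, h3⟩ := h
  obtain ⟨U, rfl⟩ := hA
  have h4 : adj Q * adj P = 1 := by rw [← adj_mul, h1, adj_one]
  have h5 : adj P * adj Q = 1 := by rw [← adj_mul, h2, adj_one]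
  refine ⟨⟨B, adj Q * (U⁻¹).val * Q, ?_, ?_⟩, rfl⟩
  · rw [← h3]
    calc P * U.val * adj P * (adj Q * (U⁻¹).val * Q) =
        P * (U.val * ((adj P * adj Q) * (U⁻¹).val)) * Q := by simp only [Matrix.mul_assoc]
      _ = 1 := by rw [h5, Matrix.one_mul, U.mul_inv, Matrix.mul_one, h1]
  · rw [← h3]
    calc adj Q * (U⁻¹).val * Q * (P * U.val * adj P) =
        adj Q * ((U⁻¹).val * ((Q * P) * U.val)) * adj P := by simp only [Matrix.mul_assoc]
      _ = 1 := by rw [h2, Matrix.one_mul, U.inv_mul, Matrix.mul_one, h4]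

theorem adj_congr {A : Matrix ι ι (MonoidAlgebra ℤ Γ)} {B : Matrix κ κ (MonoidAlgebra ℤ Γ)}
    (h : Isometric A B) (hA : adj A = A) : adj B = B := by
  obtain ⟨P, Q, h1, h2, h3⟩ := h
  rw [← h3, adj_mul, adj_mul, adj_adj, hA, Matrix.mul_assoc]

theorem even_congr {A : Matrix ι ι (MonoidAlgebra ℤ Γ)} {B : Matrix κ κ (MonoidAlgebra ℤ Γ)}
    (h : Isometric A B) (hA : IsEvenForm A) : IsEvenForm B := by
  obtain ⟨P, Q, h1, h2, h3⟩ := h
  obtain ⟨ψ, rfl⟩ := hA
  refine ⟨P * ψ * adj P, ?_⟩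
  rw [← h3, adj_mul, adj_mul, adj_adj, Matrix.mul_add, Matrix.add_mul, Matrix.mul_assoc P (adj ψ)]

theorem visible_congr' {A : Matrix ι ι (MonoidAlgebra ℤ Γ)} {B : Matrix κ κ (MonoidAlgebra ℤ Γ)}
    (h : Isometric A B) (hA : adj A = A) (hv : Visible A) : Visible B := by
  obtain ⟨P, Q, h1, h2, h3⟩ := h
  rw [← h3]; exact visible_congr A hA hv P

end basics

/-! ### even and visible forms -/

theorem even_osum {A : Matrix ι ι (MonoidAlgebra ℤ Γ)} {B : Matrix κ κ (MonoidAlgebra ℤ Γ)}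
    (hA : IsEvenForm A) (hB : IsEvenForm B) : IsEvenForm (osum A B) := by
  obtain ⟨ψ, rfl⟩ := hA
  obtain ⟨φ, rfl⟩ := hB
  refine ⟨fromBlocks ψ 0 0 φ, ?_⟩
  unfold osum
  rw [adj_fromBlocks, adj_zero, adj_zero, Matrix.fromBlocks_add]; simp

theorem even_hyp [DecidableEq ι] : IsEvenForm (hyp Γ ι) := by
  refine ⟨fromBlocks 0 1 0 0, ?_⟩
  unfold hyp
  simp [adj_fromBlocks, adj_zero, adj_one, Matrix.fromBlocks_add]

theorem even_neg {A : Matrix ι ι (MonoidAlgebra ℤ Γ)} (hA : IsEvenForm A) : IsEvenForm (-A) := by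
  obtain ⟨ψ, rfl⟩ := hA
  exact ⟨-ψ, by rw [adj_neg]; abel⟩

theorem even_submatrix {A : Matrix ι ι (MonoidAlgebra ℤ Γ)} (hA : IsEvenForm A) (e : κ → ι) :
    IsEvenForm (A.submatrix e e) := by
  obtain ⟨ψ, rfl⟩ := hA
  exact ⟨ψ.submatrix e e, rfl⟩

theorem visible_osum {A : Matrix ι ι (MonoidAlgebra ℤ Γ)} {B : Matrix κ κ (MonoidAlgebra ℤ Γ)}
    (hA : Visible A) (hB : Visible B) : Visible (osum A B) := by
  intro i s hs hss
  rcases i with i | i
  · exact hA i s hs hss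
  · exact hB i s hs hss

theorem visible_met [DecidableEq ι] {S : Matrix ι ι (MonoidAlgebra ℤ Γ)} (hS : Visible S) :
    Visible (met S) := by
  intro i s hs hss
  rcases i with i | i
  · exact Even.zero
  · exact hS i s hs hss

theorem visible_of_isEvenForm {A : Matrix ι ι (MonoidAlgebra ℤ Γ)} (hA : IsEvenForm A) :
    Visible A := fun i s _ hss => visible_of_even A hA i s hss

theorem visible_neg {A : Matrix ι ι (MonoidAlgebra ℤ Γ)} (hA : Visible A) : Visible (-A) := by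
  intro i s hs hss
  rw [Matrix.neg_apply, MonoidAlgebra.coeff_neg, Finsupp.neg_apply]
  exact (hA i s hs hss).neg

theorem visible_submatrix {A : Matrix ι ι (MonoidAlgebra ℤ Γ)} (hA : Visible A) (e : κ → ι) :
    Visible (A.submatrix e e) := fun i s hs hss => hA (e i) s hs hss

/-! ### isometries -/

section iso

variable [Fintype ι] [DecidableEq ι] [Fintype κ] [DecidableEq κ] [Fintype μ] [DecidableEq μ]
  [Fintype ν] [DecidableEq ν]

theorem iso_comm (A : Matrix ι ι (MonoidAlgebra ℤ Γ)) (B : Matrix κ κ (MonoidAlgebra ℤ Γ)) :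
    Isometric (osum A B) (osum B A) := by
  have h := Isometric.submatrix (osum A B) (Equiv.sumComm κ ι)
  convert h using 1
  ext1 x y
  rcases x with x | x <;> rcases y with y | y <;> rfl

theorem iso_assoc (A : Matrix ι ι (MonoidAlgebra ℤ Γ)) (B : Matrix κ κ (MonoidAlgebra ℤ Γ))
    (C : Matrix μ μ (MonoidAlgebra ℤ Γ)) :
    Isometric (osum (osum A B) C) (osum A (osum B C)) := by
  have h := Isometric.submatrix (osum (osum A B) C) (Equiv.sumAssoc ι κ μ).symm
  convert h using 1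
  ext1 x y
  rcases x with x | x | x <;> rcases y with y | y | y <;> rfl

/-- The reindexing for a sum of forms with two blocks. -/
def swapEquiv (ι κ : Type*) : (ι ⊕ κ) ⊕ (ι ⊕ κ) ≃ (ι ⊕ ι) ⊕ (κ ⊕ κ) where
  toFun := Sum.elim (Sum.elim (fun i => Sum.inl (Sum.inl i)) (fun k => Sum.inr (Sum.inl k)))
    (Sum.elim (fun i => Sum.inl (Sum.inr i)) (fun k => Sum.inr (Sum.inr k)))
  invFun := Sum.elim (Sum.elim (fun i => Sum.inl (Sum.inl i)) (fun i => Sum.inr (Sum.inl i)))
    (Sum.elim (fun k => Sum.inl (Sum.inr k)) (fun k => Sum.inr (Sum.inr k)))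
  left_inv x := by rcases x with (x | x) | (x | x) <;> rfl
  right_inv x := by rcases x with (x | x) | (x | x) <;> rfl

theorem iso_met (S : Matrix ι ι (MonoidAlgebra ℤ Γ)) (T : Matrix κ κ (MonoidAlgebra ℤ Γ)) :
    Isometric (osum (met S) (met T)) (met (osum S T)) := by
  have h := Isometric.submatrix (osum (met S) (met T)) (swapEquiv ι κ)
  convert h using 1
  ext1 x y
  rcases x with (x | x) | (x | x) <;> rcases y with (y | y) | (y | y) <;>
    simp [met, osum, swapEquiv, Matrix.one_apply]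

omit [Fintype ι] in
theorem hyp_eq_met : hyp Γ ι = met 0 := rfl

theorem iso_hyp : Isometric (osum (hyp Γ ι) (hyp Γ κ)) (hyp Γ (ι ⊕ κ)) := by
  rw [hyp_eq_met, hyp_eq_met, hyp_eq_met]
  have h := iso_met (0 : Matrix ι ι (MonoidAlgebra ℤ Γ)) (0 : Matrix κ κ (MonoidAlgebra ℤ Γ))
  convert h using 2
  unfold osum
  exact Matrix.fromBlocks_zero.symm

theorem iso_pm : Isometric (osum (pm Γ ι) (pm Γ κ)) (pm Γ (ι ⊕ κ)) := by
  have h := Isometric.submatrix (osum (pm Γ ι) (pm Γ κ)) (swapEquiv ι κ)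
  convert h using 1
  ext1 x y
  rcases x with (x | x) | (x | x) <;> rcases y with (y | y) | (y | y) <;>
    simp [pm, osum, swapEquiv, Matrix.one_apply]

theorem iso_hyp_equiv (e : ι ≃ κ) : Isometric (hyp Γ ι) (hyp Γ κ) := by
  have h := Isometric.submatrix (hyp Γ ι) (Equiv.sumCongr e.symm e.symm)
  convert h using 1
  ext1 x y
  rcases x with x | x <;> rcases y with y | y <;>
    simp [hyp, Matrix.one_apply]

theorem iso_pm_equiv (e : ι ≃ κ) : Isometric (pm Γ ι) (pm Γ κ) := by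
  have h := Isometric.submatrix (pm Γ ι) (Equiv.sumCongr e.symm e.symm)
  convert h using 1
  ext1 x y
  rcases x with x | x <;> rcases y with y | y <;>
    simp [pm, Matrix.one_apply]

/-- base change in a metabolic form -/
theorem iso_met_add (S χ : Matrix ι ι (MonoidAlgebra ℤ Γ)) :
    Isometric (met (S + (χ + adj χ))) (met S) := by
  refine ⟨fromBlocks 1 0 (-χ) 1, fromBlocks 1 0 χ 1, ?_, ?_, ?_⟩
  · rw [Matrix.fromBlocks_multiply]; simp
  · rw [Matrix.fromBlocks_multiply]; simp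
  · unfold met
    rw [adj_fromBlocks, Matrix.fromBlocks_multiply, Matrix.fromBlocks_multiply]
    simp [adj_one, adj_zero, adj_neg]
    abel

theorem iso_met_one : Isometric (met (1 : Matrix ι ι (MonoidAlgebra ℤ Γ))) (pm Γ ι) := by
  refine ⟨fromBlocks 0 1 (-1) 1, fromBlocks 1 (-1) 1 0, ?_, ?_, ?_⟩
  · rw [Matrix.fromBlocks_multiply]; simp
  · rw [Matrix.fromBlocks_multiply]; simp
  · unfold met pm
    rw [adj_fromBlocks, Matrix.fromBlocks_multiply, Matrix.fromBlocks_multiply]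
    simp [adj_one, adj_zero, adj_neg]

/-- A form plus its negative is metabolic. -/
theorem iso_neg {A : Matrix ι ι (MonoidAlgebra ℤ Γ)} (hA : adj A = A) (U : (Matrix ι ι (MonoidAlgebra ℤ Γ))ˣ)
    (hU : U.val = A) : Isometric (osum (-A) A) (met (U⁻¹).val) := by
  have h1 : A * (U⁻¹).val = 1 := by rw [← hU]; exact U.mul_inv
  have h2 : (U⁻¹).val * A = 1 := by rw [← hU]; exact U.inv_mul
  set V := (U⁻¹).val with hV
  have h3 : adj V = V := by
    have h4 : adj V * A = 1 := by rw [← hA, ← adj_mul, h1, adj_one]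
    calc adj V = adj V * (A * V) := by rw [h1, Matrix.mul_one]
      _ = V := by rw [← Matrix.mul_assoc, h4, Matrix.one_mul]
  refine ⟨fromBlocks 1 1 0 V, fromBlocks 1 (-A) 0 A, ?_, ?_, ?_⟩
  · rw [Matrix.fromBlocks_multiply]; simp [h2]
  · rw [Matrix.fromBlocks_multiply]; simp [h1]
  · unfold met osum
    rw [adj_fromBlocks, Matrix.fromBlocks_multiply, Matrix.fromBlocks_multiply]
    simp [adj_one, adj_zero, h3, h1, h2]

theorem adj_inv {A : Matrix ι ι (MonoidAlgebra ℤ Γ)} (hA : adj A = A) (U : (Matrix ι ι (MonoidAlgebra ℤ Γ))ˣ)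
    (hU : U.val = A) : adj (U⁻¹).val = (U⁻¹).val ∧ Isometric A (U⁻¹).val := by
  have h1 : A * (U⁻¹).val = 1 := by rw [← hU]; exact U.mul_inv
  have h2 : (U⁻¹).val * A = 1 := by rw [← hU]; exact U.inv_mul
  set V := (U⁻¹).val with hV
  have h3 : adj V = V := by
    have h4 : adj V * A = 1 := by rw [← hA, ← adj_mul, h1, adj_one]
    calc adj V = adj V * (A * V) := by rw [h1, Matrix.mul_one]
      _ = V := by rw [← Matrix.mul_assoc, h4, Matrix.one_mul]
  exact ⟨h3, V, A, h2, h1, by rw [h2, Matrix.one_mul, h3]⟩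

theorem iso_neg_even {A : Matrix ι ι (MonoidAlgebra ℤ Γ)} (hA : IsEvenForm A) (hu : IsUnit A) :
    Isometric (osum (-A) A) (hyp Γ ι) := by
  obtain ⟨U, hU⟩ := hu
  have hs := adj_even A hA
  have h1 := iso_neg hs U hU
  have h2 := adj_inv hs U hU
  obtain ⟨χ, hχ⟩ := even_congr h2.2 hA
  rw [hχ] at h1
  have h3 := iso_met_add (0 : Matrix ι ι (MonoidAlgebra ℤ Γ)) χ
  rw [zero_add] at h3
  exact h1.trans h3

/-- Every visible metabolic form becomes diagonal after adding one plane. -/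
theorem iso_met_pm (S : Matrix ι ι (MonoidAlgebra ℤ Γ)) (hS : adj S = S) (hv : Visible S) :
    Isometric (osum (met S) (pm Γ (Fin 1))) (osum (pm Γ ι) (pm Γ (Fin 1))) := by
  choose a m ham using fun i => sym_decomp (S i i) (sym_apply hS i i) (hv i)
  -- the row vector `x`
  set x : Matrix (Fin 1) ι (MonoidAlgebra ℤ Γ) :=
    Matrix.of fun _ i => ((1 - m i : ℤ) : MonoidAlgebra ℤ Γ) with hx
  -- step 1
  have h1 : Isometric (osum (met S) (pm Γ (Fin 1))) (osum (met (S + adj x * x)) (pm Γ (Fin 1))) := by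
    refine ⟨fromBlocks 1 (fromBlocks 0 0 (adj x) 0) (fromBlocks (-x) 0 0 0) 1,
      fromBlocks (fromBlocks 1 0 (-(adj x * x)) 1) (fromBlocks 0 0 (-adj x) 0)
        (fromBlocks x 0 0 0) 1, ?_, ?_, ?_⟩
    · simp only [Matrix.fromBlocks_multiply, Matrix.fromBlocks_add, Matrix.one_mul, Matrix.mul_one,
        Matrix.zero_mul, Matrix.mul_zero, add_zero, zero_add, ← Matrix.fromBlocks_one]
      simp
    · simp only [Matrix.fromBlocks_multiply, Matrix.fromBlocks_add, Matrix.one_mul, Matrix.mul_one,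
        Matrix.zero_mul, Matrix.mul_zero, add_zero, zero_add, ← Matrix.fromBlocks_one]
      simp
    · unfold met pm osum
      simp only [adj_fromBlocks, adj_one, adj_zero, adj_neg, adj_adj]
      simp only [Matrix.fromBlocks_multiply, Matrix.fromBlocks_add, Matrix.one_mul, Matrix.mul_one,
        Matrix.zero_mul, Matrix.mul_zero, add_zero, zero_add]
      simp
  -- step 2
  have h2 : IsEvenForm (S + adj x * x - 1 : Matrix ι ι (MonoidAlgebra ℤ Γ)) := by
    apply isEvenForm_of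
    · rw [adj_sub, adj_add, adj_mul, adj_adj, hS, adj_one]
    · intro i s hss
      have h3 : (S + adj x * x - 1 : Matrix ι ι (MonoidAlgebra ℤ Γ)) i i =
          a i + bar (a i) + ((m i + (1 - m i) * (1 - m i) - 1 : ℤ) : MonoidAlgebra ℤ Γ) := by
        rw [Matrix.sub_apply, Matrix.add_apply, Matrix.mul_apply, Fin.sum_univ_one, adj_apply, hx,
          Matrix.of_apply, bar_intCast, ham i, Matrix.one_apply_eq]
        push_cast
        abel
      rw [h3]
      by_cases hs1 : s = 1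
      · subst hs1
        simp only [MonoidAlgebra.coeff_add, Finsupp.add_apply, coeff_bar, inv_one, coeff_intCast_one]
        have h4 := Int.even_mul_succ_self (m i - 1)
        have h5 := (even_two_mul ((a i).coeff 1)).add h4
        refine (congrArg Even ?_).mpr h5
        ring
      · exact sym_of_decomp _ _ s hs1 hss
  obtain ⟨χ, hχ⟩ := h2
  have h3 : S + adj x * x = 1 + (χ + adj χ) := by rw [← hχ]; abel
  rw [h3] at h1
  exact h1.trans (((iso_met_add 1 χ).trans iso_met_one).osum (Isometric.refl _))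

end iso

end Pool.Agent.H750
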