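import Pool.Agent.H750.K.Tensor

set_option autoImplicit false

/-! # The group structure of the tensor product and the homomorphism to the L-group -/

namespace Pool.Agent.H750

open Matrix Pool.Agent.R791

variable {Γ : Type*} [Group Γ]

/-- The congruence generated by the relations of the tensor product. -/
def tcon (Γ : Type*) [Group Γ] : AddCon (FreeAddMonoid (XX Γ)) := addConGen TRel

/-- The tensor square of the ideal, divided by the involution. -/
def TT (Γ : Type*) [Group Γ] : Type _ := (tcon Γ).Quotient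

instance : AddMonoid (TT Γ) := inferInstanceAs (AddMonoid (tcon Γ).Quotient)

/-- The projection. -/
def mkT (Γ : Type*) [Group Γ] : FreeAddMonoid (XX Γ) →+ TT Γ := AddCon.mk' (tcon Γ)

theorem mkT_surj (x : TT Γ) : ∃ l, mkT Γ l = x := by
  induction x using AddCon.induction_on with
  | H l => exact ⟨l, rfl⟩

/-- The class of a pair. -/
def tb (p q : ↥(JJ Γ)) : TT Γ := mkT Γ (FreeAddMonoid.of (p, q))

theorem mkT_eq {l l' : FreeAddMonoid (XX Γ)} (h : TRel l l') : mkT Γ l = mkT Γ l' :=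
  (AddCon.eq (tcon Γ)).mpr (AddConGen.Rel.of _ _ h)

theorem tb_add_left (p p' q : ↥(JJ Γ)) : tb (p + p') q = tb p q + tb p' q :=
  (mkT_eq (TRel.add p p' q)).symm

theorem tb_swap (p q : ↥(JJ Γ)) : tb p q = tb q p := mkT_eq (TRel.swap p q)

theorem tb_add_right (p q q' : ↥(JJ Γ)) : tb p (q + q') = tb p q + tb p q' := by
  rw [tb_swap, tb_add_left, tb_swap, tb_swap q' p]

theorem tb_mul (p q : ↥(JJ Γ)) (r : MonoidAlgebra ℤ Γ) : tb (mulr p r) q = tb p (mulr q (bar r)) :=
  mkT_eq (TRel.mul p q r)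

theorem tb_zero_left (q : ↥(JJ Γ)) : tb 0 q = 0 := mkT_eq (TRel.zero q)

theorem tb_zero_right (q : ↥(JJ Γ)) : tb q 0 = 0 := by rw [tb_swap, tb_zero_left]

theorem tt_comm_of (x : XX Γ) (l : FreeAddMonoid (XX Γ)) :
    mkT Γ (FreeAddMonoid.of x) + mkT Γ l = mkT Γ l + mkT Γ (FreeAddMonoid.of x) := by
  induction l using FreeAddMonoid.recOn with
  | zero => rw [map_zero, add_zero, zero_add]
  | of_add y l ih =>
    have h1 : mkT Γ (FreeAddMonoid.of x) + mkT Γ (FreeAddMonoid.of y) =
        mkT Γ (FreeAddMonoid.of y) + mkT Γ (FreeAddMonoid.of x) := by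
      rw [← map_add, ← map_add]; exact mkT_eq (TRel.comm x y)
    rw [map_add, ← add_assoc, h1, add_assoc, ih, add_assoc]

theorem tt_comm (a b : TT Γ) : a + b = b + a := by
  obtain ⟨l, rfl⟩ := mkT_surj a
  obtain ⟨m, rfl⟩ := mkT_surj b
  induction l using FreeAddMonoid.recOn with
  | zero => rw [map_zero, add_zero, zero_add]
  | of_add y l ih => rw [map_add, add_assoc, ih, ← add_assoc, tt_comm_of, add_assoc]

instance : AddCommMonoid (TT Γ) := { (inferInstance : AddMonoid (TT Γ)) with add_comm := tt_comm }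

theorem tb_neg_swap (p q : ↥(JJ Γ)) : tb (-p) q = tb p (-q) := by
  have h := tb_mul p q (-1)
  have e1 : mulr p (-1) = -p := Subtype.ext (by
    change (p : MonoidAlgebra ℤ Γ) * (-1) = -(p : MonoidAlgebra ℤ Γ)
    simp)
  have e2 : mulr q (bar (-1)) = -q := Subtype.ext (by
    change (q : MonoidAlgebra ℤ Γ) * bar (-1) = -(q : MonoidAlgebra ℤ Γ)
    rw [bar_neg', bar_one]; simp)
  rwa [e1, e2] at h

theorem mulr_neg (p : ↥(JJ Γ)) (r : MonoidAlgebra ℤ Γ) : mulr (-p) r = -mulr p r := Subtype.ext (by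
    change (-(p : MonoidAlgebra ℤ Γ)) * r = -((p : MonoidAlgebra ℤ Γ) * r)
    simp)

theorem tt_le {N : Type*} [AddMonoid N] (f : FreeAddMonoid (XX Γ) →+ N)
    (h : ∀ l l', TRel l l' → f l = f l') : tcon Γ ≤ AddCon.ker f :=
  AddCon.addConGen_le.mpr fun a b hab => h a b hab

/-- The negative. -/
noncomputable def negT (Γ : Type*) [Group Γ] : TT Γ →+ TT Γ :=
  AddCon.lift (tcon Γ) (FreeAddMonoid.lift fun x : XX Γ => tb (-x.1) x.2) (tt_le _ (by
    intro l l' h
    cases h with
    | comm x y => rw [map_add, map_add, add_comm]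
    | add p p' q =>
      rw [map_add]
      simp only [FreeAddMonoid.lift_eval_of]
      rw [neg_add, tb_add_left]
    | swap p q =>
      simp only [FreeAddMonoid.lift_eval_of]
      rw [tb_neg_swap, tb_swap]
    | mul p q r =>
      simp only [FreeAddMonoid.lift_eval_of]
      rw [← mulr_neg, tb_mul]
    | zero q =>
      rw [map_zero]
      simp only [FreeAddMonoid.lift_eval_of]
      rw [neg_zero, tb_zero_left]))

theorem negT_of (x : XX Γ) : negT Γ (mkT Γ (FreeAddMonoid.of x)) = tb (-x.1) x.2 := rfl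

theorem neg_add_T (a : TT Γ) : negT Γ a + a = 0 := by
  obtain ⟨l, rfl⟩ := mkT_surj a
  induction l using FreeAddMonoid.recOn with
  | zero => rw [map_zero, map_zero, add_zero]
  | of_add y l ih =>
    have h1 : negT Γ (mkT Γ (FreeAddMonoid.of y)) + mkT Γ (FreeAddMonoid.of y) = 0 := by
      rw [negT_of]
      change tb (-y.1) y.2 + tb y.1 y.2 = 0
      rw [← tb_add_left, neg_add_cancel, tb_zero_left]
    rw [map_add, map_add, add_add_add_comm, h1, ih, add_zero]

noncomputable instance : Neg (TT Γ) := ⟨negT Γ⟩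

noncomputable instance : AddCommGroup (TT Γ) :=
  { (inferInstance : AddCommMonoid (TT Γ)) with
    neg := negT Γ
    neg_add_cancel := neg_add_T
    zsmul := zsmulRec
  }

theorem tb_neg_left (p q : ↥(JJ Γ)) : tb (-p) q = -tb p q := by
  rw [eq_neg_iff_add_eq_zero, ← tb_add_left, neg_add_cancel, tb_zero_left]

theorem tb_neg_right (p q : ↥(JJ Γ)) : tb p (-q) = -tb p q := by
  rw [← tb_neg_swap, tb_neg_left]

theorem tb_sub_left (p p' q : ↥(JJ Γ)) : tb (p - p') q = tb p q - tb p' q := by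
  rw [sub_eq_add_neg, tb_add_left, tb_neg_left, sub_eq_add_neg]

theorem tb_sub_right (p q q' : ↥(JJ Γ)) : tb p (q - q') = tb p q - tb p q' := by
  rw [sub_eq_add_neg, tb_add_right, tb_neg_right, sub_eq_add_neg]

/-- induction -/
theorem TT.induct {P : TT Γ → Prop} (h0 : P 0) (h1 : ∀ p q, P (tb p q))
    (hadd : ∀ a b, P a → P b → P (a + b)) (x : TT Γ) : P x := by
  obtain ⟨l, rfl⟩ := mkT_surj x
  induction l using FreeAddMonoid.recOn with
  | zero => rwa [map_zero]
  | of_add y l ih => rw [map_add]; exact hadd _ _ (h1 y.1 y.2) ih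

/-- The square. -/
noncomputable def sT (Γ : Type*) [Group Γ] : TT Γ →+ MonoidAlgebra ℤ Γ :=
  AddCon.lift (tcon Γ) (ss Γ) (tt_le _ fun _ _ h => ss_rel h)

theorem sT_mk (l : FreeAddMonoid (XX Γ)) : sT Γ (mkT Γ l) = ss Γ l := rfl

theorem sT_tb (p q : ↥(JJ Γ)) : sT Γ (tb p q) = (p : MonoidAlgebra ℤ Γ) * bar (q : MonoidAlgebra ℤ Γ) +
    (q : MonoidAlgebra ℤ Γ) * bar (p : MonoidAlgebra ℤ Γ) := by
  unfold tb
  rw [sT_mk, ss_of]; rfl

theorem cl_con {l l' : FreeAddMonoid (XX Γ)} (h : AddConGen.Rel TRel l l') :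
    ∀ z z' : FreeAddMonoid (XX Γ), cl (z + l + z') = cl (z + l' + z') := by
  induction h with
  | of x y h => exact fun z z' => cl_context h z z'
  | refl x => exact fun z z' => rfl
  | symm _ ih => exact fun z z' => (ih z z').symm
  | trans _ _ ih1 ih2 => exact fun z z' => (ih1 z z').trans (ih2 z z')
  | @add w x y t _ _ ih1 ih2 =>
    intro z z'
    have e1 : z + (w + y) + z' = z + w + (y + z') := by simp only [add_assoc]
    have e2 : z + x + (y + z') = z + x + y + z' := by simp only [add_assoc]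
    have e3 : z + x + t + z' = z + (x + t) + z' := by simp only [add_assoc]
    rw [e1, ih1, e2, ih2, e3]

/-- The class of an element of the tensor product. -/
noncomputable def cT (x : TT Γ) : L0 Γ :=
  AddCon.liftOn (c := tcon Γ) x cl (by
    intro a b h
    have h1 := cl_con h 0 0
    simpa using h1)

theorem cT_mk (l : FreeAddMonoid (XX Γ)) : cT (mkT Γ l) = cl l := rfl

/-- The homomorphism from the isotropic part of the tensor product to the L-group. -/
noncomputable def cK (Γ : Type*) [Group Γ] : (sT Γ).ker →+ L0 Γ :=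
  AddMonoidHom.mk' (fun x => cT (x : TT Γ)) (by
    rintro ⟨x, hx⟩ ⟨y, hy⟩
    obtain ⟨l, rfl⟩ := mkT_surj x
    obtain ⟨m, rfl⟩ := mkT_surj y
    change cT (mkT Γ l + mkT Γ m) = cT (mkT Γ l) + cT (mkT Γ m)
    rw [← map_add, cT_mk, cT_mk, cT_mk]
    exact cl_add hx hy)

theorem cK_apply (x : (sT Γ).ker) : cK Γ x = cT (x : TT Γ) := rfl

theorem cT_add {x y : TT Γ} (hx : sT Γ x = 0) (hy : sT Γ y = 0) : cT (x + y) = cT x + cT y :=
  (cK Γ).map_add ⟨x, hx⟩ ⟨y, hy⟩

theorem cT_neg {x : TT Γ} (hx : sT Γ x = 0) : cT (-x) = -cT x :=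
  (cK Γ).map_neg ⟨x, hx⟩

theorem cT_zero : cT (0 : TT Γ) = 0 := (cK Γ).map_zero

/-- The class of a family as the class of an element. -/
theorem clf_eq_cT {n : ℕ} (f : Fin n → XX Γ) : clf f = cT (∑ i, tb (f i).1 (f i).2) := by
  have h1 : mkT Γ (FreeAddMonoid.ofList (List.ofFn f)) = ∑ i, tb (f i).1 (f i).2 := by
    induction n with
    | zero => simp
    | succ n ih =>
      rw [List.ofFn_succ, Fin.sum_univ_succ, ← ih (fun i => f i.succ)]
      rfl
  rw [← h1, cT_mk]
  symm
  apply cl_eq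
  refine ⟨finCongr (by simp), fun i => ?_⟩
  rw [List.get_eq_getElem]
  exact (List.getElem_ofFn (f := f) (i := (i : ℕ)) (by simp)).symm

end Pool.Agent.H750
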