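import Pool.Agent.H750.K.TGroup

set_option autoImplicit false

/-! # The trivial classes -/

namespace Pool.Agent.H750

open Matrix Pool.Agent.R791

variable {Γ : Type*} [Group Γ]

/-- The `1 × 1` matrix. -/
def sc (x : MonoidAlgebra ℤ Γ) : Matrix (Fin 1) (Fin 1) (MonoidAlgebra ℤ Γ) := Matrix.of fun _ _ => x

theorem sc_mul (x y : MonoidAlgebra ℤ Γ) : sc x * sc y = sc (x * y) := by
  ext1 i j
  rw [Matrix.mul_apply, Fin.sum_univ_one]; rfl

theorem sc_add (x y : MonoidAlgebra ℤ Γ) : sc x + sc y = sc (x + y) := rfl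

theorem sc_sub (x y : MonoidAlgebra ℤ Γ) : sc x - sc y = sc (x - y) := rfl

omit [Group Γ] in
theorem sc_neg (x : MonoidAlgebra ℤ Γ) : -sc x = sc (-x) := rfl

theorem adj_sc (x : MonoidAlgebra ℤ Γ) : adj (sc x) = sc (bar x) := rfl

theorem sc_one : sc (1 : MonoidAlgebra ℤ Γ) = 1 := by
  ext1 i j
  rw [Subsingleton.elim i 0, Subsingleton.elim j 0, Matrix.one_apply_eq]; rfl

theorem sc_zero : sc (0 : MonoidAlgebra ℤ Γ) = 0 := rfl

theorem famForm_one (p q : ↥(JJ Γ)) : famForm (one ((p, q) : XX Γ)) =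
    fromBlocks (sc (-(bar (q : MonoidAlgebra ℤ Γ) * (q : MonoidAlgebra ℤ Γ))))
      (sc (1 - bar (q : MonoidAlgebra ℤ Γ) * (p : MonoidAlgebra ℤ Γ)))
      (sc (1 - bar (p : MonoidAlgebra ℤ Γ) * (q : MonoidAlgebra ℤ Γ)))
      (sc (-(bar (p : MonoidAlgebra ℤ Γ) * (p : MonoidAlgebra ℤ Γ)))) := by
  have h3 : row (one ((p, q) : XX Γ)) = fromCols (sc (p : MonoidAlgebra ℤ Γ)) (sc (q : MonoidAlgebra ℤ Γ)) := by
    ext1 x y
    rcases y with y | y <;> rfl
  have h4 : adj (fromCols (sc (p : MonoidAlgebra ℤ Γ)) (sc (q : MonoidAlgebra ℤ Γ))) =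
      fromRows (sc (bar (p : MonoidAlgebra ℤ Γ))) (sc (bar (q : MonoidAlgebra ℤ Γ))) := by
    ext1 x y
    rcases x with x | x <;> rfl
  unfold famForm modif
  rw [h3, h4]
  unfold hyp
  rw [Matrix.fromCols_mul_fromBlocks, Matrix.fromBlocks_mul_fromRows, Matrix.fromRows_mul_fromCols,
    sub_eq_add_neg, Matrix.fromBlocks_neg, Matrix.fromBlocks_add]
  simp only [Matrix.mul_zero, Matrix.zero_mul, Matrix.one_mul, Matrix.mul_one, zero_add, add_zero,
    sc_mul, sc_neg]
  rw [← sc_one, sc_add, sc_add, ← sub_eq_add_neg, ← sub_eq_add_neg]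

/-- The element `g - 1`. -/
noncomputable def gm (g : Γ) : ↥(JJ Γ) := ⟨MonoidAlgebra.single g 1 - 1, by
  rw [mem_JJ, map_sub, aug_single, map_one, sub_self]; exact Even.zero⟩

/-- The element `g + 1`. -/
noncomputable def gp (g : Γ) : ↥(JJ Γ) := ⟨MonoidAlgebra.single g 1 + 1, by
  rw [mem_JJ, map_add, aug_single, map_one]; decide⟩

/-- The element `2`. -/
noncomputable def two (Γ : Type*) [Group Γ] : ↥(JJ Γ) := ⟨1 + 1, by
  rw [mem_JJ, map_add, map_one]; decide⟩

theorem clf_tau (g : Γ) : clf (one ((gm g, gp g) : XX Γ)) = 0 := by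
  set G : MonoidAlgebra ℤ Γ := MonoidAlgebra.single g 1 with hG
  set G' : MonoidAlgebra ℤ Γ := MonoidAlgebra.single g⁻¹ 1 with hG'
  have h1 : G * G' = 1 := by
    rw [hG, hG', MonoidAlgebra.single_mul_single, mul_inv_cancel, one_mul, MonoidAlgebra.one_def]
  have h2 : G' * G = 1 := by
    rw [hG, hG', MonoidAlgebra.single_mul_single, inv_mul_cancel, one_mul, MonoidAlgebra.one_def]
  have hb : bar G = G' := by rw [hG, bar_single]
  have hb' : bar G' = G := by rw [hG', bar_single, inv_inv]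
  have hiso : IsoF (one ((gm g, gp g) : XX Γ)) := by
    rw [isoF_one]
    change (G - 1) * bar (G + 1) + (G + 1) * bar (G - 1) = 0
    rw [sub_eq_add_neg, bar_add, bar_add, bar_neg', bar_one, hb]
    have : (G + -1) * (G' + 1) + (G + 1) * (G' + -1) = (G * G' + G * G') - 1 - 1 := by noncomm_ring
    rw [this, h1]; abel
  rw [clf_eq hiso]
  refine L0.cls_eq_zero _ _ (κ := Fin 1) ?_
  have hform : famForm (one ((gm g, gp g) : XX Γ)) =
      fromBlocks (sc (-((G' + 1) * (G + 1)))) (sc (1 - (G' + 1) * (G - 1)))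
        (sc (1 - (G' - 1) * (G + 1))) (sc (-((G' - 1) * (G - 1)))) := by
    rw [famForm_one]
    change fromBlocks (sc (-(bar (G + 1) * (G + 1)))) (sc (1 - bar (G + 1) * (G - 1)))
      (sc (1 - bar (G - 1) * (G + 1))) (sc (-(bar (G - 1) * (G - 1)))) = _
    rw [sub_eq_add_neg G 1, bar_add, bar_add, bar_neg', bar_one, hb]
    simp only [← sub_eq_add_neg]
  have h3 : Isometric (famForm (one ((gm g, gp g) : XX Γ)))
      (met (0 + (sc (G - 1) + adj (sc (G - 1))))) := by
    refine ⟨fromBlocks 1 (sc (1 + G')) 0 (sc (G' * G')), fromBlocks 1 (sc (-((1 + G') * (G * G)))) 0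
      (sc (G * G)), ?_, ?_, ?_⟩
    · rw [Matrix.fromBlocks_multiply, ← Matrix.fromBlocks_one]
      simp only [Matrix.mul_zero, Matrix.zero_mul, Matrix.one_mul, Matrix.mul_one, zero_add, add_zero,
        sc_mul, sc_add]
      congr 1
      · rw [neg_add_cancel, sc_zero]
      · rw [← sc_one]
        congr 1
        rw [mul_assoc, ← mul_assoc G' G G, h2, one_mul, h2]
    · rw [Matrix.fromBlocks_multiply, ← Matrix.fromBlocks_one]
      simp only [Matrix.mul_zero, Matrix.zero_mul, Matrix.one_mul, Matrix.mul_one, zero_add, add_zero,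
        sc_mul, sc_add]
      have e1 : G * G * (G' * G') = 1 := by rw [mul_assoc, ← mul_assoc G G' G', h1, one_mul, h1]
      congr 1
      · rw [neg_mul, mul_assoc, e1, mul_one, add_neg_cancel, sc_zero]
      · rw [e1, sc_one]
    · rw [hform, adj_fromBlocks]
      simp only [adj_sc, adj_one, adj_zero, bar_add, bar_mul, bar_one, hb']
      rw [Matrix.fromBlocks_multiply, Matrix.fromBlocks_multiply]
      unfold met
      rw [← sc_one]
      simp only [Matrix.mul_zero, Matrix.zero_mul, zero_add, add_zero, sc_mul, sc_add, sub_eq_add_neg,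
        bar_add, bar_neg', hb, bar_one]
      have hx : ∀ x : MonoidAlgebra ℤ Γ, G' * (G * x) = x := fun x => by rw [← mul_assoc, h2, one_mul]
      have hy : ∀ x : MonoidAlgebra ℤ Γ, G * (G' * x) = x := fun x => by rw [← mul_assoc, h1, one_mul]
      rw [← sc_zero]
      congr 1
      · congr 1
        simp only [mul_add, add_mul, mul_one, one_mul, mul_neg, neg_mul, mul_assoc, h1, h2, hx, hy, neg_neg,
          neg_add_rev]
        abel
      · congr 1
        simp only [mul_add, add_mul, mul_one, one_mul, mul_neg, neg_mul, mul_assoc, h1, h2, hx, hy, neg_neg,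
          neg_add_rev]
        abel
      · congr 1
        simp only [mul_add, add_mul, mul_one, one_mul, mul_neg, neg_mul, mul_assoc, h1, h2, hx, hy, neg_neg,
          neg_add_rev]
        abel
      · congr 1
        simp only [mul_add, add_mul, mul_one, one_mul, mul_neg, neg_mul, mul_assoc, h1, h2, hx, hy, neg_neg,
          neg_add_rev]
        abel
  exact h3.trans (iso_met_add 0 (sc (G - 1)))

end Pool.Agent.H750
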