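import Pool.Agent.H750.K.Family

set_option autoImplicit false

/-! # The tensor product group and the map to the L-group -/

namespace Pool.Agent.H750

open Matrix Pool.Agent.R791

variable {Γ : Type*} [Group Γ] {ι κ : Type*}

/-- The family `f` lists the elements of `l`. -/
def Lists (l : FreeAddMonoid (XX Γ)) (f : ι → XX Γ) : Prop :=
  ∃ e : ι ≃ Fin (FreeAddMonoid.toList l).length, ∀ i, f i = (FreeAddMonoid.toList l).get (e i)

theorem get_append_left {α : Type*} (l l' : List α) (h : l.length + l'.length = (l ++ l').length)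
    (i : Fin l.length) : (l ++ l').get (Fin.cast h (Fin.castAdd _ i)) = l.get i := by
  rw [List.get_eq_getElem, List.get_eq_getElem]
  exact List.getElem_append_left i.2

theorem get_append_right {α : Type*} (l l' : List α) (h : l.length + l'.length = (l ++ l').length)
    (i : Fin l'.length) : (l ++ l').get (Fin.cast h (Fin.natAdd _ i)) = l'.get i := by
  rw [List.get_eq_getElem, List.get_eq_getElem]
  have h1 : ((Fin.cast h (Fin.natAdd l.length i)) : ℕ) = l.length + i := rfl
  simp only [h1]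
  rw [List.getElem_append_right (by omega)]
  simp

theorem Lists.add {l l' : FreeAddMonoid (XX Γ)} {f : ι → XX Γ} {g : κ → XX Γ} (h : Lists l f)
    (h' : Lists l' g) : Lists (l + l') (Sum.elim f g) := by
  obtain ⟨e, he⟩ := h
  obtain ⟨e', he'⟩ := h'
  have hlen : (FreeAddMonoid.toList l).length + (FreeAddMonoid.toList l').length =
      (FreeAddMonoid.toList (l + l')).length := by
    rw [FreeAddMonoid.toList_add, List.length_append]
  refine ⟨(Equiv.sumCongr e e').trans (finSumFinEquiv.trans (finCongr hlen)), ?_⟩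
  intro i
  rcases i with i | i
  · have h1 : ((Equiv.sumCongr e e').trans (finSumFinEquiv.trans (finCongr hlen))) (Sum.inl i) =
        Fin.cast hlen (Fin.castAdd _ (e i)) := rfl
    have h2 : (FreeAddMonoid.toList (l + l')).get (Fin.cast hlen (Fin.castAdd _ (e i))) =
        (FreeAddMonoid.toList l).get (e i) := get_append_left _ _ hlen (e i)
    rw [Sum.elim_inl, he, h1, h2]
  · have h1 : ((Equiv.sumCongr e e').trans (finSumFinEquiv.trans (finCongr hlen))) (Sum.inr i) =
        Fin.cast hlen (Fin.natAdd _ (e' i)) := rfl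
    have h2 : (FreeAddMonoid.toList (l + l')).get (Fin.cast hlen (Fin.natAdd _ (e' i))) =
        (FreeAddMonoid.toList l').get (e' i) := get_append_right _ _ hlen (e' i)
    rw [Sum.elim_inr, he', h1, h2]

theorem lists_of (x : XX Γ) : Lists (FreeAddMonoid.of x) (one x) :=
  ⟨Equiv.refl _, fun _ => by simp [one]⟩

theorem lists_zero : Lists (0 : FreeAddMonoid (XX Γ)) (Fin.elim0 : Fin 0 → XX Γ) :=
  ⟨Equiv.refl _, fun i => i.elim0⟩

theorem lists_self (l : FreeAddMonoid (XX Γ)) : Lists l (FreeAddMonoid.toList l).get :=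
  ⟨Equiv.refl _, fun _ => rfl⟩

/-- The class of a list. -/
noncomputable def cl (l : FreeAddMonoid (XX Γ)) : L0 Γ := clf (FreeAddMonoid.toList l).get

theorem cl_eq [Fintype ι] [DecidableEq ι] {l : FreeAddMonoid (XX Γ)} {f : ι → XX Γ} (h : Lists l f) :
    cl l = clf f := by
  obtain ⟨e, he⟩ := h
  have h1 : f = (FreeAddMonoid.toList l).get ∘ e := funext he
  rw [h1, clf_equiv]; rfl

/-- The sum of the squares of the elements of a list. -/
noncomputable def ss (Γ : Type*) [Group Γ] : FreeAddMonoid (XX Γ) →+ MonoidAlgebra ℤ Γ :=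
  FreeAddMonoid.lift sv

theorem ss_of (x : XX Γ) : ss Γ (FreeAddMonoid.of x) = sv x := FreeAddMonoid.lift_eval_of _ _

theorem ss_eq [Fintype ι] {l : FreeAddMonoid (XX Γ)} {f : ι → XX Γ} (h : Lists l f) :
    ss Γ l = ∑ i, sv (f i) := by
  obtain ⟨e, he⟩ := h
  have h1 : ∑ i, sv (f i) = ∑ i, sv ((FreeAddMonoid.toList l).get i) := by
    rw [← Equiv.sum_comp e]
    exact Finset.sum_congr rfl fun i _ => by rw [he]
  rw [h1]
  unfold ss
  rw [FreeAddMonoid.lift_apply, ← List.sum_ofFn]
  congr 1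
  apply List.ext_get
  · simp
  · intro n h1 h2; simp

theorem isoF_iff [Fintype ι] {l : FreeAddMonoid (XX Γ)} {f : ι → XX Γ} (h : Lists l f) :
    IsoF f ↔ ss Γ l = 0 := by
  rw [ss_eq h]; rfl

theorem cl_add {l l' : FreeAddMonoid (XX Γ)} (h : ss Γ l = 0) (h' : ss Γ l' = 0) :
    cl (l + l') = cl l + cl l' := by
  rw [cl_eq ((lists_self l).add (lists_self l')),
    clf_sum ((isoF_iff (lists_self l)).mpr h) ((isoF_iff (lists_self l')).mpr h')]
  rfl

/-- The defining relations of the tensor product. -/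
inductive TRel : FreeAddMonoid (XX Γ) → FreeAddMonoid (XX Γ) → Prop
  | comm (x y : XX Γ) : TRel (FreeAddMonoid.of x + FreeAddMonoid.of y)
      (FreeAddMonoid.of y + FreeAddMonoid.of x)
  | add (p p' q : ↥(JJ Γ)) : TRel (FreeAddMonoid.of (p, q) + FreeAddMonoid.of (p', q))
      (FreeAddMonoid.of (p + p', q))
  | swap (p q : ↥(JJ Γ)) : TRel (FreeAddMonoid.of (p, q)) (FreeAddMonoid.of (q, p))
  | mul (p q : ↥(JJ Γ)) (r : MonoidAlgebra ℤ Γ) : TRel (FreeAddMonoid.of (mulr p r, q))
      (FreeAddMonoid.of (p, mulr q (bar r)))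
  | zero (q : ↥(JJ Γ)) : TRel (FreeAddMonoid.of (0, q)) 0

theorem ss_rel {l l' : FreeAddMonoid (XX Γ)} (h : TRel l l') : ss Γ l = ss Γ l' := by
  cases h with
  | comm x y => rw [map_add, map_add, add_comm]
  | add p p' q =>
    rw [map_add, ss_of, ss_of, ss_of]
    have e1 : ((p + p' : ↥(JJ Γ)) : MonoidAlgebra ℤ Γ) = p + p' := rfl
    unfold sv
    simp only [e1]
    rw [bar_add]
    noncomm_ring
  | swap p q =>
    rw [ss_of, ss_of]
    unfold sv
    exact add_comm _ _
  | mul p q r =>
    rw [ss_of, ss_of]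
    have e1 : ((mulr p r : ↥(JJ Γ)) : MonoidAlgebra ℤ Γ) = (p : MonoidAlgebra ℤ Γ) * r := rfl
    have e2 : ((mulr q (bar r) : ↥(JJ Γ)) : MonoidAlgebra ℤ Γ) = (q : MonoidAlgebra ℤ Γ) * bar r := rfl
    unfold sv
    simp only [e1, e2]
    rw [bar_mul, bar_mul, bar_bar]
    noncomm_ring
  | zero q =>
    rw [ss_of, map_zero]
    unfold sv
    simp

section rel

variable [Fintype ι] [DecidableEq ι]

/-- the general form of the removal of trivial pairs -/
theorem clf_drop (f : ι → XX Γ) {x : XX Γ} (hx : sv x = 0) (h0 : clf (one x) = 0) :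
    clf (Sum.elim f (one x)) = clf f := by
  by_cases hf : IsoF f
  · rw [clf_sum hf (isoF_one.mpr hx), h0, add_zero]
  · have h1 : ¬ IsoF (Sum.elim f (one x)) := by
      rw [isoF_sum]
      intro h
      apply hf
      unfold IsoF
      simpa [one, hx] using h
    unfold clf
    rw [dif_neg hf, dif_neg h1]

theorem sv_right_zero (p : ↥(JJ Γ)) : sv ((p, 0) : XX Γ) = 0 := by unfold sv; simp

theorem sv_left_zero (p : ↥(JJ Γ)) : sv ((0, p) : XX Γ) = 0 := by unfold sv; simp

theorem clf_left_zero (p : ↥(JJ Γ)) : clf (one ((0, p) : XX Γ)) = 0 := by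
  have h := clf_swap (Fin.elim0 : Fin 0 → XX Γ) ((0, p) : XX Γ)
  have e : ∀ x : XX Γ, clf (Sum.elim (Fin.elim0 : Fin 0 → XX Γ) (one x)) = clf (one x) := by
    intro x
    have := clf_equiv (Sum.elim (Fin.elim0 : Fin 0 → XX Γ) (one x)) (Equiv.emptySum (Fin 0) (Fin 1)).symm
    rw [← this]; rfl
  rw [e, e] at h
  rw [h]; exact clf_right_zero p

/-- moving the last pair to the front of the second last -/
theorem clf_assoc (f : ι → XX Γ) (x y : XX Γ) :
    clf (Sum.elim (Sum.elim f (one x)) (one y)) = clf (Sum.elim f (Sum.elim (one x) (one y))) := by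
  rw [← clf_equiv _ (Equiv.sumAssoc ι (Fin 1) (Fin 1)).symm]
  congr 1
  funext i
  rcases i with i | i | i <;> rfl

theorem clf_comm (f : ι → XX Γ) (x y : XX Γ) :
    clf (Sum.elim f (Sum.elim (one x) (one y))) = clf (Sum.elim f (Sum.elim (one y) (one x))) := by
  rw [← clf_equiv _ (Equiv.sumCongr (Equiv.refl ι) (Equiv.sumComm (Fin 1) (Fin 1)))]
  congr 1
  funext i
  rcases i with i | i | i <;> rfl

theorem clf_add_rel (f : ι → XX Γ) (p p' q : ↥(JJ Γ)) :
    clf (Sum.elim f (Sum.elim (one ((p, q) : XX Γ)) (one ((p', q) : XX Γ)))) =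
      clf (Sum.elim f (one ((p + p', q) : XX Γ))) := by
  rw [clf_elem f _ _ 1]
  have e1 : mulr p' (1 : MonoidAlgebra ℤ Γ) = p' := Subtype.ext (mul_one _)
  have e2 : q - mulr q (bar (1 : MonoidAlgebra ℤ Γ)) = 0 := by
    rw [bar_one]
    apply Subtype.ext
    change (q : MonoidAlgebra ℤ Γ) - (q : MonoidAlgebra ℤ Γ) * 1 = 0
    rw [mul_one, sub_self]
  simp only [e1, e2]
  rw [← clf_assoc]
  exact clf_drop _ (sv_right_zero p') (clf_right_zero p')

theorem clf_mul_rel (f : ι → XX Γ) (p q : ↥(JJ Γ)) (r : MonoidAlgebra ℤ Γ) :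
    clf (Sum.elim f (one ((mulr p r, q) : XX Γ))) =
      clf (Sum.elim f (one ((p, mulr q (bar r)) : XX Γ))) := by
  have h1 : clf (Sum.elim f (one ((mulr p r, q) : XX Γ))) =
      clf (Sum.elim f (Sum.elim (one ((mulr p r, q) : XX Γ)) (one ((p, 0) : XX Γ)))) := by
    rw [← clf_assoc]
    exact (clf_drop _ (sv_right_zero p) (clf_right_zero p)).symm
  rw [h1, clf_elem f _ _ (-r)]
  have e1 : mulr p r + mulr p (-r) = 0 := by
    apply Subtype.ext
    change (p : MonoidAlgebra ℤ Γ) * r + (p : MonoidAlgebra ℤ Γ) * (-r) = 0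
    rw [mul_neg, add_neg_cancel]
  have e2 : (0 : ↥(JJ Γ)) - mulr q (bar (-r)) = mulr q (bar r) := by
    apply Subtype.ext
    change (0 : MonoidAlgebra ℤ Γ) - (q : MonoidAlgebra ℤ Γ) * bar (-r) = (q : MonoidAlgebra ℤ Γ) * bar r
    rw [bar_neg']; simp
  simp only [e1, e2]
  rw [clf_comm, ← clf_assoc]
  exact clf_drop _ (sv_left_zero q) (clf_left_zero q)

/-- The class is compatible with the relations, in every context. -/
theorem cl_rel {l l' : FreeAddMonoid (XX Γ)} (h : TRel l l') (f : ι → XX Γ) :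
    clf (Sum.elim f (FreeAddMonoid.toList l).get) = clf (Sum.elim f (FreeAddMonoid.toList l').get) := by
  -- replace the lists by families
  have key : ∀ {κ : Type} [Fintype κ] [DecidableEq κ] {m : FreeAddMonoid (XX Γ)} {g : κ → XX Γ},
      Lists m g → clf (Sum.elim f (FreeAddMonoid.toList m).get) = clf (Sum.elim f g) := by
    intro κ _ _ m g hm
    obtain ⟨e, he⟩ := hm
    rw [← clf_equiv _ (Equiv.sumCongr (Equiv.refl ι) e)]
    congr 1
    funext i
    rcases i with i | i
    · rfl
    · exact (he i).symm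
  cases h with
  | comm x y =>
    rw [key ((lists_of x).add (lists_of y)), key ((lists_of y).add (lists_of x)), clf_comm]
  | add p p' q =>
    rw [key ((lists_of _).add (lists_of _)), key (lists_of _), clf_add_rel]
  | swap p q =>
    rw [key (lists_of _), key (lists_of _), clf_swap]
  | mul p q r =>
    rw [key (lists_of _), key (lists_of _), clf_mul_rel]
  | zero q =>
    rw [key (lists_of _), key lists_zero, clf_drop _ (sv_left_zero q) (clf_left_zero q)]
    rw [← clf_equiv (Sum.elim f (Fin.elim0 : Fin 0 → XX Γ)) (Equiv.sumEmpty ι (Fin 0)).symm]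
    rfl

end rel

theorem cl_context {l l' : FreeAddMonoid (XX Γ)} (h : TRel l l') (z z' : FreeAddMonoid (XX Γ)) :
    cl (z + l + z') = cl (z + l' + z') := by
  have key : ∀ m : FreeAddMonoid (XX Γ), cl (z + m + z') =
      clf (Sum.elim (Sum.elim (FreeAddMonoid.toList z).get (FreeAddMonoid.toList z').get)
        (FreeAddMonoid.toList m).get) := by
    intro m
    rw [cl_eq (((lists_self z).add (lists_self m)).add (lists_self z'))]
    rw [← clf_equiv (Sum.elim (Sum.elim (FreeAddMonoid.toList z).get (FreeAddMonoid.toList m).get)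
      (FreeAddMonoid.toList z').get) ((Equiv.sumAssoc _ _ _).trans
        ((Equiv.sumCongr (Equiv.refl _) (Equiv.sumComm _ _)).trans (Equiv.sumAssoc _ _ _).symm))]
    congr 1
    funext i
    rcases i with (i | i) | i <;> rfl
  rw [key, key]
  exact cl_rel h _

end Pool.Agent.H750
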