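import Pool.Agent.H750.K.Tau

set_option autoImplicit false

/-! # Chains and the tensor product -/

namespace Pool.Agent.H750

open Matrix Pool.Agent.R791

variable {Γ : Type*} [Group Γ]

/-- `y ↦ 2 ⊗ y`. -/
noncomputable def dtwo (Γ : Type*) [Group Γ] : ↥(JJ Γ) →+ TT Γ :=
  AddMonoidHom.mk' (fun y => tb (two Γ) y) (fun a b => tb_add_right _ a b)

theorem dtwo_apply (y : ↥(JJ Γ)) : dtwo Γ y = tb (two Γ) y := rfl

/-- The skew element `t - t̄`. -/
noncomputable def dl (t : MonoidAlgebra ℤ Γ) : ↥(JJ Γ) := ⟨t - bar t, by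
  rw [mem_JJ, map_sub, aug_bar, sub_self]; exact Even.zero⟩

theorem sT_two (y : ↥(JJ Γ)) : sT Γ (tb (two Γ) y) =
    (y : MonoidAlgebra ℤ Γ) + y + (bar (y : MonoidAlgebra ℤ Γ) + bar (y : MonoidAlgebra ℤ Γ)) := by
  rw [sT_tb]
  change (1 + 1) * bar (y : MonoidAlgebra ℤ Γ) + (y : MonoidAlgebra ℤ Γ) * bar (1 + 1) = _
  rw [bar_add, bar_one]
  noncomm_ring

theorem sT_dl (t : MonoidAlgebra ℤ Γ) : sT Γ (tb (two Γ) (dl t)) = 0 := by
  rw [sT_two]
  change (t - bar t) + (t - bar t) + (bar (t - bar t) + bar (t - bar t)) = 0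
  rw [sub_eq_add_neg, bar_add, bar_neg', bar_bar]
  abel

theorem sT_tau (g : Γ) : sT Γ (tb (gm g) (gp g)) = 0 := by
  rw [sT_tb]
  change (MonoidAlgebra.single g 1 - 1) * bar (MonoidAlgebra.single g 1 + 1) +
    (MonoidAlgebra.single g 1 + 1) * bar (MonoidAlgebra.single g 1 - 1) = 0
  have h1 : (MonoidAlgebra.single g 1 : MonoidAlgebra ℤ Γ) * MonoidAlgebra.single g⁻¹ 1 = 1 := by
    rw [MonoidAlgebra.single_mul_single, mul_inv_cancel, one_mul, MonoidAlgebra.one_def]
  rw [sub_eq_add_neg, bar_add, bar_add, bar_neg', bar_one, bar_single]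
  set G : MonoidAlgebra ℤ Γ := MonoidAlgebra.single g 1
  set G' : MonoidAlgebra ℤ Γ := MonoidAlgebra.single g⁻¹ 1
  have : (G + -1) * (G' + 1) + (G + 1) * (G' + -1) = (G * G' + G * G') - 1 - 1 := by noncomm_ring
  rw [this, h1]; abel

theorem cT_tau (g : Γ) : cT (tb (gm g) (gp g)) = 0 := by
  rw [← clf_tau g, clf_eq_cT]
  congr 1

theorem cT_two_dl (t : MonoidAlgebra ℤ Γ) : cT (tb (two Γ) (dl t)) = 0 := by
  induction t using MonoidAlgebra.induction_linear with
  | zero =>
    have h : dl (0 : MonoidAlgebra ℤ Γ) = 0 := Subtype.ext (by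
      change (0 : MonoidAlgebra ℤ Γ) - bar 0 = 0
      rw [bar_zero, sub_zero])
    rw [h, tb_zero_right, cT_zero]
  | add x y hx hy =>
    have h : dl (x + y) = dl x + dl y := Subtype.ext (by
      change x + y - bar (x + y) = (x - bar x) + (y - bar y)
      rw [bar_add]; abel)
    rw [h, tb_add_right, cT_add (sT_dl x) (sT_dl y), hx, hy, add_zero]
  | single g r =>
    have h0 : cT (tb (two Γ) (dl (MonoidAlgebra.single g 1))) = 0 := by
      have h1 : dl (MonoidAlgebra.single g 1) = mulr (gm g) (bar (gp g : MonoidAlgebra ℤ Γ)) := Subtype.ext (by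
        change MonoidAlgebra.single g 1 - bar (MonoidAlgebra.single g 1) =
          (MonoidAlgebra.single g 1 - 1) * bar (MonoidAlgebra.single g 1 + 1)
        rw [bar_add, bar_one, bar_single, sub_mul, mul_add, MonoidAlgebra.single_mul_single,
          mul_inv_cancel, one_mul, ← MonoidAlgebra.one_def, mul_one, one_mul]
        abel)
      have h2 : mulr (two Γ) (gp g : MonoidAlgebra ℤ Γ) = gp g + gp g := Subtype.ext (by
        change (1 + 1) * (gp g : MonoidAlgebra ℤ Γ) = gp g + gp g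
        rw [add_mul, one_mul])
      rw [h1, ← tb_mul, h2, tb_add_left, tb_swap, cT_add (sT_tau g) (sT_tau g), cT_tau, add_zero]
    have key : ∀ n : ℕ, cT (tb (two Γ) (dl (MonoidAlgebra.single g (n : ℤ)))) = 0 := by
      intro n
      induction n with
      | zero =>
        have h : dl (MonoidAlgebra.single g ((0 : ℕ) : ℤ)) = 0 := Subtype.ext (by
          change (MonoidAlgebra.single g ((0 : ℕ) : ℤ)) - bar (MonoidAlgebra.single g ((0 : ℕ) : ℤ)) = 0
          rw [bar_single]; simp)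
        rw [h, tb_zero_right, cT_zero]
      | succ n ih =>
        have h : dl (MonoidAlgebra.single g ((n + 1 : ℕ) : ℤ)) =
            dl (MonoidAlgebra.single g (n : ℤ)) + dl (MonoidAlgebra.single g 1) := Subtype.ext (by
          change (MonoidAlgebra.single g ((n + 1 : ℕ) : ℤ)) - bar (MonoidAlgebra.single g ((n + 1 : ℕ) : ℤ)) =
            (MonoidAlgebra.single g (n : ℤ) - bar (MonoidAlgebra.single g (n : ℤ))) +
              (MonoidAlgebra.single g 1 - bar (MonoidAlgebra.single g 1))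
          push_cast
          simp only [MonoidAlgebra.single_add, bar_add, bar_single]
          abel)
        rw [h, tb_add_right, cT_add (sT_dl _) (sT_dl _), ih, h0, add_zero]
    rcases Int.eq_nat_or_neg r with ⟨n, rfl | rfl⟩
    · exact key n
    · have h : dl (MonoidAlgebra.single g (-(n : ℤ))) = -dl (MonoidAlgebra.single g (n : ℤ)) :=
        Subtype.ext (by
          change (MonoidAlgebra.single g (-(n : ℤ))) - bar (MonoidAlgebra.single g (-(n : ℤ))) =
            -(MonoidAlgebra.single g (n : ℤ) - bar (MonoidAlgebra.single g (n : ℤ)))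
          simp only [MonoidAlgebra.single_neg, bar_neg', bar_single]
          abel)
      rw [h, tb_neg_right, cT_neg (sT_dl _), key, neg_zero]

theorem cT_two (y : ↥(JJ Γ)) (h : sT Γ (tb (two Γ) y) = 0) : cT (tb (two Γ) y) = 0 := by
  rw [sT_two] at h
  have h1 : bar (y : MonoidAlgebra ℤ Γ) = -(y : MonoidAlgebra ℤ Γ) := by
    ext g
    have h2 := congrArg (fun z : MonoidAlgebra ℤ Γ => z.coeff g) h
    simp only [MonoidAlgebra.coeff_add, Finsupp.add_apply, MonoidAlgebra.coeff_zero,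
      Finsupp.coe_zero, Pi.zero_apply] at h2
    rw [MonoidAlgebra.coeff_neg, Finsupp.neg_apply]
    omega
  obtain ⟨t, ht⟩ := halve_skew _ h1
  have h3 : y = dl t := Subtype.ext ht
  rw [h3]; exact cT_two_dl t

/-- The element of a pair of group elements. -/
noncomputable def EE (x : Γ × Γ) : TT Γ := tb (gm x.1) (gm x.2⁻¹)

theorem EE_double (x : Γ × Γ) : EE x + EE x ∈ (dtwo Γ).range := by
  refine ⟨mulr (gm x.2⁻¹) (bar (gm x.1 : MonoidAlgebra ℤ Γ)), ?_⟩
  rw [dtwo_apply, ← tb_mul]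
  have h2 : mulr (two Γ) (gm x.1 : MonoidAlgebra ℤ Γ) = gm x.1 + gm x.1 := Subtype.ext (by
    change (1 + 1) * (gm x.1 : MonoidAlgebra ℤ Γ) = gm x.1 + gm x.1
    rw [add_mul, one_mul])
  rw [h2, tb_add_left]; rfl

/-- The cocycle relation. -/
theorem EE_rel (g h j : Γ) : EE (h, j) - EE (g * h, j) + EE (g, h * j) - EE (g, h) = 0 := by
  unfold EE
  simp only
  have h1 : gm (g * h) = mulr (gm g) (MonoidAlgebra.single h 1) + gm h := Subtype.ext (by
    change MonoidAlgebra.single (g * h) 1 - 1 = (MonoidAlgebra.single g 1 - 1) * MonoidAlgebra.single h 1 +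
      (MonoidAlgebra.single h 1 - 1)
    rw [sub_mul, MonoidAlgebra.single_mul_single, one_mul, one_mul]
    abel)
  have h2 : mulr (gm j⁻¹) (bar (MonoidAlgebra.single h 1)) = gm (h * j)⁻¹ - gm h⁻¹ := Subtype.ext (by
    change (MonoidAlgebra.single j⁻¹ 1 - 1) * bar (MonoidAlgebra.single h 1) =
      (MonoidAlgebra.single (h * j)⁻¹ 1 - 1) - (MonoidAlgebra.single h⁻¹ 1 - 1)
    rw [bar_single, sub_mul, MonoidAlgebra.single_mul_single, one_mul, one_mul, _root_.mul_inv_rev]
    abel)
  rw [h1, tb_add_left, tb_mul, h2, tb_sub_right]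
  abel

/-- The quotient by the elements `2 ⊗ y`. -/
abbrev TQ (Γ : Type*) [Group Γ] := TT Γ ⧸ (dtwo Γ).range

/-- The homomorphism from mod 2 chains. -/
noncomputable def theta (Γ : Type*) [Group Γ] : (Γ × Γ →₀ ZMod 2) →+ TQ Γ :=
  Finsupp.liftAddHom fun x => ZMod.lift 2 ⟨zmultiplesHom _ (QuotientAddGroup.mk (EE x) : TQ Γ), by
    have h : (QuotientAddGroup.mk (EE x + EE x) : TQ Γ) = 0 :=
      (QuotientAddGroup.eq_zero_iff _).mpr (EE_double x)
    rw [zmultiplesHom_apply]
    change ((2 : ℕ) : ℤ) • (QuotientAddGroup.mk (EE x) : TQ Γ) = 0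
    rw [natCast_zsmul, two_nsmul]
    exact h⟩

theorem theta_single (x : Γ × Γ) : theta Γ (Finsupp.single x 1) = QuotientAddGroup.mk (EE x) := by
  unfold theta
  rw [Finsupp.liftAddHom_apply_single]
  have h := ZMod.lift_coe 2 (A := TQ Γ) ⟨zmultiplesHom _ (QuotientAddGroup.mk (EE x) : TQ Γ), by
    have h : (QuotientAddGroup.mk (EE x + EE x) : TQ Γ) = 0 :=
      (QuotientAddGroup.eq_zero_iff _).mpr (EE_double x)
    rw [zmultiplesHom_apply]
    change ((2 : ℕ) : ℤ) • (QuotientAddGroup.mk (EE x) : TQ Γ) = 0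
    rw [natCast_zsmul, two_nsmul]
    exact h⟩ 1
  rw [Int.cast_one] at h
  rw [h]
  simp

/-- chains with integral coefficients -/
noncomputable def thetaZ (Γ : Type*) [Group Γ] : (Γ × Γ →₀ ℤ) →+ TT Γ :=
  Finsupp.liftAddHom fun x => zmultiplesHom _ (EE x)

theorem thetaZ_single (x : Γ × Γ) (n : ℤ) : thetaZ Γ (Finsupp.single x n) = n • EE x := by
  unfold thetaZ
  rw [Finsupp.liftAddHom_apply_single]; rfl

/-- reduction modulo two -/
noncomputable def red (α : Type*) : (α →₀ ℤ) →+ (α →₀ ZMod 2) :=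
  Finsupp.mapRange.addMonoidHom (Int.castAddHom (ZMod 2))

theorem red_single {α : Type*} (x : α) (n : ℤ) : red α (Finsupp.single x n) = Finsupp.single x (n : ZMod 2) := by
  unfold red
  simp

theorem theta_red (n : Γ × Γ →₀ ℤ) : theta Γ (red _ n) = QuotientAddGroup.mk (thetaZ Γ n) := by
  induction n using Finsupp.induction_linear with
  | zero => simp
  | add a b ha hb => rw [map_add, map_add, ha, hb, map_add]; rfl
  | single x n =>
    rw [red_single, thetaZ_single]
    have h : (Finsupp.single x (n : ZMod 2) : Γ × Γ →₀ ZMod 2) = n • Finsupp.single x 1 := by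
      rw [Finsupp.smul_single]; simp
    rw [h, map_zsmul, theta_single]; rfl

theorem red_surj {α : Type*} (z : α →₀ ZMod 2) : ∃ n, red α n = z := by
  induction z using Finsupp.induction_linear with
  | zero => exact ⟨0, map_zero _⟩
  | add a b ha hb =>
    obtain ⟨m, rfl⟩ := ha
    obtain ⟨n, rfl⟩ := hb
    exact ⟨m + n, map_add _ _ _⟩
  | single x a =>
    obtain ⟨n, rfl⟩ := ZMod.intCast_surjective a
    exact ⟨Finsupp.single x n, red_single x n⟩

end Pool.Agent.H750
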